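import Pool.Agent.KS6_50.HB.DomLp

set_option autoImplicit false
set_option linter.unusedSectionVars false

/-!
The codomain condition for `L_q` spaces, by duality.
-/

open MeasureTheory
open scoped InnerProductSpace ENNReal

namespace Pool.Agent.KS6_50.HB

open Pool.Agent.Results.MP_69de12_an.HilbertBound

section Pairing

variable {𝕜 : Type*} [RCLike 𝕜] {X' Y : Type*} [NormedAddCommGroup X'] [NormedSpace 𝕜 X']
  [NormedAddCommGroup Y] [NormedSpace 𝕜 Y]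

lemma admY_of_admX (T : X' →L[𝕜] (Y →L[𝕜] 𝕜)) (hT : ∀ h, ‖T h‖ ≤ ‖h‖) {N : ℕ} {x : Fin N → X'}
    (hx : AdmX 𝕜 x) : AdmY (fun i => T (x i)) := by
  intro y
  set s := ∑ i, ‖T (x i) y‖ ^ 2 with hs
  have hs0 : 0 ≤ s := Finset.sum_nonneg fun i _ => by positivity
  let c : Fin N → 𝕜 := fun i => starRingEnd 𝕜 (T (x i) y)
  have h1 : T (∑ i, c i • x i) y = (s : 𝕜) := by
    rw [map_sum, sum_apply, hs]
    push_cast
    apply Finset.sum_congr rfl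
    intro i _
    rw [map_smul, smul_apply, smul_eq_mul, RCLike.conj_mul]
  have h2 : s ≤ ‖∑ i, c i • x i‖ * ‖y‖ := by
    have := (T (∑ i, c i • x i)).le_of_opNorm_le (hT _) y
    rw [h1, RCLike.norm_ofReal, abs_of_nonneg hs0] at this
    exact this
  have h3 : ‖∑ i, c i • x i‖ ^ 2 ≤ s := by
    refine (hx c).trans_eq ?_
    simp [c, hs]
  rcases hs0.eq_or_lt with h | h
  · rw [← h]; positivity
  · have h4 : s * s ≤ s * ‖y‖ ^ 2 := by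
      calc s * s = s ^ 2 := by ring
        _ ≤ (‖∑ i, c i • x i‖ * ‖y‖) ^ 2 := pow_le_pow_left₀ hs0 h2 2
        _ = ‖∑ i, c i • x i‖ ^ 2 * ‖y‖ ^ 2 := by ring
        _ ≤ s * ‖y‖ ^ 2 := mul_le_mul_of_nonneg_right h3 (by positivity)
    exact le_of_mul_le_mul_left h4 h

/-- transfer of the domain condition along a norming pairing -/
theorem cod_of_pairing (T : X' →L[𝕜] (Y →L[𝕜] 𝕜)) (hT : ∀ h, ‖T h‖ ≤ ‖h‖) {N : ℕ} {β : ℝ}
    (hrep : ∀ (y : Fin N → Y) (g : Y →L[𝕜] 𝕜), ‖g‖ ≤ 1 →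
      ∃ h : X', ‖h‖ ≤ 1 ∧ ∀ j, T h (y j) = g (y j))
    (hD : Dom 𝕜 X' N β) : Cod 𝕜 Y N β := by
  intro y B hB g hg
  choose h hh1 hh2 using fun i => hrep y (g i) (hg i)
  let φ : Fin N → X' →L[𝕜] 𝕜 := fun j => (ContinuousLinearMap.apply 𝕜 𝕜 (y j)).comp T
  have hφ : ∀ (x : Fin N → X'), ‖(Matrix.of fun i j => φ i (x j)).det‖
      = ‖(Matrix.of fun i j => T (x i) (y j)).det‖ := by
    intro x
    rw [← Matrix.det_transpose]
    rfl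
  have h1 := hD φ B (fun x hx => by
    rw [hφ]
    exact hB _ (admY_of_admX T hT hx)) h hh1
  rw [hφ] at h1
  simpa only [hh2] using h1

/-- **Duality**: the domain condition for the dual space is the codomain condition. -/
theorem cod_of_dual {N : ℕ} {β : ℝ} (hD : Dom 𝕜 (Y →L[𝕜] 𝕜) N β) : Cod 𝕜 Y N β :=
  cod_of_pairing (ContinuousLinearMap.id 𝕜 (Y →L[𝕜] 𝕜)) (fun _ => le_rfl)
    (fun _ g hg => ⟨g, hg, fun _ => rfl⟩) hD

end Pairing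

section Rep

variable {𝕜 : Type*} [RCLike 𝕜] {Ω : Type*} [MeasurableSpace Ω] {ν : Measure Ω} {q : ℝ≥0∞}
  [Fact (1 ≤ q)]

lemma rp {x Q : ℝ} (hx : 0 ≤ x) (hQ : 1 < Q) : x ^ (Q - 2) * x = x ^ (Q - 1) := by
  rcases hx.eq_or_lt with h | h
  · rw [← h, mul_zero, Real.zero_rpow (by linarith)]
  · rw [← Real.rpow_add_one h.ne']
    congr 1
    ring

lemma real_inner_eq (a b : 𝕜) : ⟪a, b⟫_ℝ = RCLike.re (starRingEnd 𝕜 a * b) := by
  rw [mul_comm]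
  rfl

lemma abs_real_inner (a b : 𝕜) : |⟪a, b⟫_ℝ| ≤ ‖a‖ * ‖b‖ := abs_real_inner_le_norm a b

lemma hasDeriv_aux {Q : ℝ} (hQ : 1 < Q) (a b : 𝕜) (t : ℝ) :
    HasDerivAt (fun t : ℝ => ‖a + (t : 𝕜) * b‖ ^ Q)
      (Q * ‖a + (t : 𝕜) * b‖ ^ (Q - 2) * ⟪a + (t : 𝕜) * b, b⟫_ℝ) t := by
  have h1 : HasDerivAt (fun t : ℝ => a + (t : 𝕜) * b) b t := by
    have h : HasDerivAt (fun t : ℝ => (t : 𝕜)) 1 t := by
      have := (RCLike.ofRealCLM (K := 𝕜)).hasDerivAt (x := t)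
      simpa using this
    simpa using (h.mul_const b).const_add a
  have h2 := (hasFDerivAt_norm_rpow (a + (t : 𝕜) * b) hQ).comp_hasDerivAt t h1
  refine h2.congr_deriv ?_
  rw [smul_apply, innerSL_apply_apply, smul_eq_mul]

lemma hasDeriv_norm (hq1 : 1 < q.toReal) (hq : q ≠ ∞) (e y : Lp 𝕜 q ν) :
    HasDerivAt (fun t : ℝ => ‖e + (t : 𝕜) • y‖ ^ q.toReal)
      (∫ ω, q.toReal * ‖e ω‖ ^ (q.toReal - 2) * ⟪e ω, y ω⟫_ℝ ∂ν) 0 := by
  set Q := q.toReal with hQ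
  have hbd : Integrable (fun ω => (‖e ω‖ + ‖y ω‖) ^ Q) ν := by
    have h := ((Lp.memLp e).norm.add (Lp.memLp y).norm)
    have h2 := h.integrable_norm_rpow p_pos.ne' hq
    refine h2.congr (ae_of_all _ fun ω => ?_)
    simp only [Pi.add_apply, Real.norm_eq_abs]
    rw [abs_of_nonneg (by positivity)]
  have hmem : ∀ t : ℝ, MemLp (fun ω => e ω + (t : 𝕜) * y ω) q ν := fun t =>
    (Lp.memLp e).add ((Lp.memLp y).const_mul (t : 𝕜))
  have h := hasDerivAt_integral_of_dominated_loc_of_deriv_le (μ := ν) (𝕜 := ℝ)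
    (F := fun (t : ℝ) ω => ‖e ω + (t : 𝕜) * y ω‖ ^ Q)
    (F' := fun (t : ℝ) ω => Q * ‖e ω + (t : 𝕜) * y ω‖ ^ (Q - 2) * ⟪e ω + (t : 𝕜) * y ω, y ω⟫_ℝ)
    (bound := fun ω => Q * (‖e ω‖ + ‖y ω‖) ^ Q) (x₀ := 0) (s := Metric.ball 0 1)
    (Metric.ball_mem_nhds 0 one_pos) ?_ ?_ ?_ ?_ ?_ ?_
  · have h2 := h.2
    have e1 : (fun t : ℝ => ‖e + (t : 𝕜) • y‖ ^ Q)
        = fun t : ℝ => ∫ ω, ‖e ω + (t : 𝕜) * y ω‖ ^ Q ∂ν := by
      funext t
      rw [hQ, norm_rpow hq]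
      apply integral_congr_ae
      filter_upwards [Lp.coeFn_add e ((t : 𝕜) • y), Lp.coeFn_smul (t : 𝕜) y] with ω h1 h2
      rw [h1, Pi.add_apply, h2, Pi.smul_apply, smul_eq_mul]
    have e2 : ∫ ω, Q * ‖e ω + ((0 : ℝ) : 𝕜) * y ω‖ ^ (Q - 2) *
        ⟪e ω + ((0 : ℝ) : 𝕜) * y ω, y ω⟫_ℝ ∂ν = ∫ ω, Q * ‖e ω‖ ^ (Q - 2) * ⟪e ω, y ω⟫_ℝ ∂ν := by
      apply integral_congr_ae
      exact ae_of_all _ fun ω => by simp
    rw [e1]
    rw [e2] at h2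
    exact h2
  · exact Filter.Eventually.of_forall fun t =>
      ((hmem t).aestronglyMeasurable.norm.aemeasurable.pow_const Q).aestronglyMeasurable
  · exact (hmem 0).integrable_norm_rpow p_pos.ne' hq
  · exact ((((hmem 0).aestronglyMeasurable.norm.aemeasurable.pow_const
      (Q - 2)).aestronglyMeasurable).const_mul Q).mul
      ((hmem 0).aestronglyMeasurable.inner (Lp.memLp y).aestronglyMeasurable)
  · refine ae_of_all _ fun ω t ht => ?_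
    have ht' : |t| ≤ 1 := by
      have := (mem_ball_zero_iff.1 ht).le
      simpa using this
    have hc : ‖e ω + (t : 𝕜) * y ω‖ ≤ ‖e ω‖ + ‖y ω‖ := by
      refine (norm_add_le _ _).trans ?_
      rw [norm_mul, RCLike.norm_ofReal]
      have := mul_le_mul_of_nonneg_right ht' (norm_nonneg (y ω))
      linarith
    have hn : 0 ≤ ‖e ω + (t : 𝕜) * y ω‖ := norm_nonneg _
    set c := e ω + (t : 𝕜) * y ω with hcd
    rw [Real.norm_eq_abs, abs_mul, abs_mul, abs_of_pos (by linarith : 0 < Q),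
      abs_of_nonneg (Real.rpow_nonneg hn _), mul_assoc]
    apply mul_le_mul_of_nonneg_left _ (by linarith : 0 ≤ Q)
    calc ‖c‖ ^ (Q - 2) * |⟪c, y ω⟫_ℝ| ≤ ‖c‖ ^ (Q - 2) * (‖c‖ * ‖y ω‖) :=
          mul_le_mul_of_nonneg_left (abs_real_inner _ _) (Real.rpow_nonneg hn _)
      _ = ‖c‖ ^ (Q - 1) * ‖y ω‖ := by rw [← mul_assoc, rp hn hq1]
      _ ≤ (‖e ω‖ + ‖y ω‖) ^ (Q - 1) * (‖e ω‖ + ‖y ω‖) := by
          apply mul_le_mul (Real.rpow_le_rpow hn hc (by linarith)) _ (norm_nonneg _)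
            (by positivity)
          linarith [norm_nonneg (e ω)]
      _ = (‖e ω‖ + ‖y ω‖) ^ Q := by
          have := rp (x := ‖e ω‖ + ‖y ω‖) (Q := Q + 1) (by positivity) (by linarith)
          rw [show Q + 1 - 2 = Q - 1 by ring, show Q + 1 - 1 = Q by ring] at this
          exact this
  · exact hbd.const_mul Q
  · exact ae_of_all _ fun ω t _ => hasDeriv_aux hq1 _ _ _

/-- the norming function of `e` -/
noncomputable def nf (Q : ℝ) (e : Ω → 𝕜) : Ω → 𝕜 := fun ω =>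
  ((‖e ω‖ ^ (Q - 2) : ℝ) : 𝕜) * starRingEnd 𝕜 (e ω)

lemma norm_nf {Q : ℝ} (hQ : 1 < Q) (e : Ω → 𝕜) (ω : Ω) : ‖nf Q e ω‖ = ‖e ω‖ ^ (Q - 1) := by
  unfold nf
  rw [norm_mul, RCLike.norm_ofReal, abs_of_nonneg (by positivity), RCLike.norm_conj,
    rp (norm_nonneg _) hQ]

lemma norm_nf_rpow {Q Q' : ℝ} (hQ : 1 < Q) (hQQ : (Q - 1) * Q' = Q) (e : Ω → 𝕜) (ω : Ω) :
    ‖nf Q e ω‖ ^ Q' = ‖e ω‖ ^ Q := by
  rw [norm_nf hQ, ← Real.rpow_mul (norm_nonneg _), hQQ]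

lemma nf_memLp (hq1 : 1 < q.toReal) (hq : q ≠ ∞) {q' : ℝ≥0∞} (hq0' : q' ≠ 0) (hq' : q' ≠ ∞)
    (hQQ : (q.toReal - 1) * q'.toReal = q.toReal) (e : Lp 𝕜 q ν) :
    MemLp (nf q.toReal e) q' ν := by
  have hm : AEStronglyMeasurable (nf q.toReal e) ν := by
    unfold nf
    apply AEStronglyMeasurable.mul
    · exact RCLike.continuous_ofReal.comp_aestronglyMeasurable
        (((Lp.memLp e).aestronglyMeasurable.norm.aemeasurable.pow_const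
          (q.toReal - 2)).aestronglyMeasurable)
    · exact RCLike.continuous_conj.comp_aestronglyMeasurable (Lp.memLp e).aestronglyMeasurable
  rw [← integrable_norm_rpow_iff hm hq0' hq']
  refine (integrable_rpow hq e).congr (ae_of_all _ fun ω => ?_)
  simp only []
  rw [norm_nf_rpow hq1 hQQ]

/-- the pairing between `L_q'` and `L_q` -/
noncomputable def PT (𝕜 : Type*) [RCLike 𝕜] {Ω : Type*} [MeasurableSpace Ω] (ν : Measure Ω)
    (q' q : ℝ≥0∞) [Fact (1 ≤ q)] [Fact (1 ≤ q')] [ENNReal.HolderConjugate q' q] :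
    Lp 𝕜 q' ν →L[𝕜] Lp 𝕜 q ν →L[𝕜] 𝕜 :=
  (ContinuousLinearMap.mul 𝕜 𝕜).lpPairing ν q' q

lemma PT_apply {q' : ℝ≥0∞} [Fact (1 ≤ q')] [ENNReal.HolderConjugate q' q] (h : Lp 𝕜 q' ν)
    (y : Lp 𝕜 q ν) : PT 𝕜 ν q' q h y = ∫ ω, h ω * y ω ∂ν := by
  unfold PT
  rw [ContinuousLinearMap.lpPairing_eq_integral]
  rfl

lemma norm_PT_le {q' : ℝ≥0∞} [Fact (1 ≤ q')] [ENNReal.HolderConjugate q' q] (h : Lp 𝕜 q' ν) :
    ‖PT 𝕜 ν q' q h‖ ≤ ‖h‖ := by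
  apply ContinuousLinearMap.opNorm_le_bound _ (norm_nonneg _)
  intro y
  rw [PT_apply]
  have h1 := ContinuousLinearMap.norm_holder_apply_apply_le (r := 1)
    (ContinuousLinearMap.mul 𝕜 𝕜) h y
  have h2 : ‖(ContinuousLinearMap.mul 𝕜 𝕜).holder 1 h y‖ = ∫ ω, ‖h ω * y ω‖ ∂ν := by
    rw [L1.norm_eq_integral_norm]
    apply integral_congr_ae
    filter_upwards [(ContinuousLinearMap.mul 𝕜 𝕜).coeFn_holder (r := 1) h y] with ω h3
    rw [h3]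
    rfl
  have h4 : ‖ContinuousLinearMap.mul 𝕜 𝕜‖ ≤ 1 := ContinuousLinearMap.opNorm_mul_le 𝕜 𝕜
  calc ‖∫ ω, h ω * y ω ∂ν‖ ≤ ∫ ω, ‖h ω * y ω‖ ∂ν := norm_integral_le_integral_norm _
    _ ≤ ‖ContinuousLinearMap.mul 𝕜 𝕜‖ * ‖h‖ * ‖y‖ := h2 ▸ h1
    _ ≤ 1 * ‖h‖ * ‖y‖ := by gcongr
    _ = _ := by rw [one_mul]

/-- a norm attaining vector determines the functional -/
lemma re_eq (hq1 : 1 < q.toReal) (hq : q ≠ ∞) (g : Lp 𝕜 q ν →L[𝕜] 𝕜) {M : ℝ} (hM : 0 < M)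
    (E : Submodule 𝕜 (Lp 𝕜 q ν)) {e : Lp 𝕜 q ν} (he : e ∈ E) (he1 : ‖e‖ = 1)
    (hge : g e = (M : 𝕜)) (hgE : ∀ z ∈ E, ‖g z‖ ≤ M * ‖z‖) {y : Lp 𝕜 q ν} (hy : y ∈ E) :
    RCLike.re (g y) = M * ∫ ω, ‖e ω‖ ^ (q.toReal - 2) * ⟪e ω, y ω⟫_ℝ ∂ν := by
  set Q := q.toReal with hQ
  set γ : ℝ := RCLike.re (g y) / M with hγ
  have hd := hasDeriv_norm hq1 hq e y
  rw [← hQ] at hd
  have hd2 : HasDerivAt (fun t : ℝ => ‖e + (t : 𝕜) • y‖ ^ Q - (1 + Q * (t * γ)))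
      ((∫ ω, Q * ‖e ω‖ ^ (Q - 2) * ⟪e ω, y ω⟫_ℝ ∂ν) - Q * γ) 0 := by
    apply hd.sub
    have := (((hasDerivAt_id (0 : ℝ)).mul_const γ).const_mul Q).const_add 1
    simpa using this
  have hmin : IsLocalMin (fun t : ℝ => ‖e + (t : 𝕜) • y‖ ^ Q - (1 + Q * (t * γ))) 0 := by
    have hcont : Filter.Tendsto (fun t : ℝ => t * γ) (nhds 0) (nhds 0) := by
      have : Continuous fun t : ℝ => t * γ := by fun_prop
      simpa using this.tendsto 0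
    filter_upwards [hcont.eventually (lt_mem_nhds (show (-1 : ℝ) < 0 by norm_num))] with t ht
    have h0 : ‖e + ((0 : ℝ) : 𝕜) • y‖ ^ Q - (1 + Q * (0 * γ)) = 0 := by
      simp [he1]
    rw [h0, sub_nonneg]
    have h1 := one_add_mul_self_le_rpow_one_add ht.le hq1.le
    refine h1.trans ?_
    apply Real.rpow_le_rpow (by linarith) _ (by linarith)
    have h2 := hgE (e + (t : 𝕜) • y) (E.add_mem he (E.smul_mem _ hy))
    have h3 : M * (1 + t * γ) = RCLike.re (g (e + (t : 𝕜) • y)) := by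
      rw [map_add, map_smul, hge, map_add, RCLike.ofReal_re, smul_eq_mul, RCLike.re_ofReal_mul, hγ]
      field_simp
    have h4 := (h3.le.trans (RCLike.re_le_norm _)).trans h2
    exact le_of_mul_le_mul_left h4 hM
  have h5 := hmin.hasDerivAt_eq_zero hd2
  have h6 : ∫ ω, Q * ‖e ω‖ ^ (Q - 2) * ⟪e ω, y ω⟫_ℝ ∂ν
      = Q * ∫ ω, ‖e ω‖ ^ (Q - 2) * ⟪e ω, y ω⟫_ℝ ∂ν := by
    rw [← integral_const_mul]
    apply integral_congr_ae
    exact ae_of_all _ fun ω => by ring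
  rw [h6, ← mul_sub] at h5
  have h7 : (∫ ω, ‖e ω‖ ^ (Q - 2) * ⟪e ω, y ω⟫_ℝ ∂ν) = γ := by
    rcases mul_eq_zero.1 h5 with h | h
    · linarith
    · linarith
  rw [h7, hγ]
  field_simp

lemma norm_toLp_nf (hq1 : 1 < q.toReal) (hq : q ≠ ∞) {q' : ℝ≥0∞} [Fact (1 ≤ q')]
    (hq' : q' ≠ ∞) (hQQ : (q.toReal - 1) * q'.toReal = q.toReal) {e : Lp 𝕜 q ν} (he : ‖e‖ = 1) :
    ‖(nf_memLp hq1 hq p_pos.ne' hq' hQQ e).toLp‖ ≤ 1 := by
  set h0 := (nf_memLp hq1 hq (q' := q') p_pos.ne' hq' hQQ e).toLp with hh0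
  have h1 : ‖h0‖ ^ q'.toReal = 1 := by
    rw [norm_rpow hq']
    have h2 : ∫ ω, ‖h0 ω‖ ^ q'.toReal ∂ν = ∫ ω, ‖e ω‖ ^ q.toReal ∂ν := by
      apply integral_congr_ae
      filter_upwards [(nf_memLp hq1 hq (q' := q') p_pos.ne' hq' hQQ e).coeFn_toLp] with ω h3
      rw [hh0, h3, norm_nf_rpow hq1 hQQ]
    rw [h2, ← norm_rpow hq, he, Real.one_rpow]
  by_contra h
  push Not at h
  have := Real.one_lt_rpow h (P_pos hq')
  linarith

lemma rep (hq1 : 1 < q.toReal) (hq : q ≠ ∞) {q' : ℝ≥0∞} [Fact (1 ≤ q')]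
    [ENNReal.HolderConjugate q' q] (hq' : q' ≠ ∞)
    (hQQ : (q.toReal - 1) * q'.toReal = q.toReal) {N : ℕ} (y : Fin N → Lp 𝕜 q ν)
    (g : Lp 𝕜 q ν →L[𝕜] 𝕜) (hg : ‖g‖ ≤ 1) :
    ∃ h : Lp 𝕜 q' ν, ‖h‖ ≤ 1 ∧ ∀ j, PT 𝕜 ν q' q h (y j) = g (y j) := by
  set E := Submodule.span 𝕜 (Set.range y) with hE
  have : FiniteDimensional 𝕜 E := FiniteDimensional.span_of_finite 𝕜 (Set.finite_range y)
  have : ProperSpace E := FiniteDimensional.proper_rclike 𝕜 E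
  have hcont : Continuous fun z : E => ‖g z‖ := by fun_prop
  obtain ⟨e0, he0, hmax⟩ := (isCompact_closedBall (0 : E) 1).exists_isMaxOn ⟨0, by simp⟩
    hcont.continuousOn
  set M := ‖g e0‖ with hMd
  have hle : ∀ z ∈ E, ‖g z‖ ≤ M * ‖z‖ := by
    intro z hz
    by_cases h0 : z = 0
    · subst h0; simp
    have hz0 : 0 < ‖z‖ := norm_pos_iff.2 h0
    have hz1 : (((‖z‖⁻¹ : ℝ) : 𝕜) • (⟨z, hz⟩ : E)) ∈ Metric.closedBall (0 : E) 1 := by
      rw [mem_closedBall_zero_iff, norm_smul, RCLike.norm_ofReal, abs_of_nonneg (by positivity)]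
      exact (inv_mul_cancel₀ hz0.ne').le
    have h1 := hmax hz1
    simp only [Set.mem_ofPred_eq, Submodule.coe_smul, map_smul, norm_smul, RCLike.norm_ofReal] at h1
    rw [abs_of_nonneg (by positivity), inv_mul_le_iff₀ hz0] at h1
    linarith
  have hM0 : 0 ≤ M := norm_nonneg _
  rcases hM0.eq_or_lt with hM | hM
  · refine ⟨0, by simp, fun j => ?_⟩
    have h1 := hle (y j) (Submodule.subset_span ⟨j, rfl⟩)
    rw [← hM, zero_mul] at h1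
    rw [norm_le_zero_iff.1 h1]
    simp
  have he0n : ‖(e0 : Lp 𝕜 q ν)‖ ≤ 1 := by
    have := mem_closedBall_zero_iff.1 he0
    exact this
  have he0n' : ‖(e0 : Lp 𝕜 q ν)‖ = 1 := by
    apply le_antisymm he0n
    have h1 := hle e0 e0.2
    rw [← hMd] at h1
    by_contra h
    push Not at h
    nlinarith
  have hM1 : M ≤ 1 := by
    have h1 := g.le_of_opNorm_le hg e0
    rw [he0n', one_mul] at h1
    exact h1
  set c : 𝕜 := starRingEnd 𝕜 (g e0) / (M : 𝕜) with hc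
  have hMk : (M : 𝕜) ≠ 0 := RCLike.ofReal_ne_zero.2 hM.ne'
  have hcn : ‖c‖ = 1 := by
    rw [hc, norm_div, RCLike.norm_conj, RCLike.norm_ofReal, abs_of_pos hM, ← hMd,
      div_self hM.ne']
  have heE : c • (e0 : Lp 𝕜 q ν) ∈ E := E.smul_mem _ e0.2
  have he1 : ‖c • (e0 : Lp 𝕜 q ν)‖ = 1 := by rw [norm_smul, hcn, he0n', one_mul]
  have hge : g (c • (e0 : Lp 𝕜 q ν)) = (M : 𝕜) := by
    rw [map_smul, smul_eq_mul, hc, div_mul_eq_mul_div, RCLike.conj_mul, ← hMd, sq,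
      mul_div_assoc, div_self hMk, mul_one]
  set e := c • (e0 : Lp 𝕜 q ν) with hed
  set h0 := (nf_memLp hq1 hq (q' := q') p_pos.ne' hq' hQQ e).toLp with hh0
  have hn0 : ‖h0‖ ≤ 1 := norm_toLp_nf hq1 hq hq' hQQ he1
  have key : ∀ z ∈ E, RCLike.re (PT 𝕜 ν q' q ((M : 𝕜) • h0) z) = RCLike.re (g z) := by
    intro z hz
    rw [re_eq hq1 hq g hM E heE he1 hge hle hz, map_smul, smul_apply, smul_eq_mul,
      RCLike.re_ofReal_mul, PT_apply]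
    congr 1
    have hint : Integrable (fun ω => h0 ω * z ω) ν := (Lp.memLp h0).integrable_mul (Lp.memLp z)
    rw [← integral_re hint]
    apply integral_congr_ae
    filter_upwards [(nf_memLp hq1 hq (q' := q') p_pos.ne' hq' hQQ e).coeFn_toLp] with ω h3
    rw [hh0, h3, nf, mul_assoc, RCLike.re_ofReal_mul, real_inner_eq]
  refine ⟨(M : 𝕜) • h0, ?_, fun j => ?_⟩
  · rw [norm_smul, RCLike.norm_ofReal, abs_of_pos hM]
    exact mul_le_one₀ hM1 (norm_nonneg _) hn0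
  · have hyE : y j ∈ E := Submodule.subset_span ⟨j, rfl⟩
    apply RCLike.ext
    · exact key _ hyE
    · have h1 := key _ (E.smul_mem (RCLike.I : 𝕜) hyE)
      have a1 : PT 𝕜 ν q' q ((M : 𝕜) • h0) ((RCLike.I : 𝕜) • y j)
          = RCLike.I * PT 𝕜 ν q' q ((M : 𝕜) • h0) (y j) := by rw [map_smul, smul_eq_mul]
      have a2 : g ((RCLike.I : 𝕜) • y j) = RCLike.I * g (y j) := by rw [map_smul, smul_eq_mul]
      rw [a1, a2, RCLike.I_mul_re, RCLike.I_mul_re] at h1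
      linarith

/-- **The codomain condition for `L_q(ν)`, `1 < q < ∞`.** -/
theorem cod_Lp_aux (hq1 : 1 < q.toReal) (hq : q ≠ ∞) (N : ℕ) :
    Cod 𝕜 (Lp 𝕜 q ν) N ((N : ℝ) ^ |1 / 2 - 1 / q.toReal|) := by
  set Q := q.toReal with hQ
  have hc : Real.HolderConjugate (Real.conjExponent Q) Q :=
    (Real.HolderConjugate.conjExponent hq1).symm
  have hQ' : Real.conjExponent Q = Q / (Q - 1) := rfl
  have hQ1 : 0 < Q - 1 := by linarith
  have hQ'1 : 1 ≤ Q / (Q - 1) := by rw [le_div_iff₀ hQ1]; linarith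
  have hcE := hc.ennrealOfReal
  rw [hQ', hQ, ENNReal.ofReal_toReal hq, ← hQ] at hcE
  have : ENNReal.HolderConjugate (ENNReal.ofReal (Q / (Q - 1))) q := hcE
  have : Fact (1 ≤ ENNReal.ofReal (Q / (Q - 1))) := ⟨by
    rw [← ENNReal.ofReal_one]
    exact ENNReal.ofReal_le_ofReal hQ'1⟩
  have htr : (ENNReal.ofReal (Q / (Q - 1))).toReal = Q / (Q - 1) :=
    ENNReal.toReal_ofReal (by linarith)
  have hD := dom_Lp (𝕜 := 𝕜) (μ := ν) (p := ENNReal.ofReal (Q / (Q - 1))) ENNReal.ofReal_ne_top N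
  rw [htr] at hD
  have he : |1 / 2 - 1 / (Q / (Q - 1))| = |1 / 2 - 1 / Q| := by
    rw [← abs_neg]
    congr 1
    field_simp
    ring
  rw [he] at hD
  refine cod_of_pairing (PT 𝕜 ν (ENNReal.ofReal (Q / (Q - 1))) q) norm_PT_le ?_ hD
  intro y g hg
  refine rep hq1 hq ENNReal.ofReal_ne_top ?_ y g hg
  rw [htr, ← hQ]
  field_simp

variable (𝕜 ν) in
/-- **The domain condition for `L_p(μ)`, `1 ≤ p ≤ ∞`** (with `1 / ∞ = 0`). -/
theorem dom_Lp_all (q : ℝ≥0∞) [Fact (1 ≤ q)] (N : ℕ) :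
    Dom 𝕜 (Lp 𝕜 q ν) N ((N : ℝ) ^ |1 / 2 - 1 / q.toReal|) := by
  by_cases hq : q = ∞
  · have h : (N : ℝ) ^ |1 / 2 - 1 / q.toReal| = Real.sqrt N := by
      rw [hq, ENNReal.toReal_top, div_zero, sub_zero, abs_of_pos (by norm_num), Real.sqrt_eq_rpow]
    rw [h]
    exact dom_sqrt 𝕜 _ N
  · exact dom_Lp hq N

variable (𝕜 ν) in
/-- **The codomain condition for `L_q(ν)`, `1 ≤ q ≤ ∞`** (with `1 / ∞ = 0`). -/
theorem cod_Lp_all (q : ℝ≥0∞) [Fact (1 ≤ q)] (N : ℕ) :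
    Cod 𝕜 (Lp 𝕜 q ν) N ((N : ℝ) ^ |1 / 2 - 1 / q.toReal|) := by
  by_cases hq : q = ∞
  · have h : (N : ℝ) ^ |1 / 2 - 1 / q.toReal| = Real.sqrt N := by
      rw [hq, ENNReal.toReal_top, div_zero, sub_zero, abs_of_pos (by norm_num), Real.sqrt_eq_rpow]
    rw [h]
    exact cod_sqrt 𝕜 _ N
  · have h1 : 1 ≤ q.toReal := by
      rw [← ENNReal.toReal_one]
      exact ENNReal.toReal_mono hq Fact.out
    rcases h1.eq_or_lt with h | h
    · have h2 : (N : ℝ) ^ |1 / 2 - 1 / q.toReal| = Real.sqrt N := by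
        rw [← h, show (1 : ℝ) / 2 - 1 / 1 = -(1 / 2) by norm_num, abs_neg,
          abs_of_pos (by norm_num), Real.sqrt_eq_rpow]
      rw [h2]
      exact cod_sqrt 𝕜 _ N
    · exact cod_Lp_aux h hq N

end Rep

end Pool.Agent.KS6_50.HB
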