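import Pool.Agent.KS6_50.HB.Lpx

set_option autoImplicit false
set_option linter.unusedSectionVars false

/-!
The change of density argument: at a near-maximal system all directions have small `L_p` norm.
-/

open MeasureTheory
open scoped InnerProductSpace ENNReal

namespace Pool.Agent.KS6_50.HB

open Pool.Agent.Results.MP_69de12_an.HilbertBound

variable {𝕜 : Type*} [RCLike 𝕜] {Ω : Type*} [MeasurableSpace Ω] {μ : Measure Ω} {p : ℝ≥0∞}
  [Fact (1 ≤ p)] {N : ℕ}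

/-- the relative size of the component in the direction `ξ` -/
noncomputable def uu (ξ v : EE 𝕜 N) : ℝ := ‖⟪ξ, v⟫_𝕜‖ ^ 2 / ‖v‖ ^ 2

lemma uu_nonneg (ξ v : EE 𝕜 N) : 0 ≤ uu ξ v := by unfold uu; positivity

lemma uu_le {ξ : EE 𝕜 N} (hξ : ‖ξ‖ = 1) (v : EE 𝕜 N) : uu ξ v ≤ 1 := by
  unfold uu
  apply div_le_one_of_le₀ _ (by positivity)
  have := norm_inner_le_norm (𝕜 := 𝕜) ξ v
  rw [hξ, one_mul] at this
  exact pow_le_pow_left₀ (norm_nonneg _) this 2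

lemma uu_mul (ξ v : EE 𝕜 N) : ‖v‖ ^ 2 * uu ξ v = ‖⟪ξ, v⟫_𝕜‖ ^ 2 := by
  unfold uu
  by_cases h : v = 0
  · subst h; simp
  · have : ‖v‖ ≠ 0 := norm_ne_zero_iff.2 h
    field_simp

lemma rpow_half {x P : ℝ} (hx : 0 ≤ x) : x ^ P = (x ^ 2) ^ (P / 2) := by
  rw [← Real.rpow_natCast x 2, ← Real.rpow_mul hx]
  congr 1
  push_cast
  ring

lemma inner_rpow (ξ v : EE 𝕜 N) (P : ℝ) :
    ‖⟪ξ, v⟫_𝕜‖ ^ P = ‖v‖ ^ P * uu ξ v ^ (P / 2) := by
  rw [rpow_half (norm_nonneg _), ← uu_mul, Real.mul_rpow (by positivity) (uu_nonneg _ _),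
    ← rpow_half (norm_nonneg _)]

lemma Bop_rpow {ξ : EE 𝕜 N} (hξ : ‖ξ‖ = 1) {σ : ℝ} (h0 : 0 ≤ σ) (h1 : σ < 1) (v : EE 𝕜 N) (P : ℝ) :
    ‖Bop ξ (Real.sqrt (1 - σ)) v‖ ^ P = ‖v‖ ^ P * (1 - σ * uu ξ v) ^ (P / 2) := by
  have h2 : Real.sqrt (1 - σ) ^ 2 = 1 - σ := Real.sq_sqrt (by linarith)
  have h3 := uu_le hξ v
  have h4 := uu_nonneg ξ v
  rw [rpow_half (norm_nonneg _), norm_Bop hξ, h2, ← uu_mul,
    show ‖v‖ ^ 2 - (1 - (1 - σ)) * (‖v‖ ^ 2 * uu ξ v) = ‖v‖ ^ 2 * (1 - σ * uu ξ v) by ring,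
    Real.mul_rpow (by positivity) (by nlinarith), ← rpow_half (norm_nonneg _)]

section

variable (hp : p ≠ ∞) (f : Lp (EE 𝕜 N) p μ)

lemma aesm_uu (ξ : EE 𝕜 N) : AEStronglyMeasurable (fun ω => uu ξ (f ω)) μ := by
  have hf := Lp.aestronglyMeasurable f
  have h1 : AEStronglyMeasurable (fun ω => ‖⟪ξ, f ω⟫_𝕜‖ ^ 2) μ := by
    have h := (innerSL 𝕜 ξ).continuous.comp_aestronglyMeasurable hf
    exact h.norm.pow 2
  have h2 : AEStronglyMeasurable (fun ω => ‖f ω‖ ^ 2) μ := hf.norm.pow 2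
  exact (h1.aemeasurable.div h2.aemeasurable).aestronglyMeasurable

include hp in
/-- a bounded factor does not destroy integrability -/
lemma integrable_mul {h : Ω → ℝ} (hm : AEStronglyMeasurable h μ) (h0 : ∀ ω, 0 ≤ h ω)
    (h1 : ∀ ω, h ω ≤ 1) : Integrable (fun ω => ‖f ω‖ ^ p.toReal * h ω) μ := by
  have hi := integrable_rpow hp f
  apply hi.mono (hi.aestronglyMeasurable.mul hm)
  filter_upwards with ω
  have h2 : 0 ≤ ‖f ω‖ ^ p.toReal := Real.rpow_nonneg (norm_nonneg _) _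
  change ‖‖f ω‖ ^ p.toReal * h ω‖ ≤ _
  rw [Real.norm_of_nonneg (mul_nonneg h2 (h0 ω)), Real.norm_of_nonneg h2]
  exact mul_le_of_le_one_right h2 (h1 ω)

include hp in
lemma integrable_uu {ξ : EE 𝕜 N} (hξ : ‖ξ‖ = 1) :
    Integrable (fun ω => ‖f ω‖ ^ p.toReal * uu ξ (f ω)) μ :=
  integrable_mul hp f (aesm_uu f ξ) (fun _ => uu_nonneg _ _) fun _ => uu_le hξ _

include hp in
lemma integrable_uu_rpow {ξ : EE 𝕜 N} (hξ : ‖ξ‖ = 1) {s : ℝ} (hs : 0 < s) :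
    Integrable (fun ω => ‖f ω‖ ^ p.toReal * uu ξ (f ω) ^ s) μ := by
  refine integrable_mul hp f ?_ (fun ω => Real.rpow_nonneg (uu_nonneg _ _) _)
    fun ω => Real.rpow_le_one (uu_nonneg _ _) (uu_le hξ _) hs.le
  exact ((aesm_uu f ξ).aemeasurable.pow_const s).aestronglyMeasurable

include hp in
/-- the norm of the component in the direction `ξ` -/
lemma norm_cx (ξ : EE 𝕜 N) : ‖(innerSL 𝕜 ξ).compLp f‖ ^ p.toReal
    = ∫ ω, ‖f ω‖ ^ p.toReal * uu ξ (f ω) ^ (p.toReal / 2) ∂μ := by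
  rw [norm_rpow hp]
  apply integral_congr_ae
  filter_upwards [(innerSL 𝕜 ξ).coeFn_compLp f] with ω h
  rw [h, innerSL_apply_apply, inner_rpow]

include hp in
/-- the norm of the shrunken function -/
lemma norm_Bf {ξ : EE 𝕜 N} (hξ : ‖ξ‖ = 1) {σ : ℝ} (h0 : 0 ≤ σ) (h1 : σ < 1) :
    ‖(Bop ξ (Real.sqrt (1 - σ))).compLp f‖ ^ p.toReal
      = ∫ ω, ‖f ω‖ ^ p.toReal * (1 - σ * uu ξ (f ω)) ^ (p.toReal / 2) ∂μ := by
  rw [norm_rpow hp]
  apply integral_congr_ae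
  filter_upwards [(Bop ξ (Real.sqrt (1 - σ))).coeFn_compLp f] with ω h
  rw [h, Bop_rpow hξ h0 h1]

include hp in
lemma norm_Bf_le {ξ : EE 𝕜 N} (hξ : ‖ξ‖ = 1) {σ : ℝ} (h0 : 0 ≤ σ) (h1 : σ < 1) :
    ‖(Bop ξ (Real.sqrt (1 - σ))).compLp f‖ ^ p.toReal
      ≤ ‖f‖ ^ p.toReal - p.toReal / 2 * σ * (∫ ω, ‖f ω‖ ^ p.toReal * uu ξ (f ω) ∂μ)
        + (p.toReal / 2 * σ) ^ 2 / 2 * (∫ ω, ‖f ω‖ ^ p.toReal * uu ξ (f ω) ∂μ) := by
  have hP := P_pos (p := p) hp
  have hia := integrable_rpow hp f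
  have hib := integrable_uu hp f hξ
  set c1 := p.toReal / 2 * σ with hc1
  have hi1 : Integrable (fun ω => ‖f ω‖ ^ p.toReal - c1 * (‖f ω‖ ^ p.toReal * uu ξ (f ω))) μ :=
    hia.sub (hib.const_mul c1)
  have hi2 : Integrable (fun ω => c1 ^ 2 / 2 * (‖f ω‖ ^ p.toReal * uu ξ (f ω))) μ :=
    hib.const_mul _
  have hi3 : Integrable (fun ω => ‖f ω‖ ^ p.toReal - c1 * (‖f ω‖ ^ p.toReal * uu ξ (f ω))
      + c1 ^ 2 / 2 * (‖f ω‖ ^ p.toReal * uu ξ (f ω))) μ := hi1.add hi2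
  have e : ∫ ω, (‖f ω‖ ^ p.toReal - c1 * (‖f ω‖ ^ p.toReal * uu ξ (f ω))
      + c1 ^ 2 / 2 * (‖f ω‖ ^ p.toReal * uu ξ (f ω))) ∂μ
      = ‖f‖ ^ p.toReal - c1 * (∫ ω, ‖f ω‖ ^ p.toReal * uu ξ (f ω) ∂μ)
        + c1 ^ 2 / 2 * (∫ ω, ‖f ω‖ ^ p.toReal * uu ξ (f ω) ∂μ) := by
    rw [integral_add hi1 hi2, integral_sub hia (hib.const_mul c1), integral_const_mul,
      integral_const_mul, norm_rpow hp f]
  rw [← e, norm_Bf hp f hξ h0 h1]
  apply integral_mono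
  · refine integrable_mul hp f ?_ ?_ ?_
    · have hm : AEMeasurable (fun ω => 1 - σ * uu ξ (f ω)) μ :=
        ((aesm_uu f ξ).aemeasurable.const_mul σ).const_sub 1
      exact (hm.pow_const _).aestronglyMeasurable
    · intro ω
      apply Real.rpow_nonneg
      have := uu_le hξ (f ω)
      have := uu_nonneg ξ (f ω)
      nlinarith
    · intro ω
      have h2 := uu_le hξ (f ω)
      have h3 := uu_nonneg ξ (f ω)
      apply Real.rpow_le_one (by nlinarith) (by nlinarith) (by positivity)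
  · exact hi3
  · intro ω
    have h2 := uu_le hξ (f ω)
    have h3 := uu_nonneg ξ (f ω)
    have h4 := pow_upper h0 h1 h3 h2 (show 0 < p.toReal / 2 by positivity)
    have h5 : 0 ≤ ‖f ω‖ ^ p.toReal := Real.rpow_nonneg (norm_nonneg _) _
    have h6 := mul_le_mul_of_nonneg_left h4 h5
    have h7 : p.toReal / 2 * σ = c1 := rfl
    rw [h7] at h6
    simp only
    linarith

include hp in
/-- the bound for the component in the direction `ξ` -/
theorem cx_bound (hN : 0 < N) {ξ : EE 𝕜 N} (hξ : ‖ξ‖ = 1) {σ : ℝ} (h0 : 0 < σ) (h1 : σ < 1)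
    (h2 : p.toReal / 2 * σ < 2)
    (hmax : (1 - σ ^ 2) * Real.sqrt (1 - σ) * ‖f‖ ^ N
      ≤ ‖(Bop ξ (Real.sqrt (1 - σ))).compLp f‖ ^ N) :
    ‖(innerSL 𝕜 ξ).compLp f‖ ≤ ‖f‖ * (kap (p.toReal / 2) σ / N) ^ (min (1 / 2) (1 / p.toReal)) := by
  set P := p.toReal with hPd
  have hP : 0 < P := P_pos (p := p) hp
  set s := P / 2 with hs
  have hs0 : 0 < s := by positivity
  have hNr : (0 : ℝ) < N := by exact_mod_cast hN
  have hσ2 : σ ^ 2 < 1 := by nlinarith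
  set A := ‖f‖ ^ P with hA
  have hA0 : 0 ≤ A := Real.rpow_nonneg (norm_nonneg _) _
  set I := ∫ ω, ‖f ω‖ ^ P * uu ξ (f ω) ∂μ with hI
  have hI0 : 0 ≤ I := integral_nonneg fun ω =>
    mul_nonneg (Real.rpow_nonneg (norm_nonneg _) _) (uu_nonneg _ _)
  set Bf := (Bop ξ (Real.sqrt (1 - σ))).compLp f with hBf
  -- lower bound
  have hlow : A * ((1 - σ ^ 2) ^ (2 * (s / N)) * (1 - σ) ^ (s / N)) ≤ ‖Bf‖ ^ P := by
    have hc0 : 0 ≤ (1 - σ ^ 2) * Real.sqrt (1 - σ) := mul_nonneg (by linarith) (Real.sqrt_nonneg _)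
    have h3 := Real.rpow_le_rpow (mul_nonneg hc0 (by positivity)) hmax
      (show 0 ≤ P / N by positivity)
    have e1 : (‖Bf‖ ^ N) ^ (P / N) = ‖Bf‖ ^ P := by
      rw [← Real.rpow_natCast, ← Real.rpow_mul (norm_nonneg _)]
      congr 1
      field_simp
    have e2 : (‖f‖ ^ N) ^ (P / N) = A := by
      rw [← Real.rpow_natCast, ← Real.rpow_mul (norm_nonneg _), hA]
      congr 1
      field_simp
    have e3 : ((1 - σ ^ 2) * Real.sqrt (1 - σ)) ^ (P / N)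
        = (1 - σ ^ 2) ^ (2 * (s / N)) * (1 - σ) ^ (s / N) := by
      rw [Real.mul_rpow (by linarith) (Real.sqrt_nonneg _), Real.sqrt_eq_rpow,
        ← Real.rpow_mul (by linarith)]
      congr 2
      · rw [hs]; ring
      · rw [hs]; ring
    rw [Real.mul_rpow hc0 (by positivity), e1, e2, e3] at h3
    linarith
  have hup := hlow.trans (norm_Bf_le hp f hξ h0.le h1)
  have hIb : I ≤ A * (kap s σ / N) := dens_bound hN hA0 hs0 h0 h1 h2 hup
  have hk := kap_pos h0 h1 h2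
  set lam := kap s σ / N with hlam
  have hlam0 : 0 < lam := by positivity
  -- the integral for the component
  have hcx : ‖(innerSL 𝕜 ξ).compLp f‖ ^ P ≤ A * lam ^ (min 1 s) := by
    rw [norm_cx hp f ξ]
    change ∫ ω, ‖f ω‖ ^ P * uu ξ (f ω) ^ s ∂μ ≤ _
    rcases le_total 1 s with h | h
    · rw [min_eq_left h, Real.rpow_one]
      refine le_trans ?_ hIb
      apply integral_mono (integrable_uu_rpow hp f hξ hs0) (integrable_uu hp f hξ)
      intro ω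
      apply mul_le_mul_of_nonneg_left _ (Real.rpow_nonneg (norm_nonneg _) _)
      exact Real.rpow_le_self_of_le_one (uu_nonneg _ _) (uu_le hξ _) h
    · rw [min_eq_right h]
      have h3 : (∫ ω, ‖f ω‖ ^ P * uu ξ (f ω) ^ s ∂μ) * lam ^ (1 - s)
          ≤ s * I + (1 - s) * lam * A := by
        rw [← integral_mul_const, hA, norm_rpow hp f, hI, ← integral_const_mul,
          ← integral_const_mul, ← integral_add ((integrable_uu hp f hξ).const_mul _)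
            ((integrable_rpow hp f).const_mul _)]
        apply integral_mono ((integrable_uu_rpow hp f hξ hs0).mul_const _)
          (((integrable_uu hp f hξ).const_mul _).add ((integrable_rpow hp f).const_mul _))
        intro ω
        have h4 := pow_small (uu_nonneg ξ (f ω)) hlam0 hs0 h
        have h5 : 0 ≤ ‖f ω‖ ^ P := Real.rpow_nonneg (norm_nonneg _) _
        have h6 := mul_le_mul_of_nonneg_left h4 h5
        change ‖f ω‖ ^ P * uu ξ (f ω) ^ s * lam ^ (1 - s)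
          ≤ s * (‖f ω‖ ^ P * uu ξ (f ω)) + (1 - s) * lam * ‖f ω‖ ^ P
        linarith
      have h4 : s * I + (1 - s) * lam * A ≤ lam * A := by
        have := mul_le_mul_of_nonneg_left hIb hs0.le
        nlinarith
      have h5 : lam * A = A * lam ^ s * lam ^ (1 - s) := by
        rw [mul_assoc, ← Real.rpow_add hlam0, add_sub_cancel, Real.rpow_one, mul_comm]
      have h6 := h3.trans h4
      rw [h5] at h6
      exact le_of_mul_le_mul_right h6 (Real.rpow_pos_of_pos hlam0 _)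
  -- the root
  have h7 := Real.rpow_le_rpow (Real.rpow_nonneg (norm_nonneg _) _) hcx
    (show 0 ≤ P⁻¹ by positivity)
  rw [Real.rpow_rpow_inv (norm_nonneg _) hP.ne',
    Real.mul_rpow hA0 (Real.rpow_nonneg hlam0.le _), hA,
    Real.rpow_rpow_inv (norm_nonneg _) hP.ne', ← Real.rpow_mul hlam0.le] at h7
  have h8 : min 1 s * P⁻¹ = min (1 / 2) (1 / P) := by
    have e1 : s * P⁻¹ = 1 / 2 := by rw [hs]; field_simp
    have e2 : 1 * P⁻¹ = 1 / P := by ring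
    rw [min_mul_of_nonneg _ _ (by positivity : (0:ℝ) ≤ P⁻¹), e1, e2, min_comm]
  rw [h8] at h7
  exact h7

end

end Pool.Agent.KS6_50.HB
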