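import Pool.Agent.KS6_50.HB.Lewis

set_option autoImplicit false
set_option linter.unusedSectionVars false

/-!
The domain condition for `L_p` spaces, part 2.
-/

open MeasureTheory
open scoped InnerProductSpace ENNReal

namespace Pool.Agent.KS6_50.HB

open Pool.Agent.Results.MP_69de12_an.HilbertBound

variable {𝕜 : Type*} [RCLike 𝕜] {Ω : Type*} [MeasurableSpace Ω] {μ : Measure Ω} {p : ℝ≥0∞}
  [Fact (1 ≤ p)] {N : ℕ}

/-- the functions with coordinates in `Z` -/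
def In (Z : Submodule 𝕜 (Lp 𝕜 p μ)) (f : Lp (EE 𝕜 N) p μ) : Prop := ∀ j, co f j ∈ Z

/-- the values of the determinant on the unit ball -/
def Mset (Z : Submodule 𝕜 (Lp 𝕜 p μ)) (φ : Fin N → Lp 𝕜 p μ →L[𝕜] 𝕜) : Set ℝ :=
  {r | ∃ f : Lp (EE 𝕜 N) p μ, ‖f‖ ≤ 1 ∧ In Z f ∧ r = ‖dt φ f‖}

/-- the supremum of the determinant on the unit ball -/
noncomputable def MM (Z : Submodule 𝕜 (Lp 𝕜 p μ)) (φ : Fin N → Lp 𝕜 p μ →L[𝕜] 𝕜) : ℝ :=
  sSup (Mset Z φ)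

section

variable {Z : Submodule 𝕜 (Lp 𝕜 p μ)} {φ : Fin N → Lp 𝕜 p μ →L[𝕜] 𝕜} {B : ℝ}
  (hB : ∀ x : Fin N → Lp 𝕜 p μ, (∀ j, x j ∈ Z) → AdmX 𝕜 x →
    ‖(Matrix.of fun i j => φ i (x j)).det‖ ≤ B)

lemma In_zero : In Z (0 : Lp (EE 𝕜 N) p μ) := by
  intro j
  have : co (0 : Lp (EE 𝕜 N) p μ) j = 0 := map_zero ((pr 𝕜 j).compLpL p μ)
  rw [this]
  exact Z.zero_mem

lemma In_smul {f : Lp (EE 𝕜 N) p μ} (hf : In Z f) (c : 𝕜) : In Z (c • f) := by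
  intro j
  unfold co
  rw [compLp_smul]
  exact Z.smul_mem c (hf j)

lemma In_B {f : Lp (EE 𝕜 N) p μ} (hf : In Z f) (ξ : EE 𝕜 N) (τ : ℝ) :
    In Z ((Bop ξ τ).compLp f) := by
  intro j
  rw [co_B]
  exact Z.add_mem (hf j) (Z.smul_mem _ (Z.sum_mem fun k _ => Z.smul_mem _ (hf k)))

include hB in
lemma Mset_bdd : BddAbove (Mset Z φ) := by
  refine ⟨Real.sqrt N ^ N * B, ?_⟩
  rintro _ ⟨f, hf, hZ, rfl⟩
  have h := hB _ (fun j => Z.smul_mem _ (hZ j))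
    (admX_unit (𝕜 := 𝕜) (z := co f) fun j => (norm_co_le f j).trans hf)
  have h2 := det_scale φ (co f) (((Real.sqrt N)⁻¹ : ℝ) : 𝕜) 1
  simp only [one_smul, one_mul] at h2
  rw [h2, norm_mul, norm_pow, RCLike.norm_ofReal, abs_of_nonneg (by positivity)] at h
  rcases Nat.eq_zero_or_pos N with h0 | h0
  · subst h0; simpa [dt] using h
  have hN : (0 : ℝ) < N := by exact_mod_cast h0
  have hs : 0 < Real.sqrt N := Real.sqrt_pos.2 hN
  rw [inv_pow, inv_mul_le_iff₀ (by positivity)] at h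
  exact h

include hB in
lemma le_MM {f : Lp (EE 𝕜 N) p μ} (hf : ‖f‖ ≤ 1) (hZ : In Z f) : ‖dt φ f‖ ≤ MM Z φ :=
  le_csSup (Mset_bdd hB) ⟨f, hf, hZ, rfl⟩

include hB in
lemma MM_nonneg : 0 ≤ MM Z φ := (norm_nonneg _).trans (le_MM hB (f := 0) (by simp) In_zero)

include hB in
lemma dt_le (hN : 0 < N) {f : Lp (EE 𝕜 N) p μ} (hZ : In Z f) :
    ‖dt φ f‖ ≤ MM Z φ * ‖f‖ ^ N := by
  by_cases h0 : f = 0
  · subst h0
    have h1 := dt_smul φ 0 (0 : Lp (EE 𝕜 N) p μ)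
    rw [smul_zero, zero_pow hN.ne', zero_mul] at h1
    rw [h1, norm_zero]
    exact mul_nonneg (MM_nonneg hB) (by positivity)
  · have hn : 0 < ‖f‖ := norm_pos_iff.2 h0
    have h1 := le_MM hB (f := ((‖f‖⁻¹ : ℝ) : 𝕜) • f) (by
      rw [norm_smul, RCLike.norm_ofReal, abs_of_nonneg (by positivity), inv_mul_cancel₀ hn.ne'])
      (In_smul hZ _)
    rw [dt_smul, norm_mul, norm_pow, RCLike.norm_ofReal, abs_of_nonneg (by positivity), inv_pow,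
      inv_mul_le_iff₀ (by positivity)] at h1
    linarith

include hB in
/-- near-maximal systems have small components -/
lemma MM_le (hp : p ≠ ∞) (hN : 0 < N) {σ : ℝ} (h0 : 0 < σ) (h1 : σ < 1)
    (h2 : p.toReal / 2 * σ < 2) :
    (1 - σ ^ 2) * MM Z φ ≤
      ((kap (p.toReal / 2) σ / N) ^ (min (1 / 2) (1 / p.toReal))) ^ N * B := by
  have hB0 : 0 ≤ B := (norm_nonneg _).trans
    (hB 0 (fun _ => Z.zero_mem) (fun ξ => by simp; positivity))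
  have hNr : (0 : ℝ) < N := by exact_mod_cast hN
  have hk := kap_pos h0 h1 h2
  set K := (kap (p.toReal / 2) σ / N) ^ (min (1 / 2) (1 / p.toReal)) with hK
  have hK0 : 0 < K := Real.rpow_pos_of_pos (by positivity) _
  have hσ2 : σ ^ 2 < 1 := by nlinarith
  rcases (MM_nonneg hB).eq_or_lt with h | hM
  · rw [← h, mul_zero]; positivity
  have hlt : (1 - σ ^ 2) * MM Z φ < MM Z φ := by
    have : 0 < σ ^ 2 := by positivity
    nlinarith
  have hne : (Mset Z φ).Nonempty := ⟨‖dt φ 0‖, 0, by simp, In_zero, rfl⟩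
  obtain ⟨_, ⟨f, hf, hZ, rfl⟩, hfM⟩ := exists_lt_of_lt_csSup hne hlt
  have hcx : ∀ ξ : EE 𝕜 N, ‖ξ‖ = 1 → ‖(innerSL 𝕜 ξ).compLp f‖ ≤ K := by
    intro ξ hξ
    have hmax : (1 - σ ^ 2) * Real.sqrt (1 - σ) * ‖f‖ ^ N
        ≤ ‖(Bop ξ (Real.sqrt (1 - σ))).compLp f‖ ^ N := by
      have e1 := dt_le hB hN (In_B hZ ξ (Real.sqrt (1 - σ)))
      rw [dt_B φ hξ, norm_mul, RCLike.norm_ofReal, abs_of_nonneg (Real.sqrt_nonneg _)] at e1
      have e2 : ‖f‖ ^ N ≤ 1 := pow_le_one₀ (norm_nonneg _) hf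
      have e3 : Real.sqrt (1 - σ) * ((1 - σ ^ 2) * MM Z φ) ≤ Real.sqrt (1 - σ) * ‖dt φ f‖ :=
        mul_le_mul_of_nonneg_left hfM.le (Real.sqrt_nonneg _)
      have e4 : MM Z φ * ((1 - σ ^ 2) * Real.sqrt (1 - σ) * ‖f‖ ^ N)
          ≤ MM Z φ * ‖(Bop ξ (Real.sqrt (1 - σ))).compLp f‖ ^ N := by
        have e5 : MM Z φ * ((1 - σ ^ 2) * Real.sqrt (1 - σ)) * ‖f‖ ^ N
            ≤ MM Z φ * ((1 - σ ^ 2) * Real.sqrt (1 - σ)) * 1 :=
          mul_le_mul_of_nonneg_left e2 (mul_nonneg hM.le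
            (mul_nonneg (by linarith) (Real.sqrt_nonneg _)))
        calc MM Z φ * ((1 - σ ^ 2) * Real.sqrt (1 - σ) * ‖f‖ ^ N)
            = MM Z φ * ((1 - σ ^ 2) * Real.sqrt (1 - σ)) * ‖f‖ ^ N := by ring
          _ ≤ _ := e5
          _ = Real.sqrt (1 - σ) * ((1 - σ ^ 2) * MM Z φ) := by ring
          _ ≤ _ := e3.trans e1
      exact le_of_mul_le_mul_left e4 hM
    refine (cx_bound hp f hN hξ h0 h1 h2 hmax).trans ?_
    exact mul_le_of_le_one_left hK0.le hf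
  have hadm := hB _ (fun j => Z.smul_mem _ (hZ j)) (admX_co f hK0 hcx)
  have h3 := det_scale φ (co f) ((K⁻¹ : ℝ) : 𝕜) 1
  simp only [one_smul, one_mul] at h3
  rw [h3, norm_mul, norm_pow, RCLike.norm_ofReal, abs_of_nonneg (by positivity), inv_pow,
    inv_mul_le_iff₀ (by positivity)] at hadm
  exact hfM.le.trans hadm

include hB in
lemma MM_le' (hp : p ≠ ∞) (hN : 0 < N) :
    MM Z φ ≤ (((N : ℝ)⁻¹) ^ (min (1 / 2) (1 / p.toReal))) ^ N * B := by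
  have hNr : (0 : ℝ) < N := by exact_mod_cast hN
  have hP := P_pos (p := p) hp
  have hev : ∀ᶠ σ in nhdsWithin (0 : ℝ) (Set.Ioi 0), (1 - σ ^ 2) * MM Z φ ≤
      ((kap (p.toReal / 2) σ / N) ^ (min (1 / 2) (1 / p.toReal))) ^ N * B := by
    have e1 : ∀ᶠ σ in nhdsWithin (0 : ℝ) (Set.Ioi 0), σ < 1 :=
      eventually_nhdsWithin_of_eventually_nhds (eventually_lt_nhds one_pos)
    have e2 : ∀ᶠ σ in nhdsWithin (0 : ℝ) (Set.Ioi 0), σ < 2 / (p.toReal / 2) :=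
      eventually_nhdsWithin_of_eventually_nhds (eventually_lt_nhds (by positivity))
    filter_upwards [e1, e2, self_mem_nhdsWithin] with σ h1 h2 h0
    refine MM_le hB hp hN h0 h1 ?_
    rw [lt_div_iff₀ (by positivity)] at h2
    linarith
  have t1 : Filter.Tendsto (fun σ : ℝ => (1 - σ ^ 2) * MM Z φ) (nhdsWithin (0 : ℝ) (Set.Ioi 0))
      (nhds (MM Z φ)) := by
    have h : Filter.Tendsto (fun σ : ℝ => (1 - σ ^ 2) * MM Z φ) (nhds 0)
        (nhds ((1 - (0:ℝ) ^ 2) * MM Z φ)) := by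
      apply Continuous.tendsto
      fun_prop
    have e : (1 - (0:ℝ) ^ 2) * MM Z φ = MM Z φ := by ring
    rw [e] at h
    exact h.mono_left nhdsWithin_le_nhds
  have t2 : Filter.Tendsto (fun σ : ℝ =>
      ((kap (p.toReal / 2) σ / N) ^ (min (1 / 2) (1 / p.toReal))) ^ N * B)
      (nhdsWithin (0 : ℝ) (Set.Ioi 0))
      (nhds ((((N : ℝ)⁻¹) ^ (min (1 / 2) (1 / p.toReal))) ^ N * B)) := by
    have h := ((kap_tendsto (p.toReal / 2)).div_const (N : ℝ)).mono_left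
      (nhdsWithin_le_nhds (s := Set.Ioi 0))
    rw [one_div] at h
    exact ((h.rpow_const (Or.inl (by positivity))).pow N).mul_const B
  exact le_of_tendsto_of_tendsto t1 t2 hev

include hB in
lemma dom_aux (hp : p ≠ ∞) (z : Fin N → Lp 𝕜 p μ) (hzZ : ∀ j, z j ∈ Z) (hz : ∀ j, ‖z j‖ ≤ 1) :
    ‖(Matrix.of fun i j => φ i (z j)).det‖ ≤ ((N : ℝ) ^ |1 / 2 - 1 / p.toReal|) ^ N * B := by
  rcases Nat.eq_zero_or_pos N with h0 | hN
  · subst h0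
    simpa using hB z (fun j => hzZ j) (fun ξ => by simp)
  have hNr : (0 : ℝ) < N := by exact_mod_cast hN
  have hP := P_pos (p := p) hp
  have hB0 : 0 ≤ B := (norm_nonneg _).trans
    (hB 0 (fun _ => Z.zero_mem) (fun ξ => by simp; positivity))
  rw [← dt_asm]
  have h0Z : In Z (asm z) := fun j => by rw [co_asm]; exact hzZ j
  have h1 := dt_le hB hN h0Z
  have h2 := norm_asm_le hp hN hz
  have h3 : ‖asm z‖ ^ N ≤ ((N : ℝ) ^ (max (1 / 2) (1 / p.toReal))) ^ N :=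
    pow_le_pow_left₀ (norm_nonneg _) h2 N
  have h4 := MM_le' hB hp hN
  have h5 : (N : ℝ) ^ |1 / 2 - 1 / p.toReal|
      = (N : ℝ)⁻¹ ^ (min (1 / 2) (1 / p.toReal)) * (N : ℝ) ^ (max (1 / 2) (1 / p.toReal)) := by
    rw [Real.inv_rpow hNr.le, ← Real.rpow_neg hNr.le, ← Real.rpow_add hNr]
    congr 1
    rw [← max_sub_min_eq_abs' (1 / 2) (1 / p.toReal)]
    ring
  calc ‖dt φ (asm z)‖ ≤ MM Z φ * ‖asm z‖ ^ N := h1
    _ ≤ MM Z φ * ((N : ℝ) ^ (max (1 / 2) (1 / p.toReal))) ^ N :=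
        mul_le_mul_of_nonneg_left h3 (MM_nonneg hB)
    _ ≤ (((N : ℝ)⁻¹) ^ (min (1 / 2) (1 / p.toReal))) ^ N * B *
        ((N : ℝ) ^ (max (1 / 2) (1 / p.toReal))) ^ N :=
        mul_le_mul_of_nonneg_right h4 (by positivity)
    _ = _ := by
        rw [h5, mul_pow]
        ring

end

/-- **The domain condition for subspaces of `L_p(μ)`, `1 ≤ p < ∞`.** -/
theorem dom_sub_Lp (hp : p ≠ ∞) (Z : Submodule 𝕜 (Lp 𝕜 p μ)) (N : ℕ) :
    Dom 𝕜 Z N ((N : ℝ) ^ |1 / 2 - 1 / p.toReal|) := by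
  intro φ B hB z hz
  choose ψ hψ _ using fun i => exists_extension_norm_eq Z (φ i)
  have h : ∀ x : Fin N → Lp 𝕜 p μ, (∀ j, x j ∈ Z) → AdmX 𝕜 x →
      ‖(Matrix.of fun i j => ψ i (x j)).det‖ ≤ B := by
    intro x hx hadm
    have h1 := hB (fun j => ⟨x j, hx j⟩) (fun ξ => by
      have e : ((∑ i, ξ i • (⟨x i, hx i⟩ : Z) : Z) : Lp 𝕜 p μ) = ∑ i, ξ i • x i := by
        simp
      have e' : ‖∑ i, ξ i • (⟨x i, hx i⟩ : Z)‖ = ‖∑ i, ξ i • x i‖ := by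
        rw [← e]
        rfl
      show ‖∑ i, ξ i • (⟨x i, hx i⟩ : Z)‖ ^ 2 ≤ _
      rw [e']
      exact hadm ξ)
    have e2 : (Matrix.of fun i j => ψ i (x j)) = (Matrix.of fun i j => φ i ⟨x j, hx j⟩) := by
      ext i j
      exact hψ i ⟨x j, hx j⟩
    rw [e2]
    exact h1
  have h3 := dom_aux h hp (fun j => (z j : Lp 𝕜 p μ)) (fun j => (z j).2) (fun j => hz j)
  have e3 : (Matrix.of fun i j => ψ i (z j : Lp 𝕜 p μ)) = (Matrix.of fun i j => φ i (z j)) := by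
    ext i j
    exact hψ i (z j)
  rw [e3] at h3
  exact h3

/-- **The domain condition for `L_p(μ)`, `1 ≤ p < ∞`.** -/
theorem dom_Lp (hp : p ≠ ∞) (N : ℕ) :
    Dom 𝕜 (Lp 𝕜 p μ) N ((N : ℝ) ^ |1 / 2 - 1 / p.toReal|) := by
  intro φ B hB z hz
  exact dom_aux (Z := ⊤) (fun x _ hx => hB x hx) hp z (fun _ => Submodule.mem_top) hz

end Pool.Agent.KS6_50.HB
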