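import Pool.Agent.KS6_50.HB.Opt

set_option autoImplicit false
set_option linter.unusedSectionVars false

/-!
The formal identities `ℓ_p^N → ℓ_q^N`, `q ≤ 2 ≤ p`.
-/

open scoped InnerProductSpace ENNReal

namespace Pool.Agent.KS6_50.HB

open Pool.Agent.Results.MP_69de12_an.HilbertBound Pool.Agent.Y332.HN

section Ext

variable {𝕜 : Type*} [RCLike 𝕜]

/-- the coordinates of modulus one -/
noncomputable def one1 {N : ℕ} (f : Fin N → 𝕜) : Finset (Fin N) := by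
  classical exact Finset.univ.filter fun i => ‖f i‖ = 1

lemma mem_one1 {N : ℕ} (f : Fin N → 𝕜) (i : Fin N) : i ∈ one1 f ↔ ‖f i‖ = 1 := by
  simp [one1]

/-- the improvement step -/
lemma ext_step {n N : ℕ} (U : (Fin N → 𝕜) →ₗ[𝕜] (Fin n → 𝕜)) (f : Fin N → 𝕜) (hf : U f = 0)
    (hf1 : ∀ i, ‖f i‖ ≤ 1) (hk : (one1 f).card + n < N) :
    ∃ f' : Fin N → 𝕜, U f' = 0 ∧ (∀ i, ‖f' i‖ ≤ 1) ∧ (one1 f).card < (one1 f').card := by
  classical
  set T := one1 f with hT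
  let V : (Fin N → 𝕜) →ₗ[𝕜] (Fin n → 𝕜) × (T → 𝕜) :=
    U.prod (LinearMap.funLeft 𝕜 𝕜 (fun i : T => (i : Fin N)))
  have hker : V.ker ≠ ⊥ := by
    apply LinearMap.ker_ne_bot_of_finrank_lt
    simp only [Module.finrank_prod, Module.finrank_pi, Fintype.card_fin, Fintype.card_coe]
    omega
  obtain ⟨g, hg, hg0⟩ := Submodule.exists_mem_ne_zero_of_ne_bot hker
  have hg1 : V g = 0 := hg
  have hgU : U g = 0 := congrArg Prod.fst hg1
  have hgT : ∀ i ∈ T, g i = 0 := fun i hi =>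
    congrFun (congrArg Prod.snd hg1) ⟨i, hi⟩
  have hgn : 0 < ‖g‖ := norm_pos_iff.2 hg0
  have hN : 0 < N := by omega
  let h : ℝ → Fin N → 𝕜 := fun t i => if i ∈ T then 0 else f i + (t : 𝕜) * g i
  have hcont : Continuous fun t : ℝ => ‖h t‖ := by
    apply Continuous.norm
    apply continuous_pi
    intro i
    by_cases hi : i ∈ T
    · simp only [h, if_pos hi]; exact continuous_const
    · simp only [h, if_neg hi]
      exact continuous_const.add ((RCLike.continuous_ofReal).mul continuous_const)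
  have h0 : ‖h 0‖ ≤ 1 := by
    rw [pi_norm_le_iff_of_nonneg zero_le_one]
    intro i
    by_cases hi : i ∈ T
    · simp [h, hi]
    · simp only [h, if_neg hi]; simpa using hf1 i
  have h1 : 1 ≤ ‖h (2 / ‖g‖)‖ := by
    have e1 : ‖g‖ ≤ (‖h (2 / ‖g‖)‖ + 1) * (‖g‖ / 2) := by
      rw [pi_norm_le_iff_of_nonneg (by positivity)]
      intro i
      by_cases hi : i ∈ T
      · rw [hgT i hi, norm_zero]; positivity
      · have e2 : h (2 / ‖g‖) i = f i + ((2 / ‖g‖ : ℝ) : 𝕜) * g i := by simp only [h, if_neg hi]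
        have e3 := norm_le_pi_norm (h (2 / ‖g‖)) i
        have e4 : ‖((2 / ‖g‖ : ℝ) : 𝕜) * g i‖ ≤ ‖h (2 / ‖g‖) i‖ + ‖f i‖ := by
          have : ((2 / ‖g‖ : ℝ) : 𝕜) * g i = h (2 / ‖g‖) i - f i := by rw [e2]; ring
          rw [this]
          exact norm_sub_le _ _
        rw [norm_mul, RCLike.norm_ofReal, abs_of_pos (by positivity)] at e4
        have e5 : 2 / ‖g‖ * ‖g i‖ ≤ ‖h (2 / ‖g‖)‖ + 1 := by linarith [hf1 i]
        calc ‖g i‖ = 2 / ‖g‖ * ‖g i‖ * (‖g‖ / 2) := by field_simp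
          _ ≤ _ := mul_le_mul_of_nonneg_right e5 (by positivity)
    by_contra hcon
    push Not at hcon
    nlinarith
  obtain ⟨t, -, ht⟩ := intermediate_value_Icc (a := (0 : ℝ)) (b := 2 / ‖g‖) (by positivity)
    hcont.continuousOn ⟨h0, h1⟩
  have ht1 : ‖h t‖ = 1 := ht
  obtain ⟨i₀, hi₀⟩ : ∃ i, ‖h t i‖ = 1 := by
    by_contra hcon
    push Not at hcon
    have : ‖h t‖ < 1 := by
      rw [pi_norm_lt_iff one_pos]
      intro i
      exact lt_of_le_of_ne ((norm_le_pi_norm (h t) i).trans_eq ht1) (hcon i)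
    linarith
  have hi₀T : i₀ ∉ T := by
    intro hi
    simp only [h, if_pos hi, norm_zero] at hi₀
    exact zero_ne_one hi₀
  refine ⟨f + (t : 𝕜) • g, by rw [map_add, map_smul, hf, hgU, smul_zero, add_zero], ?_, ?_⟩
  · intro i
    by_cases hi : i ∈ T
    · rw [Pi.add_apply, Pi.smul_apply, hgT i hi, smul_zero, add_zero]
      exact hf1 i
    · have e1 : (f + (t : 𝕜) • g) i = h t i := by simp only [h, if_neg hi]; rfl
      rw [e1, ← ht1]
      exact norm_le_pi_norm (h t) i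
  · apply Finset.card_lt_card
    rw [Finset.ssubset_iff_of_subset]
    · refine ⟨i₀, ?_, hi₀T⟩
      rw [mem_one1]
      have e1 : (f + (t : 𝕜) • g) i₀ = h t i₀ := by simp only [h, if_neg hi₀T]; rfl
      rw [e1, hi₀]
    · intro i hi
      rw [mem_one1, Pi.add_apply, Pi.smul_apply, hgT i hi, smul_zero, add_zero, ← mem_one1]
      exact hi

/-- a kernel of small codimension contains a vector with many coordinates of maximal modulus -/
lemma ext_pt {n N : ℕ} (U : (Fin N → 𝕜) →ₗ[𝕜] (Fin n → 𝕜)) :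
    ∃ f : Fin N → 𝕜, U f = 0 ∧ (∀ i, ‖f i‖ ≤ 1) ∧ N ≤ (one1 f).card + n := by
  by_contra hcon
  push Not at hcon
  have key : ∀ m : ℕ, ∃ f : Fin N → 𝕜, U f = 0 ∧ (∀ i, ‖f i‖ ≤ 1) ∧ m ≤ (one1 f).card := by
    intro m
    induction m with
    | zero => exact ⟨0, map_zero U, fun i => by simp, Nat.zero_le _⟩
    | succ m ih =>
      obtain ⟨f, h1, h2, h3⟩ := ih
      obtain ⟨f', h1', h2', h3'⟩ := ext_step U f h1 h2 (hcon f h1 h2)
      exact ⟨f', h1', h2', by omega⟩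
  obtain ⟨f, -, -, h3⟩ := key (N + 1)
  have := Finset.card_le_univ (one1 f)
  rw [Fintype.card_fin] at this
  omega

end Ext

section Fin

variable {𝕜 : Type*} [RCLike 𝕜] {p q : ℝ≥0∞} [Fact (1 ≤ p)] [Fact (1 ≤ q)] {N : ℕ}

/-- the spaces `ℓ_p^N` -/
abbrev Fl (𝕜 : Type*) [RCLike 𝕜] (p : ℝ≥0∞) (N : ℕ) : Type _ := PiLp p (fun _ : Fin N => 𝕜)

/-- the formal identity `ℓ_p^N → ℓ_q^N` -/
noncomputable def II (𝕜 : Type*) [RCLike 𝕜] (p q : ℝ≥0∞) [Fact (1 ≤ p)] [Fact (1 ≤ q)] (N : ℕ) :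
    Fl 𝕜 p N →L[𝕜] Fl 𝕜 q N :=
  LinearMap.toContinuousLinearMap
    { toFun := fun f => WithLp.toLp q (fun i => f i)
      map_add' := fun f g => by ext i; simp
      map_smul' := fun c f => by ext i; simp }

lemma II_apply (f : Fl 𝕜 p N) (i : Fin N) : II 𝕜 p q N f i = f i := rfl

lemma admX_coord {K : ℕ} {x : Fin K → Fl 𝕜 p N} (hx : AdmX 𝕜 x) (i : Fin N) :
    ∑ j, ‖x j i‖ ^ 2 ≤ 1 := by
  set s := ∑ j, ‖x j i‖ ^ 2 with hs
  have hs0 : 0 ≤ s := Finset.sum_nonneg fun _ _ => by positivity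
  have h1 := hx (fun j => starRingEnd 𝕜 (x j i))
  have h2 : ((∑ j, starRingEnd 𝕜 (x j i) • x j : Fl 𝕜 p N)) i = (s : 𝕜) := by
    have e : ((∑ j, starRingEnd 𝕜 (x j i) • x j : Fl 𝕜 p N)) i =
        ∑ j, starRingEnd 𝕜 (x j i) * x j i := by simp
    rw [e, hs]
    push_cast
    exact Finset.sum_congr rfl fun j _ => RCLike.conj_mul _
  have h3 := PiLp.norm_apply_le (∑ j, starRingEnd 𝕜 (x j i) • x j : Fl 𝕜 p N) i
  rw [h2, RCLike.norm_ofReal, abs_of_nonneg hs0] at h3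
  have h4 : ∑ j, ‖starRingEnd 𝕜 (x j i)‖ ^ 2 = s := by simp [hs]
  rw [h4] at h1
  have h5 := pow_le_pow_left₀ hs0 h3 2
  by_contra hcon
  push Not at hcon
  nlinarith

lemma sum_IX {K : ℕ} {x : Fin K → Fl 𝕜 p N} (hx : AdmX 𝕜 x) :
    ∑ j, ‖II 𝕜 p 2 N (x j)‖ ^ 2 ≤ N := by
  have h1 : ∀ j, ‖II 𝕜 p 2 N (x j)‖ ^ 2 = ∑ i, ‖x j i‖ ^ 2 := fun j =>
    EuclideanSpace.norm_sq_eq (𝕜 := 𝕜) (II 𝕜 p 2 N (x j))
  simp only [h1]
  rw [Finset.sum_comm]
  refine (Finset.sum_le_sum fun i _ => admX_coord hx i).trans ?_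
  simp

lemma sum_IY {K : ℕ} {b : Fin K → Fl 𝕜 q N →L[𝕜] 𝕜} (hb : AdmY b)
    {v : Fin K → EuclideanSpace 𝕜 (Fin N)} (hv : Orthonormal 𝕜 v) :
    ∑ i, ∑ l, ‖b l (II 𝕜 2 q N (v i))‖ ^ 2 ≤ N := by
  let w : Fin K → EuclideanSpace 𝕜 (Fin N) := fun l =>
    (InnerProductSpace.toDual 𝕜 (EuclideanSpace 𝕜 (Fin N))).symm ((b l).comp (II 𝕜 2 q N))
  have hw : ∀ l y, b l (II 𝕜 2 q N y) = ⟪w l, y⟫_𝕜 := by
    intro l y
    show ((b l).comp (II 𝕜 2 q N)) y = _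
    rw [InnerProductSpace.toDual_symm_apply]
  rw [Finset.sum_comm]
  have h1 : ∀ l, ∑ i, ‖b l (II 𝕜 2 q N (v i))‖ ^ 2 ≤ ‖w l‖ ^ 2 := by
    intro l
    have h2 : ∀ i, ‖b l (II 𝕜 2 q N (v i))‖ ^ 2 = ‖⟪v i, w l⟫_𝕜‖ ^ 2 := by
      intro i
      rw [hw, norm_inner_symm]
    simp only [h2]
    exact hv.sum_inner_products_le (w l)
  refine (Finset.sum_le_sum fun l _ => h1 l).trans ?_
  have h3 : ∀ l, ‖w l‖ ^ 2 = ∑ k, ‖b l (PiLp.single q k (1 : 𝕜))‖ ^ 2 := by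
    intro l
    rw [EuclideanSpace.norm_sq_eq]
    apply Finset.sum_congr rfl
    intro k _
    have h4 := hw l (EuclideanSpace.single k (1 : 𝕜))
    have h5 : II 𝕜 2 q N (EuclideanSpace.single k (1 : 𝕜)) = PiLp.single q k (1 : 𝕜) := by
      ext i
      rw [II_apply]
      rfl
    rw [h5] at h4
    rw [h4, EuclideanSpace.inner_single_right]
    simp
  simp only [h3]
  rw [Finset.sum_comm]
  refine (Finset.sum_le_sum fun k _ => hb (PiLp.single q k (1 : 𝕜))).trans ?_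
  simp

lemma h_II (n : ℕ) : hilbertNumber n (II 𝕜 p q N) ≤ (N : ℝ) / ((n : ℝ) + 1) := by
  apply hilbertNumber_le_of_D n _ (by positivity)
  have hN : ((n + 1 : ℕ) : ℝ) * ((N : ℝ) / ((n : ℝ) + 1)) = N := by
    push_cast
    field_simp
  have h := D_le_of_factor (N := n + 1) (II 𝕜 p q N) (II 𝕜 p 2 N) (II 𝕜 2 q N) (fun _ => rfl)
    (s := (N : ℝ) / ((n : ℝ) + 1)) (t := (N : ℝ) / ((n : ℝ) + 1)) (by positivity) (by positivity)
    (fun x hx => by rw [hN]; exact sum_IX hx) (fun b hb v hv => by rw [hN]; exact sum_IY hb hv)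
  rwa [Real.sqrt_mul_self (by positivity)] at h

end Fin

end Pool.Agent.KS6_50.HB
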