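import Pool.Agent.KS6_50.HB.Fin

set_option autoImplicit false
set_option linter.unusedSectionVars false

/-!
The formal identities `ℓ_p^N → ℓ_q^N`, `q ≤ 2 ≤ p`: approximation numbers and geometric means.
-/

open scoped InnerProductSpace ENNReal

namespace Pool.Agent.KS6_50.HB

open Pool.Agent.Results.MP_69de12_an.HilbertBound Pool.Agent.Y332.HN

variable {𝕜 : Type*} [RCLike 𝕜] {p q : ℝ≥0∞} [Fact (1 ≤ p)] [Fact (1 ≤ q)] {N : ℕ}

lemma a_II (hq2 : q ≤ 2) (hp2 : 2 ≤ p) {n m : ℕ} (hm : m + n ≤ N) (hm0 : 0 < m) :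
    (m : ℝ) ^ (1 / q.toReal - 1 / p.toReal) ≤ approxNumber n (II 𝕜 p q N) := by
  have hq : q ≠ ∞ := ne_top_of_le_ne_top ENNReal.ofNat_ne_top hq2
  have hQ1 := one_le_P (p := q) hq
  have hQ2 : q.toReal ≤ 2 := by
    have := ENNReal.toReal_mono ENNReal.ofNat_ne_top hq2
    simpa using this
  obtain ⟨hi0, hi1⟩ := inv_Q hp2
  have hQh : 1 / 2 ≤ 1 / q.toReal := one_div_le_one_div_of_le (by linarith) hQ2
  have hmr : (0 : ℝ) < m := by exact_mod_cast hm0
  apply le_approxNumber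
  intro u y₀ y
  let U : (Fin N → 𝕜) →ₗ[𝕜] (Fin n → 𝕜) :=
    LinearMap.pi fun j => (u j).toLinearMap ∘ₗ (WithLp.linearEquiv p 𝕜 (Fin N → 𝕜)).symm.toLinearMap
  obtain ⟨f, hU, hf1, hfN⟩ := ext_pt U
  set F : Fl 𝕜 p N := WithLp.toLp p f with hF
  have hu : ∀ j, u j F = 0 := fun j => congrFun hU j
  set Q := q.toReal with hQ
  set W := ∑ i, ‖f i‖ ^ Q with hW
  have hWm : (m : ℝ) ≤ W := by
    have h1 : ∑ i ∈ one1 f, ‖f i‖ ^ Q ≤ W :=
      Finset.sum_le_sum_of_subset_of_nonneg (Finset.subset_univ _)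
        (fun i _ _ => Real.rpow_nonneg (norm_nonneg _) _)
    have h2 : ∑ i ∈ one1 f, ‖f i‖ ^ Q = (one1 f).card := by
      rw [Finset.sum_congr rfl fun i hi => by rw [(mem_one1 f i).1 hi, Real.one_rpow]]
      simp
    rw [h2] at h1
    have h3 : (m : ℝ) ≤ (one1 f).card := by
      have : m ≤ (one1 f).card := by omega
      exact_mod_cast this
    linarith
  have hW0 : 0 < W := lt_of_lt_of_le hmr hWm
  have hFq : ‖II 𝕜 p q N F‖ = W ^ (1 / Q) := PiLp.norm_eq_sum (by linarith) _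
  have hFp : ‖F‖ ≤ W ^ (1 / p.toReal) := by
    by_cases hp : p = ∞
    · subst hp
      rw [ENNReal.toReal_top, div_zero, Real.rpow_zero, PiLp.norm_eq_ciSup]
      exact Real.iSup_le (fun i => hf1 i) zero_le_one
    · have hP2 : (2 : ℝ) ≤ p.toReal := by
        have := ENNReal.toReal_mono hp hp2
        simpa using this
      rw [PiLp.norm_eq_sum (by linarith)]
      apply Real.rpow_le_rpow (Finset.sum_nonneg fun i _ => Real.rpow_nonneg (norm_nonneg _) _) _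
        hi0
      apply Finset.sum_le_sum
      intro i _
      show ‖f i‖ ^ p.toReal ≤ ‖f i‖ ^ Q
      rcases (norm_nonneg (f i)).eq_or_lt with h0 | h0
      · rw [← h0, Real.zero_rpow (by linarith), Real.zero_rpow (by linarith)]
      · exact Real.rpow_le_rpow_of_exponent_ge h0 (hf1 i) (by linarith)
  have hFpos : 0 < ‖F‖ := by
    have hcard : 0 < (one1 f).card := by omega
    obtain ⟨i, hi⟩ := Finset.card_pos.1 hcard
    have h1 := PiLp.norm_apply_le F i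
    have h2 : ‖F i‖ = 1 := (mem_one1 f i).1 hi
    rw [h2] at h1
    linarith
  set x : Fl 𝕜 p N := ((‖F‖⁻¹ : ℝ) : 𝕜) • F with hx
  have hx1 : ‖x‖ = 1 := by
    rw [hx, norm_smul, RCLike.norm_ofReal, abs_of_pos (by positivity), inv_mul_cancel₀ hFpos.ne']
  have hux : ∀ j, u j x = 0 := by
    intro j
    rw [hx, map_smul, hu, smul_zero]
  have hSx : (m : ℝ) ^ (1 / Q - 1 / p.toReal) ≤ ‖II 𝕜 p q N x‖ := by
    rw [hx, map_smul, norm_smul, RCLike.norm_ofReal, abs_of_pos (by positivity), hFq,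
      ← div_eq_inv_mul, le_div_iff₀ hFpos]
    have h1 : (m : ℝ) ^ (1 / Q - 1 / p.toReal) ≤ W ^ (1 / Q - 1 / p.toReal) :=
      Real.rpow_le_rpow hmr.le hWm (by linarith)
    calc (m : ℝ) ^ (1 / Q - 1 / p.toReal) * ‖F‖
        ≤ W ^ (1 / Q - 1 / p.toReal) * W ^ (1 / p.toReal) :=
          mul_le_mul h1 hFp (norm_nonneg _) (Real.rpow_nonneg hW0.le _)
      _ = W ^ (1 / Q) := by
          rw [← Real.rpow_add hW0]
          congr 1
          ring
  have hz : ∀ s : 𝕜, ∑ j, u j (s • x) • y j = 0 := by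
    intro s
    apply Finset.sum_eq_zero
    intro j _
    rw [map_smul, hux, smul_zero, zero_smul]
  have htri : 2 * ‖II 𝕜 p q N x‖ ≤ ‖II 𝕜 p q N x - y₀‖ + ‖-II 𝕜 p q N x - y₀‖ := by
    have h1 := norm_sub_le (II 𝕜 p q N x - y₀) (-II 𝕜 p q N x - y₀)
    have h2 : II 𝕜 p q N x - y₀ - (-II 𝕜 p q N x - y₀) = (2 : 𝕜) • II 𝕜 p q N x := by
      rw [two_smul]; abel
    rw [h2, norm_smul] at h1
    have h3 : ‖(2 : 𝕜)‖ = 2 := RCLike.norm_ofNat 2
    rw [h3] at h1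
    exact h1
  rcases le_total (‖II 𝕜 p q N x‖) (‖II 𝕜 p q N x - y₀‖) with h | h
  · refine ⟨x, hx1.le, ?_⟩
    have h1 := hz 1
    rw [one_smul] at h1
    rw [h1, sub_zero]
    exact hSx.trans h
  · refine ⟨-x, by rw [norm_neg]; exact hx1.le, ?_⟩
    have h1 := hz (-1)
    rw [neg_smul, one_smul] at h1
    rw [h1, sub_zero, map_neg]
    linarith

lemma geom_II (n : ℕ) : geomMean n (II 𝕜 p q (2 * n + 2)) ≤ 2 * Real.exp 1 := by
  apply le_of_pow_le_pow_left₀ (Nat.succ_ne_zero n) (by positivity)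
  rw [geomMean_pow]
  have h1 : ∏ k ∈ Finset.range (n + 1), hilbertNumber k (II 𝕜 p q (2 * n + 2)) ≤
      ∏ k ∈ Finset.range (n + 1), (((2 * n + 2 : ℕ) : ℝ) * (1 / ((k : ℝ) + 1))) := by
    apply Finset.prod_le_prod (fun k _ => hilbertNumber_nonneg k _)
    intro k _
    rw [mul_one_div]
    exact h_II k
  refine h1.trans ?_
  rw [Finset.prod_mul_distrib, Finset.prod_const, Finset.card_range, prod_inv_le, mul_pow]
  have h2 := pow_div_le n
  have h3 : (((2 * n + 2 : ℕ) : ℝ)) ^ (n + 1) = 2 ^ (n + 1) * ((n : ℝ) + 1) ^ (n + 1) := by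
    rw [← mul_pow]
    congr 1
    push_cast
    ring
  rw [h3, mul_assoc]
  exact mul_le_mul_of_nonneg_left h2 (by positivity)

end Pool.Agent.KS6_50.HB
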