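import Pool.Graph.R_seed8.Results.MP_69de12_an.HilbertBound

set_option autoImplicit false

/-!
# Approximation numbers and Hilbert numbers: a general principle

`Dom N C` and `Cod N C` are conditions on a normed space in the spirit of the Grothendieck numbers:
determinants of unit vectors (unit functionals) are at most `C ^ N` times the supremum of the
determinants of systems which come from contractions of the `N`-dimensional Hilbert space.
-/

open scoped InnerProductSpace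
open Module

namespace Pool.Agent.KS6_50.HB

open Pool.Agent.Results.MP_69de12_an.HilbertBound

section Defs

variable (𝕜 : Type*) [RCLike 𝕜] (X : Type*) [NormedAddCommGroup X] [NormedSpace 𝕜 X]

/-- the domain condition -/
def Dom (N : ℕ) (C : ℝ) : Prop :=
  ∀ (φ : Fin N → X →L[𝕜] 𝕜) (B : ℝ),
    (∀ x : Fin N → X, AdmX 𝕜 x → ‖(Matrix.of fun i j => φ i (x j)).det‖ ≤ B) →
    ∀ z : Fin N → X, (∀ j, ‖z j‖ ≤ 1) → ‖(Matrix.of fun i j => φ i (z j)).det‖ ≤ C ^ N * B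

/-- the codomain condition -/
def Cod (N : ℕ) (C : ℝ) : Prop :=
  ∀ (y : Fin N → X) (B : ℝ),
    (∀ b : Fin N → X →L[𝕜] 𝕜, AdmY b → ‖(Matrix.of fun i j => b i (y j)).det‖ ≤ B) →
    ∀ g : Fin N → X →L[𝕜] 𝕜, (∀ i, ‖g i‖ ≤ 1) →
      ‖(Matrix.of fun i j => g i (y j)).det‖ ≤ C ^ N * B

end Defs

section General

variable {𝕜 : Type*} [RCLike 𝕜] {X Y : Type*} [NormedAddCommGroup X] [NormedSpace 𝕜 X]
  [NormedAddCommGroup Y] [NormedSpace 𝕜 Y]

lemma det_scale {N : ℕ} (φ : Fin N → X →L[𝕜] 𝕜) (z : Fin N → X) (c d : 𝕜) :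
    (Matrix.of fun i j => (d • φ i) (c • z j)).det
      = (d * c) ^ N * (Matrix.of fun i j => φ i (z j)).det := by
  have : (Matrix.of fun i j => (d • φ i) (c • z j))
      = (d * c) • (Matrix.of fun i j => φ i (z j)) := by
    ext i j
    simp only [Matrix.of_apply, map_smul, smul_apply, smul_eq_mul, Matrix.smul_apply]
    ring
  rw [this, Matrix.det_smul, Fintype.card_fin]

lemma admX_unit {N : ℕ} {z : Fin N → X} (hz : ∀ j, ‖z j‖ ≤ 1) :
    AdmX 𝕜 (fun j => (((Real.sqrt N)⁻¹ : ℝ) : 𝕜) • z j) := by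
  intro ξ
  rcases Nat.eq_zero_or_pos N with h0 | h0
  · subst h0; simp
  have hN : (0 : ℝ) < N := by exact_mod_cast h0
  have h1 : ‖∑ i, ξ i • (((Real.sqrt N)⁻¹ : ℝ) : 𝕜) • z i‖ ≤ (Real.sqrt N)⁻¹ * ∑ i, ‖ξ i‖ := by
    refine (norm_sum_le _ _).trans ?_
    rw [Finset.mul_sum]
    apply Finset.sum_le_sum
    intro i _
    rw [norm_smul, norm_smul, RCLike.norm_ofReal, abs_of_nonneg (by positivity)]
    have := hz i
    calc ‖ξ i‖ * ((Real.sqrt N)⁻¹ * ‖z i‖) = (Real.sqrt N)⁻¹ * ‖ξ i‖ * ‖z i‖ := by ring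
      _ ≤ (Real.sqrt N)⁻¹ * ‖ξ i‖ * 1 := mul_le_mul_of_nonneg_left this (by positivity)
      _ = _ := by ring
  have h2 : (∑ i, ‖ξ i‖) ^ 2 ≤ N * ∑ i, ‖ξ i‖ ^ 2 := by
    have := sq_sum_le_card_mul_sum_sq (s := Finset.univ) (f := fun i => ‖ξ i‖)
    simpa using this
  calc _ ≤ ((Real.sqrt N)⁻¹ * ∑ i, ‖ξ i‖) ^ 2 := pow_le_pow_left₀ (norm_nonneg _) h1 2
    _ = (N : ℝ)⁻¹ * (∑ i, ‖ξ i‖) ^ 2 := by
        rw [mul_pow, inv_pow, Real.sq_sqrt hN.le]
    _ ≤ (N : ℝ)⁻¹ * (N * ∑ i, ‖ξ i‖ ^ 2) := mul_le_mul_of_nonneg_left h2 (by positivity)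
    _ = _ := by field_simp

lemma admY_unit {N : ℕ} {g : Fin N → Y →L[𝕜] 𝕜} (hg : ∀ j, ‖g j‖ ≤ 1) :
    AdmY (fun j => (((Real.sqrt N)⁻¹ : ℝ) : 𝕜) • g j) := by
  intro y
  rcases Nat.eq_zero_or_pos N with h0 | h0
  · subst h0; simp
  have hN : (0 : ℝ) < N := by exact_mod_cast h0
  have h1 : ∀ i, ‖((((Real.sqrt N)⁻¹ : ℝ) : 𝕜) • g i) y‖ ^ 2 ≤ (N : ℝ)⁻¹ * ‖y‖ ^ 2 := by
    intro i
    rw [smul_apply, norm_smul, RCLike.norm_ofReal, abs_of_nonneg (by positivity),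
      mul_pow, inv_pow, Real.sq_sqrt hN.le]
    apply mul_le_mul_of_nonneg_left _ (by positivity)
    apply pow_le_pow_left₀ (norm_nonneg _)
    exact ((g i).le_opNorm y).trans (mul_le_of_le_one_left (norm_nonneg _) (hg i))
  calc _ ≤ ∑ _i : Fin N, (N : ℝ)⁻¹ * ‖y‖ ^ 2 := Finset.sum_le_sum fun i _ => h1 i
    _ = ‖y‖ ^ 2 := by
        rw [Finset.sum_const, Finset.card_univ, Fintype.card_fin, nsmul_eq_mul]
        field_simp

variable (𝕜 X) in
theorem dom_sqrt (N : ℕ) : Dom 𝕜 X N (Real.sqrt N) := by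
  intro φ B hB z hz
  have h := hB _ (admX_unit (𝕜 := 𝕜) hz)
  have h2 := det_scale φ z (((Real.sqrt N)⁻¹ : ℝ) : 𝕜) 1
  simp only [one_smul, one_mul] at h2
  rw [h2, norm_mul, norm_pow, RCLike.norm_ofReal, abs_of_nonneg (by positivity)] at h
  rcases Nat.eq_zero_or_pos N with h0 | h0
  · subst h0; simpa using h
  have hN : (0 : ℝ) < N := by exact_mod_cast h0
  have hs : 0 < Real.sqrt N := Real.sqrt_pos.2 hN
  rw [inv_pow, inv_mul_le_iff₀ (by positivity)] at h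
  exact h

variable (𝕜 Y) in
theorem cod_sqrt (N : ℕ) : Cod 𝕜 Y N (Real.sqrt N) := by
  intro y B hB g hg
  have h := hB _ (admY_unit (𝕜 := 𝕜) hg)
  have h2 := det_scale g y 1 (((Real.sqrt N)⁻¹ : ℝ) : 𝕜)
  simp only [one_smul, mul_one] at h2
  rw [h2, norm_mul, norm_pow, RCLike.norm_ofReal, abs_of_nonneg (by positivity)] at h
  rcases Nat.eq_zero_or_pos N with h0 | h0
  · subst h0; simpa using h
  have hN : (0 : ℝ) < N := by exact_mod_cast h0
  have hs : 0 < Real.sqrt N := Real.sqrt_pos.2 hN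
  rw [inv_pow, inv_mul_le_iff₀ (by positivity)] at h
  exact h

theorem unit_det_le {N : ℕ} (S : X →L[𝕜] Y) {α β : ℝ} (hX : Dom 𝕜 X N α) (hY : Cod 𝕜 Y N β)
    {z : Fin N → X} {g : Fin N → Y →L[𝕜] 𝕜} (hz : ∀ j, ‖z j‖ ≤ 1) (hg : ∀ i, ‖g i‖ ≤ 1) :
    ‖(mat S z g).det‖ ≤ (α * β) ^ N * ∏ k ∈ Finset.range N, hilbertNumber k S := by
  have h := hX (fun i => (g i).comp S) (β ^ N * ∏ k ∈ Finset.range N, hilbertNumber k S)
    (fun x hx => hY (fun j => S (x j)) _ (fun b hb => det_le_prod S hx hb) g hg) z hz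
  rw [mul_pow, mul_assoc]
  exact h

/-- the determinants of unit vectors and unit functionals -/
def Uset (N : ℕ) (S : X →L[𝕜] Y) : Set ℝ :=
  {r | ∃ (x : Fin N → X) (b : Fin N → Y →L[𝕜] 𝕜), (∀ j, ‖x j‖ ≤ 1) ∧ (∀ i, ‖b i‖ ≤ 1) ∧
    r = ‖(mat S x b).det‖}

/-- the supremum of `Uset` -/
noncomputable def U (N : ℕ) (S : X →L[𝕜] Y) : ℝ := sSup (Uset N S)

lemma Uset_bdd (N : ℕ) (S : X →L[𝕜] Y) : BddAbove (Uset N S) := by
  refine ⟨(Real.sqrt N * Real.sqrt N) ^ N * ∏ k ∈ Finset.range N, hilbertNumber k S, ?_⟩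
  rintro _ ⟨x, b, hx, hb, rfl⟩
  exact unit_det_le S (dom_sqrt 𝕜 X N) (cod_sqrt 𝕜 Y N) hx hb

lemma Uset_nonempty (N : ℕ) (S : X →L[𝕜] Y) : (Uset N S).Nonempty :=
  ⟨_, 0, 0, fun j => by simp, fun i => by simp, rfl⟩

lemma U_nonneg (N : ℕ) (S : X →L[𝕜] Y) : 0 ≤ U N S := by
  obtain ⟨r, hr⟩ := Uset_nonempty N S
  have h1 := le_csSup (Uset_bdd N S) hr
  obtain ⟨x, b, -, -, rfl⟩ := hr
  exact (norm_nonneg _).trans h1

lemma U_zero (S : X →L[𝕜] Y) : U 0 S = 1 := by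
  have h : Uset 0 S = {1} := by
    ext r
    constructor
    · rintro ⟨x, b, -, -, rfl⟩
      simp
    · rintro rfl
      exact ⟨0, 0, fun j => by simp, fun i => by simp, by simp⟩
  rw [U, h, csSup_singleton]

lemma le_U {ι : Type*} [Fintype ι] [DecidableEq ι] {N : ℕ} (hN : Fintype.card ι = N)
    (S : X →L[𝕜] Y) {x : ι → X} {b : ι → Y →L[𝕜] 𝕜} (hx : ∀ j, ‖x j‖ ≤ 1) (hb : ∀ i, ‖b i‖ ≤ 1) :
    ‖(mat S x b).det‖ ≤ U N S := by
  let e : ι ≃ Fin N := Fintype.equivFinOfCardEq hN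
  apply le_csSup (Uset_bdd N S)
  refine ⟨x ∘ e.symm, b ∘ e.symm, fun j => hx _, fun i => hb _, ?_⟩
  have h : mat S (x ∘ e.symm) (b ∘ e.symm) = (mat S x b).submatrix e.symm e.symm := rfl
  rw [h, Matrix.det_submatrix_equiv_self]

/-- adjoining one vector and one functional -/
lemma ustep_point {m : ℕ} (S : X →L[𝕜] Y) {x : Fin m → X} {b : Fin m → Y →L[𝕜] 𝕜}
    (hx : ∀ j, ‖x j‖ ≤ 1) (hb : ∀ i, ‖b i‖ ≤ 1) (hdet : (mat S x b).det ≠ 0) {z : X}
    (hz : ‖z‖ ≤ 1) :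
    ‖S z - ∑ j, (∑ i, ((mat S x b)⁻¹ j i) * b i (S z)) • S (x j)‖ * ‖(mat S x b).det‖ ≤
      U (m + 1) S := by
  set M := mat S x b with hM
  set w := S z - ∑ j, (∑ i, (M⁻¹ j i) * b i (S z)) • S (x j) with hw
  obtain ⟨g, hg, hgw⟩ := exists_dual_vector'' 𝕜 w
  let x' : Fin m ⊕ Unit → X := Sum.elim x (fun _ => z)
  let b' : Fin m ⊕ Unit → Y →L[𝕜] 𝕜 := Sum.elim b (fun _ => g)
  have hx' : ∀ j, ‖x' j‖ ≤ 1 := by
    rintro (j | j)
    · exact hx j
    · exact hz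
  have hb' : ∀ j, ‖b' j‖ ≤ 1 := by
    rintro (j | j)
    · exact hb j
    · exact hg
  have hD := le_U (by simp) S hx' hb' (N := m + 1)
  let M2 : Matrix (Fin m ⊕ Unit) (Fin m ⊕ Unit) 𝕜 :=
    Matrix.fromBlocks M (Matrix.of fun i _ => b i (S z)) (Matrix.of fun _ j => g (S (x j)))
      (Matrix.of fun _ _ => g (S z))
  have hM2 : mat S x' b' = M2 := by
    ext i j
    rcases i with i | i <;> rcases j with j | j <;>
      simp [mat, x', b', M2, hM]
  have hinv : Invertible M := Matrix.invertibleOfIsUnitDet M (isUnit_iff_ne_zero.mpr hdet)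
  have hdet2 : M2.det = M.det * g w := by
    rw [Matrix.det_fromBlocks₁₁]
    congr 1
    rw [Matrix.det_unique, Matrix.sub_apply, Matrix.mul_apply, hw, map_sub, map_sum, Matrix.of_apply]
    congr 1
    simp only [Matrix.mul_apply, Matrix.of_apply, map_smul, smul_eq_mul, Finset.sum_mul]
    rw [Finset.sum_comm]
    apply Finset.sum_congr rfl
    intro j _
    apply Finset.sum_congr rfl
    intro i _
    rw [Matrix.invOf_eq_nonsing_inv]
    ring
  rw [hM2, hdet2, hgw, norm_mul, RCLike.norm_ofReal, abs_norm, mul_comm] at hD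
  exact hD

lemma ustep (m : ℕ) (S : X →L[𝕜] Y) : approxNumber m S * U m S ≤ U (m + 1) S := by
  have hcD : 0 ≤ U (m + 1) S := U_nonneg _ _
  have key : ∀ r ∈ Uset m S, approxNumber m S * r ≤ U (m + 1) S := by
    rintro _ ⟨x, b, hx, hb, rfl⟩
    by_cases hdet : (mat S x b).det = 0
    · rw [hdet, norm_zero, mul_zero]; exact hcD
    have hpos : 0 < ‖(mat S x b).det‖ := norm_pos_iff.mpr hdet
    rw [← le_div_iff₀ hpos]
    apply approxNumber_le (fun j => ∑ i, ((mat S x b)⁻¹ j i) • (b i).comp S) 0 (fun j => S (x j))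
    intro z hz
    rw [le_div_iff₀ hpos]
    have h := ustep_point S hx hb hdet hz
    simpa [sum_apply] using h
  rcases (approxNumber_nonneg m S).eq_or_lt with h | h
  · rw [← h, zero_mul]; exact hcD
  · rw [mul_comm, ← le_div_iff₀ h]
    apply csSup_le (Uset_nonempty m S)
    intro r hr
    rw [le_div_iff₀ h, mul_comm]
    exact key r hr

lemma prod_le_U (N : ℕ) (S : X →L[𝕜] Y) : ∏ m ∈ Finset.range N, approxNumber m S ≤ U N S := by
  induction N with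
  | zero => simp [U_zero]
  | succ N ih =>
    rw [Finset.prod_range_succ]
    calc (∏ m ∈ Finset.range N, approxNumber m S) * approxNumber N S
        ≤ U N S * approxNumber N S :=
          mul_le_mul_of_nonneg_right ih (approxNumber_nonneg _ _)
      _ = approxNumber N S * U N S := by ring
      _ ≤ _ := ustep N S

/-- The comparison of approximation numbers and Hilbert numbers with constant `c`:
`∏_{m ≤ n} a_m(S) ≤ c^(n+1) ∏_{k ≤ n} h_k(S)` and `a_n(S) ≤ c G_n(S)`. -/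
def Bound (c : ℝ) (S : X →L[𝕜] Y) (n : ℕ) : Prop :=
  ∏ m ∈ Finset.range (n + 1), approxNumber m S ≤
      c ^ (n + 1) * ∏ k ∈ Finset.range (n + 1), hilbertNumber k S ∧
    approxNumber n S ≤ c * geomMean n S

/-- **The general principle.** -/
theorem bound_of (S : X →L[𝕜] Y) (n : ℕ) {α β : ℝ} (hα : 0 ≤ α) (hβ : 0 ≤ β)
    (hX : Dom 𝕜 X (n + 1) α) (hY : Cod 𝕜 Y (n + 1) β) : Bound (α * β) S n := by
  have hU : U (n + 1) S ≤
      (α * β) ^ (n + 1) * ∏ k ∈ Finset.range (n + 1), hilbertNumber k S := by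
    apply csSup_le (Uset_nonempty _ S)
    rintro _ ⟨x, b, hx, hb, rfl⟩
    exact unit_det_le S hX hY hx hb
  have hprod := (prod_le_U (n + 1) S).trans hU
  refine ⟨hprod, ?_⟩
  have h1 : approxNumber n S ^ (n + 1) ≤ ∏ m ∈ Finset.range (n + 1), approxNumber m S := by
    have h2 : approxNumber n S ^ (n + 1) = ∏ _m ∈ Finset.range (n + 1), approxNumber n S := by
      rw [Finset.prod_const, Finset.card_range]
    rw [h2]
    apply Finset.prod_le_prod
    · intro i _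
      exact approxNumber_nonneg n S
    · intro i hi
      exact approxNumber_antitone S (Nat.lt_succ_iff.mp (Finset.mem_range.mp hi))
  set G := ∏ k ∈ Finset.range (n + 1), hilbertNumber k S with hG
  have hG0 : 0 ≤ G := Finset.prod_nonneg fun k _ => hilbertNumber_nonneg k S
  have h4 : approxNumber n S ^ (n + 1) ≤ (α * β) ^ (n + 1) * G := h1.trans hprod
  have h5 : geomMean n S ^ (n + 1) = G := by
    rw [geomMean, ← hG, ← Real.rpow_natCast, ← Real.rpow_mul hG0]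
    have : 1 / ((n : ℝ) + 1) * ((n + 1 : ℕ) : ℝ) = 1 := by
      push_cast
      field_simp
    rw [this, Real.rpow_one]
  have hg0 : 0 ≤ geomMean n S := Real.rpow_nonneg hG0 _
  rw [← h5, ← mul_pow] at h4
  exact le_of_pow_le_pow_left₀ (Nat.succ_ne_zero n) (by positivity) h4

end General

end Pool.Agent.KS6_50.HB
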