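import Pool.Agent.KS6_50.HB.General

set_option autoImplicit false
set_option linter.unusedSectionVars false

/-!
The domain and the codomain condition for inner product spaces, and the factorization principle.
-/

open scoped InnerProductSpace

namespace Pool.Agent.KS6_50.HB

open Pool.Agent.Results.MP_69de12_an.HilbertBound InnerProductSpace

section Dom

variable {𝕜 : Type*} [RCLike 𝕜] {H : Type*} [NormedAddCommGroup H] [InnerProductSpace 𝕜 H]

lemma admX_of_orth {N : ℕ} {z : Fin N → H} (ho : ∀ i j, i ≠ j → ⟪z i, z j⟫_𝕜 = 0)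
    (hn : ∀ j, ‖z j‖ ≤ 1) : AdmX 𝕜 z := by
  intro ξ
  have h1 : ‖∑ i, ξ i • z i‖ ^ 2 = ∑ i, ‖ξ i‖ ^ 2 * ‖z i‖ ^ 2 := by
    rw [@norm_sq_eq_re_inner 𝕜, sum_inner, map_sum]
    apply Finset.sum_congr rfl
    intro i _
    rw [inner_sum, Finset.sum_eq_single i]
    · rw [inner_smul_left, inner_smul_right, ← mul_assoc, RCLike.conj_mul, inner_self_eq_norm_sq_to_K]
      norm_cast
    · intro j _ hj
      rw [inner_smul_left, inner_smul_right, ho i j (Ne.symm hj), mul_zero, mul_zero]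
    · intro h
      exact absurd (Finset.mem_univ i) h
  rw [h1]
  apply Finset.sum_le_sum
  intro i _
  have := pow_le_one₀ (norm_nonneg (z i)) (hn i) (n := 2)
  exact mul_le_of_le_one_right (by positivity) this

lemma norm_gs_le {N : ℕ} (z : Fin N → H) (j : Fin N) : ‖gramSchmidt 𝕜 z j‖ ≤ ‖z j‖ := by
  have h1 : ⟪gramSchmidt 𝕜 z j, z j⟫_𝕜 = (‖gramSchmidt 𝕜 z j‖ : 𝕜) ^ 2 := by
    conv_lhs => rw [gramSchmidt_def'' 𝕜 z j]
    rw [inner_add_right, inner_self_eq_norm_sq_to_K, inner_sum, Finset.sum_eq_zero, add_zero]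
    intro i hi
    rw [inner_smul_right, gramSchmidt_orthogonal 𝕜 z (ne_of_gt (Finset.mem_Iio.1 hi)), mul_zero]
  have h2 := norm_inner_le_norm (𝕜 := 𝕜) (gramSchmidt 𝕜 z j) (z j)
  rw [h1, norm_pow, RCLike.norm_ofReal, abs_norm, sq] at h2
  rcases (norm_nonneg (gramSchmidt 𝕜 z j)).eq_or_lt with h | h
  · rw [← h]; exact norm_nonneg _
  · exact le_of_mul_le_mul_left h2 h

lemma det_gs {N : ℕ} (φ : Fin N → H →L[𝕜] 𝕜) (z : Fin N → H) :
    (Matrix.of fun i j => φ i (z j)).det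
      = (Matrix.of fun i j => φ i (gramSchmidt 𝕜 z j)).det := by
  let c : Fin N → Fin N → 𝕜 := fun k j =>
    ⟪gramSchmidt 𝕜 z k, z j⟫_𝕜 / (‖gramSchmidt 𝕜 z k‖ : 𝕜) ^ 2
  let V : Matrix (Fin N) (Fin N) 𝕜 := Matrix.of fun k j => if k = j then 1 else
    if k < j then c k j else 0
  have hV : V.det = 1 := by
    rw [Matrix.det_of_isUpperTriangular]
    · apply Finset.prod_eq_one
      intro i _
      simp [V]
    · intro i j hij
      have h1 : j < i := hij
      simp only [V, Matrix.of_apply]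
      rw [if_neg h1.ne', if_neg (not_lt.2 h1.le)]
  have e : (Matrix.of fun i j => φ i (z j)) = (Matrix.of fun i j => φ i (gramSchmidt 𝕜 z j)) * V := by
    ext i j
    rw [Matrix.mul_apply, Matrix.of_apply]
    conv_lhs => rw [gramSchmidt_def'' 𝕜 z j]
    rw [map_add, map_sum]
    have h2 : ∀ k, (Matrix.of fun i j => φ i (gramSchmidt 𝕜 z j)) i k * V k j
        = (if k = j then φ i (gramSchmidt 𝕜 z k) else 0) +
          (if k < j then φ i (c k j • gramSchmidt 𝕜 z k) else 0) := by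
      intro k
      simp only [V, Matrix.of_apply]
      by_cases h3 : k = j
      · subst h3; simp
      · rw [if_neg h3, if_neg h3, zero_add]
        by_cases h4 : k < j
        · rw [if_pos h4, if_pos h4, map_smul, smul_eq_mul, mul_comm]
        · rw [if_neg h4, if_neg h4, mul_zero]
    rw [Finset.sum_congr rfl fun k _ => h2 k, Finset.sum_add_distrib, Finset.sum_ite_eq',
      if_pos (Finset.mem_univ j), ← Finset.sum_filter]
    congr 1
    apply Finset.sum_congr _ fun k _ => rfl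
    ext k
    simp
  rw [e, Matrix.det_mul, hV, mul_one]

variable (𝕜 H) in
/-- **The domain condition for inner product spaces** (Hadamard's inequality). -/
theorem dom_inner (N : ℕ) : Dom 𝕜 H N 1 := by
  intro φ B hB z hz
  rw [det_gs, one_pow, one_mul]
  exact hB _ (admX_of_orth (fun i j h => gramSchmidt_orthogonal 𝕜 z h)
    (fun j => (norm_gs_le z j).trans (hz j)))

lemma norm_det_inner_comm {N : ℕ} (x y : Fin N → H) :
    ‖(Matrix.of fun i j => ⟪x i, y j⟫_𝕜).det‖ = ‖(Matrix.of fun i j => ⟪y i, x j⟫_𝕜).det‖ := by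
  have : (Matrix.of fun i j => ⟪y i, x j⟫_𝕜)
      = (Matrix.of fun i j => ⟪x i, y j⟫_𝕜).conjTranspose := by
    ext i j
    rw [Matrix.conjTranspose_apply, Matrix.of_apply, Matrix.of_apply]
    exact (inner_conj_symm (𝕜 := 𝕜) (y i) (x j)).symm
  rw [this, Matrix.det_conjTranspose, norm_star]

lemma admY_inner {N : ℕ} {x : Fin N → H} (hx : AdmX 𝕜 x) : AdmY (fun i => innerSL 𝕜 (x i)) := by
  intro y
  set s := ∑ i, ‖innerSL 𝕜 (x i) y‖ ^ 2 with hs
  have hs0 : 0 ≤ s := Finset.sum_nonneg fun i _ => by positivity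
  let c : Fin N → 𝕜 := fun i => ⟪x i, y⟫_𝕜
  have h1 : ⟪∑ i, c i • x i, y⟫_𝕜 = (s : 𝕜) := by
    rw [sum_inner, hs]
    push_cast
    apply Finset.sum_congr rfl
    intro i _
    rw [inner_smul_left, innerSL_apply_apply, RCLike.conj_mul]
  have h2 : s ≤ ‖∑ i, c i • x i‖ * ‖y‖ := by
    have := norm_inner_le_norm (𝕜 := 𝕜) (∑ i, c i • x i) y
    rw [h1, RCLike.norm_ofReal, abs_of_nonneg hs0] at this
    exact this
  have h3 : ‖∑ i, c i • x i‖ ^ 2 ≤ s := (hx c).trans_eq rfl
  rcases hs0.eq_or_lt with h | h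
  · rw [← h]; positivity
  · have h4 : s * s ≤ s * ‖y‖ ^ 2 := by
      calc s * s = s ^ 2 := by ring
        _ ≤ (‖∑ i, c i • x i‖ * ‖y‖) ^ 2 := pow_le_pow_left₀ hs0 h2 2
        _ = ‖∑ i, c i • x i‖ ^ 2 * ‖y‖ ^ 2 := by ring
        _ ≤ s * ‖y‖ ^ 2 := mul_le_mul_of_nonneg_right h3 (by positivity)
    exact le_of_mul_le_mul_left h4 h

variable (𝕜 H) in
/-- **The codomain condition for inner product spaces.** -/
theorem cod_inner (N : ℕ) : Cod 𝕜 H N 1 := by
  intro y B hB g hg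
  set E := Submodule.span 𝕜 (Set.range y) with hE
  have : FiniteDimensional 𝕜 E := FiniteDimensional.span_of_finite 𝕜 (Set.finite_range y)
  have : CompleteSpace E := FiniteDimensional.complete 𝕜 E
  let v : Fin N → E := fun i => (InnerProductSpace.toDual 𝕜 E).symm ((g i).comp E.subtypeL)
  have hv : ∀ i, ‖(v i : H)‖ ≤ 1 := by
    intro i
    have h1 : ‖v i‖ = ‖(g i).comp E.subtypeL‖ :=
      LinearIsometryEquiv.norm_map (InnerProductSpace.toDual 𝕜 E).symm _
    have h2 : ‖(g i).comp E.subtypeL‖ ≤ 1 := by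
      apply ContinuousLinearMap.opNorm_le_bound _ zero_le_one
      intro z
      exact (g i).le_of_opNorm_le (hg i) z
    rw [← Submodule.coe_norm, h1]
    exact h2
  have hvy : ∀ i j, g i (y j) = ⟪(v i : H), y j⟫_𝕜 := by
    intro i j
    have hy : y j ∈ E := Submodule.subset_span ⟨j, rfl⟩
    have h1 := InnerProductSpace.toDual_symm_apply (𝕜 := 𝕜) (x := (⟨y j, hy⟩ : E))
      (y := (g i).comp E.subtypeL)
    exact h1.symm
  have h := dom_inner 𝕜 H N (fun i => innerSL 𝕜 (y i)) B (fun x hx => by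
    have h1 := hB _ (admY_inner hx)
    simp only [innerSL_apply_apply] at h1 ⊢
    rw [norm_det_inner_comm]
    exact h1) (fun i => (v i : H)) hv
  simp only [innerSL_apply_apply] at h
  rw [norm_det_inner_comm] at h
  simp only [hvy]
  exact h

end Dom

section Factor

variable {𝕜 : Type*} [RCLike 𝕜] {X Y : Type*} [NormedAddCommGroup X] [NormedSpace 𝕜 X]
  [NormedAddCommGroup Y] [NormedSpace 𝕜 Y]

/-- the unit vectors of `X` are, `N` at a time, images of vectors of norm at most `D` under a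
contraction of the `N`-dimensional Euclidean space; this holds when all subspaces of dimension
at most `N` have Banach–Mazur distance at most `D` to Euclidean spaces -/
def EuclidDom (𝕜 : Type*) [RCLike 𝕜] (X : Type*) [NormedAddCommGroup X] [NormedSpace 𝕜 X]
    (N : ℕ) (D : ℝ) : Prop :=
  ∀ z : Fin N → X, (∀ j, ‖z j‖ ≤ 1) →
    ∃ (T : EuclideanSpace 𝕜 (Fin N) →L[𝕜] X) (w : Fin N → EuclideanSpace 𝕜 (Fin N)),
      (∀ v, ‖T v‖ ≤ ‖v‖) ∧ (∀ j, ‖w j‖ ≤ D) ∧ ∀ j, T (w j) = z j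

/-- the unit functionals on `Y` are, `N` at a time, of the form `w_j ∘ R` with a contraction
`R` into the `N`-dimensional Euclidean space and functionals `w_j` of norm at most `D`; this holds
when all quotients of dimension at most `N` have Banach–Mazur distance at most `D` to Euclidean
spaces -/
def EuclidCod (𝕜 : Type*) [RCLike 𝕜] (Y : Type*) [NormedAddCommGroup Y] [NormedSpace 𝕜 Y]
    (N : ℕ) (D : ℝ) : Prop :=
  ∀ g : Fin N → Y →L[𝕜] 𝕜, (∀ j, ‖g j‖ ≤ 1) →
    ∃ (R : Y →L[𝕜] EuclideanSpace 𝕜 (Fin N)) (w : Fin N → EuclideanSpace 𝕜 (Fin N) →L[𝕜] 𝕜),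
      (∀ y, ‖R y‖ ≤ ‖y‖) ∧ (∀ j, ‖w j‖ ≤ D) ∧ ∀ j y, w j (R y) = g j y

theorem dom_of_factor {N : ℕ} {D : ℝ} (hD : 0 < D) (h : EuclidDom 𝕜 X N D) : Dom 𝕜 X N D := by
  intro φ B hB z hz
  obtain ⟨T, w, hT, hw, hTw⟩ := h z hz
  have h1 := dom_inner 𝕜 (EuclideanSpace 𝕜 (Fin N)) N (fun i => (φ i).comp T) B
    (fun x hx => hB (fun j => T (x j)) (fun ξ => by
      have : ∑ i, ξ i • T (x i) = T (∑ i, ξ i • x i) := by
        rw [map_sum]
        exact Finset.sum_congr rfl fun i _ => (map_smul T _ _).symm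
      rw [this]
      exact (pow_le_pow_left₀ (norm_nonneg _) (hT _) 2).trans (hx ξ)))
    (fun j => ((D⁻¹ : ℝ) : 𝕜) • w j) (fun j => by
      rw [norm_smul, RCLike.norm_ofReal, abs_of_pos (by positivity), inv_mul_le_iff₀ hD, mul_one]
      exact hw j)
  have h2 := det_scale (fun i => (φ i).comp T) w ((D⁻¹ : ℝ) : 𝕜) 1
  simp only [one_smul, one_mul] at h2
  rw [h2, norm_mul, norm_pow, RCLike.norm_ofReal, abs_of_pos (by positivity), inv_pow,
    inv_mul_le_iff₀ (by positivity), one_pow, one_mul] at h1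
  simpa only [ContinuousLinearMap.comp_apply, hTw] using h1

theorem cod_of_factor {N : ℕ} {D : ℝ} (hD : 0 < D) (h : EuclidCod 𝕜 Y N D) : Cod 𝕜 Y N D := by
  intro y B hB g hg
  obtain ⟨R, w, hR, hw, hRw⟩ := h g hg
  have h1 := cod_inner 𝕜 (EuclideanSpace 𝕜 (Fin N)) N (fun j => R (y j)) B
    (fun b hb => hB (fun i => (b i).comp R) (fun z =>
      (hb (R z)).trans (pow_le_pow_left₀ (norm_nonneg _) (hR z) 2)))
    (fun j => ((D⁻¹ : ℝ) : 𝕜) • w j) (fun j => by
      rw [norm_smul, RCLike.norm_ofReal, abs_of_pos (by positivity), inv_mul_le_iff₀ hD, mul_one]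
      exact hw j)
  have h2 := det_scale w (fun j => R (y j)) 1 ((D⁻¹ : ℝ) : 𝕜)
  simp only [one_smul, mul_one] at h2
  rw [h2, norm_mul, norm_pow, RCLike.norm_ofReal, abs_of_pos (by positivity), inv_pow,
    inv_mul_le_iff₀ (by positivity), one_pow, one_mul] at h1
  simpa only [hRw] using h1

end Factor

end Pool.Agent.KS6_50.HB
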