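import Mathlib

set_option autoImplicit false
set_option linter.unusedSectionVars false

/-!
Sign averages and a Khintchine inequality.
-/

open scoped InnerProductSpace

namespace Pool.Agent.KS6_50.HB

/-- the average over all sign vectors -/
noncomputable def Ex : (N : ℕ) → ((Fin N → ℝ) → ℝ) → ℝ
  | 0, f => f Fin.elim0
  | N + 1, f => (Ex N (fun ε => f (Fin.cons 1 ε)) + Ex N (fun ε => f (Fin.cons (-1) ε))) / 2

lemma Ex_mono {N : ℕ} : ∀ {f g : (Fin N → ℝ) → ℝ}, (∀ ε, (∀ j, |ε j| = 1) → f ε ≤ g ε) →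
    Ex N f ≤ Ex N g := by
  induction N with
  | zero =>
    intro f g h
    exact h _ (fun j => j.elim0)
  | succ N ih =>
    intro f g h
    have h1 : Ex N (fun ε => f (Fin.cons 1 ε)) ≤ Ex N (fun ε => g (Fin.cons 1 ε)) :=
      ih fun ε hε => h _ (fun j => by refine Fin.cases ?_ (fun i => ?_) j <;> simp [hε])
    have h2 : Ex N (fun ε => f (Fin.cons (-1) ε)) ≤ Ex N (fun ε => g (Fin.cons (-1) ε)) :=
      ih fun ε hε => h _ (fun j => by refine Fin.cases ?_ (fun i => ?_) j <;> simp [hε])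
    simp only [Ex]
    linarith

lemma Ex_add {N : ℕ} : ∀ (f g : (Fin N → ℝ) → ℝ), Ex N (fun ε => f ε + g ε) = Ex N f + Ex N g := by
  induction N with
  | zero => intro f g; rfl
  | succ N ih =>
    intro f g
    simp only [Ex]
    rw [ih, ih]
    ring

lemma Ex_smul {N : ℕ} (c : ℝ) : ∀ (f : (Fin N → ℝ) → ℝ), Ex N (fun ε => c * f ε) = c * Ex N f := by
  induction N with
  | zero => intro f; rfl
  | succ N ih =>
    intro f
    simp only [Ex]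
    rw [ih, ih]
    ring

lemma Ex_const {N : ℕ} (c : ℝ) : Ex N (fun _ => c) = c := by
  induction N with
  | zero => rfl
  | succ N ih =>
    simp only [Ex]
    rw [ih]
    ring

lemma Ex_sum {N : ℕ} {ι : Type*} (s : Finset ι) (f : ι → (Fin N → ℝ) → ℝ) :
    Ex N (fun ε => ∑ k ∈ s, f k ε) = ∑ k ∈ s, Ex N (f k) := by
  classical
  induction s using Finset.induction_on with
  | empty => simp [Ex_const]
  | insert a s ha ih =>
    simp only [Finset.sum_insert ha]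
    rw [Ex_add, ih]

section Moments

variable {𝕜 : Type*} [RCLike 𝕜]

lemma Ex_two {N : ℕ} : ∀ (x : 𝕜) (a : Fin N → 𝕜),
    Ex N (fun ε => ‖x + ∑ j, (ε j : 𝕜) * a j‖ ^ 2) = ‖x‖ ^ 2 + ∑ j, ‖a j‖ ^ 2 := by
  induction N with
  | zero => intro x a; simp [Ex]
  | succ N ih =>
    intro x a
    simp only [Ex, Fin.sum_univ_succ, Fin.cons_zero, Fin.cons_succ]
    have h1 := ih (x + a 0) (fun j => a j.succ)
    have h2 := ih (x - a 0) (fun j => a j.succ)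
    have e1 : (fun ε : Fin N → ℝ => ‖x + (((1 : ℝ) : 𝕜) * a 0 + ∑ j, (ε j : 𝕜) * a j.succ)‖ ^ 2)
        = fun ε => ‖x + a 0 + ∑ j, (ε j : 𝕜) * a j.succ‖ ^ 2 := by
      funext ε
      congr 2
      simp only [RCLike.ofReal_one]
      ring
    have e2 : (fun ε : Fin N → ℝ => ‖x + (((-1 : ℝ) : 𝕜) * a 0 + ∑ j, (ε j : 𝕜) * a j.succ)‖ ^ 2)
        = fun ε => ‖x - a 0 + ∑ j, (ε j : 𝕜) * a j.succ‖ ^ 2 := by
      funext ε
      congr 2
      simp only [RCLike.ofReal_neg, RCLike.ofReal_one]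
      ring
    rw [e1, e2, h1, h2, @norm_add_sq 𝕜, @norm_sub_sq 𝕜]
    ring

lemma Ex_four {N : ℕ} : ∀ (x : 𝕜) (a : Fin N → 𝕜),
    Ex N (fun ε => ‖x + ∑ j, (ε j : 𝕜) * a j‖ ^ 4) ≤
      ‖x‖ ^ 4 + 6 * ‖x‖ ^ 2 * (∑ j, ‖a j‖ ^ 2) + 3 * (∑ j, ‖a j‖ ^ 2) ^ 2 := by
  induction N with
  | zero => intro x a; simp [Ex]
  | succ N ih =>
    intro x a
    simp only [Ex, Fin.sum_univ_succ, Fin.cons_zero, Fin.cons_succ]
    have h1 := ih (x + a 0) (fun j => a j.succ)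
    have h2 := ih (x - a 0) (fun j => a j.succ)
    have e1 : (fun ε : Fin N → ℝ => ‖x + (((1 : ℝ) : 𝕜) * a 0 + ∑ j, (ε j : 𝕜) * a j.succ)‖ ^ 4)
        = fun ε => ‖x + a 0 + ∑ j, (ε j : 𝕜) * a j.succ‖ ^ 4 := by
      funext ε
      congr 2
      simp only [RCLike.ofReal_one]
      ring
    have e2 : (fun ε : Fin N → ℝ => ‖x + (((-1 : ℝ) : 𝕜) * a 0 + ∑ j, (ε j : 𝕜) * a j.succ)‖ ^ 4)
        = fun ε => ‖x - a 0 + ∑ j, (ε j : 𝕜) * a j.succ‖ ^ 4 := by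
      funext ε
      congr 2
      simp only [RCLike.ofReal_neg, RCLike.ofReal_one]
      ring
    rw [e1, e2]
    set s := ∑ j : Fin N, ‖a j.succ‖ ^ 2 with hs
    have hs0 : 0 ≤ s := Finset.sum_nonneg fun j _ => by positivity
    have hp := @norm_add_sq 𝕜 _ _ _ _ x (a 0)
    have hm := @norm_sub_sq 𝕜 _ _ _ _ x (a 0)
    set c := RCLike.re ⟪x, a 0⟫_𝕜 with hc
    have hcle : c ^ 2 ≤ ‖x‖ ^ 2 * ‖a 0‖ ^ 2 := by
      rw [← mul_pow]
      apply sq_le_sq'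
      · have := neg_le_of_abs_le ((RCLike.abs_re_le_norm ⟪x, a 0⟫_𝕜).trans
          (norm_inner_le_norm (𝕜 := 𝕜) x (a 0)))
        exact this
      · exact (RCLike.re_le_norm _).trans (norm_inner_le_norm (𝕜 := 𝕜) x (a 0))
    have hp4 : ‖x + a 0‖ ^ 4 = (‖x‖ ^ 2 + 2 * c + ‖a 0‖ ^ 2) ^ 2 := by rw [← hp]; ring
    have hm4 : ‖x - a 0‖ ^ 4 = (‖x‖ ^ 2 - 2 * c + ‖a 0‖ ^ 2) ^ 2 := by rw [← hm]; ring
    rw [hp4, hp] at h1
    rw [hm4, hm] at h2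
    have hA : 0 ≤ ‖a 0‖ ^ 2 := by positivity
    have hX : 0 ≤ ‖x‖ ^ 2 := by positivity
    have h4 : ‖x‖ ^ 4 = (‖x‖ ^ 2) ^ 2 := by ring
    rw [h4]
    nlinarith [h1, h2, hcle, mul_nonneg hA hs0, mul_nonneg hA hA]

lemma pt {u r : ℝ} (hu : 0 ≤ u) (h1 : 1 ≤ r) (h2 : r ≤ 2) : u ^ 2 - 4 / 27 * u ^ 4 ≤ u ^ r := by
  rcases le_total u 1 with h | h
  · have h3 : u ^ (2 : ℝ) ≤ u ^ r := by
      rcases hu.eq_or_lt with h0 | h0
      · rw [← h0, Real.zero_rpow (by norm_num), Real.zero_rpow (by linarith)]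
      · exact Real.rpow_le_rpow_of_exponent_ge h0 h h2
    rw [Real.rpow_two] at h3
    have : 0 ≤ u ^ 4 := by positivity
    linarith
  · have h3 : u ^ (1 : ℝ) ≤ u ^ r := Real.rpow_le_rpow_of_exponent_le h h1
    rw [Real.rpow_one] at h3
    refine le_trans ?_ h3
    have h4 : 0 ≤ u * ((2 * u - 3) ^ 2 * (u + 3)) := by positivity
    nlinarith [h4]

/-- a Khintchine inequality -/
lemma khintchine {N : ℕ} (a : Fin N → 𝕜) {r : ℝ} (h1 : 1 ≤ r) (h2 : r ≤ 2) :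
    1 / 2 * Real.sqrt (∑ j, ‖a j‖ ^ 2) ^ r ≤ Ex N (fun ε => ‖∑ j, (ε j : 𝕜) * a j‖ ^ r) := by
  set s := ∑ j, ‖a j‖ ^ 2 with hs
  have hs0 : 0 ≤ s := Finset.sum_nonneg fun j _ => by positivity
  rcases hs0.eq_or_lt with h | h
  · rw [← h, Real.sqrt_zero, Real.zero_rpow (by linarith), mul_zero, ← Ex_const (N := N) 0]
    exact Ex_mono fun ε _ => by positivity
  set m := Real.sqrt s with hm
  have hm0 : 0 < m := Real.sqrt_pos.2 h
  have hmr : 0 < m ^ r := Real.rpow_pos_of_pos hm0 r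
  have hms : m ^ 2 = s := Real.sq_sqrt hs0
  have h3 : Ex N (fun ε => m ^ r * (m ^ 2)⁻¹ * ‖∑ j, (ε j : 𝕜) * a j‖ ^ 2 +
      (-(4 / 27 * (m ^ r * (m ^ 4)⁻¹))) * ‖∑ j, (ε j : 𝕜) * a j‖ ^ 4) ≤
      Ex N (fun ε => ‖∑ j, (ε j : 𝕜) * a j‖ ^ r) := by
    apply Ex_mono
    intro ε _
    have h4 := pt (u := ‖∑ j, (ε j : 𝕜) * a j‖ / m) (by positivity) h1 h2
    rw [Real.div_rpow (norm_nonneg _) hm0.le, le_div_iff₀ hmr] at h4
    refine le_trans (le_of_eq ?_) h4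
    field_simp
    ring
  refine le_trans ?_ h3
  rw [Ex_add, Ex_smul, Ex_smul]
  have h5 := Ex_two (0 : 𝕜) a
  have h6 := Ex_four (0 : 𝕜) a
  simp only [zero_add, norm_zero] at h5 h6
  rw [h5, ← hs]
  rw [← hs] at h6
  have h7 : Ex N (fun ε => ‖∑ j, (ε j : 𝕜) * a j‖ ^ 4) ≤ 3 * s ^ 2 := by
    refine h6.trans (le_of_eq ?_)
    ring
  have h8 : 4 / 27 * (m ^ r * (m ^ 4)⁻¹) * Ex N (fun ε => ‖∑ j, (ε j : 𝕜) * a j‖ ^ 4) ≤
      4 / 27 * (m ^ r * (m ^ 4)⁻¹) * (3 * s ^ 2) :=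
    mul_le_mul_of_nonneg_left h7 (by positivity)
  have h9 : m ^ r * (m ^ 2)⁻¹ * (0 ^ 2 + s) = m ^ r := by
    rw [hms]
    field_simp
    ring
  have h10 : 4 / 27 * (m ^ r * (m ^ 4)⁻¹) * (3 * s ^ 2) = 4 / 9 * m ^ r := by
    rw [← hms]
    field_simp
    ring
  rw [h9]
  rw [h10] at h8
  linarith

end Moments

end Pool.Agent.KS6_50.HB
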