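import Pool.Agent.KS6_50.HB.Dens

set_option autoImplicit false
set_option linter.unusedSectionVars false

/-!
The domain condition for `L_p` spaces.
-/

open MeasureTheory
open scoped InnerProductSpace ENNReal

namespace Pool.Agent.KS6_50.HB

open Pool.Agent.Results.MP_69de12_an.HilbertBound

variable {𝕜 : Type*} [RCLike 𝕜] {Ω : Type*} [MeasurableSpace Ω] {μ : Measure Ω} {p : ℝ≥0∞}
  [Fact (1 ≤ p)] {N : ℕ}

/-- the coordinates of a vector valued function -/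
noncomputable def co (f : Lp (EE 𝕜 N) p μ) (j : Fin N) : Lp 𝕜 p μ := (pr 𝕜 j).compLp f

/-- the vector valued function with given coordinates -/
noncomputable def asm (z : Fin N → Lp 𝕜 p μ) : Lp (EE 𝕜 N) p μ := ∑ j, (inc 𝕜 j).compLp (z j)

lemma compLp_sum {E F : Type*} [NormedAddCommGroup E] [NormedSpace 𝕜 E] [NormedAddCommGroup F]
    [NormedSpace 𝕜 F] {ι : Type*} (t : Finset ι) (L : E →L[𝕜] F) (g : ι → Lp E p μ) :
    L.compLp (∑ j ∈ t, g j) = ∑ j ∈ t, L.compLp (g j) :=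
  map_sum (L.compLpL p μ) g t

lemma compLp_smul {E F : Type*} [NormedAddCommGroup E] [NormedSpace 𝕜 E] [NormedAddCommGroup F]
    [NormedSpace 𝕜 F] (L : E →L[𝕜] F) (c : 𝕜) (g : Lp E p μ) :
    L.compLp (c • g) = c • L.compLp g :=
  map_smul (L.compLpL p μ) c g

lemma co_asm (z : Fin N → Lp 𝕜 p μ) (k : Fin N) : co (asm z) k = z k := by
  unfold co asm
  rw [compLp_sum, Finset.sum_eq_single k]
  · rw [comp_compLp]
    have : (pr 𝕜 k).comp (inc 𝕜 k) = ContinuousLinearMap.id 𝕜 𝕜 := by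
      ext
      rw [ContinuousLinearMap.comp_apply, pr_inc, if_pos rfl]
      rfl
    rw [this, id_compLp]
  · intro j _ hj
    rw [comp_compLp]
    have : (pr 𝕜 k).comp (inc 𝕜 j) = 0 := by
      ext
      rw [ContinuousLinearMap.comp_apply, pr_inc, if_neg (Ne.symm hj)]
      rfl
    rw [this]
    exact map_zero (ev (z j))
  · intro h
    exact absurd (Finset.mem_univ k) h

lemma norm_co_le (f : Lp (EE 𝕜 N) p μ) (j : Fin N) : ‖co f j‖ ≤ ‖f‖ := by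
  unfold co
  refine (ContinuousLinearMap.norm_compLp_le (pr 𝕜 j) f).trans ?_
  exact mul_le_of_le_one_left (norm_nonneg _) (norm_pr_le j)

/-- the determinant -/
noncomputable def dt (φ : Fin N → Lp 𝕜 p μ →L[𝕜] 𝕜) (f : Lp (EE 𝕜 N) p μ) : 𝕜 :=
  (Matrix.of fun i j => φ i (co f j)).det

lemma dt_asm (φ : Fin N → Lp 𝕜 p μ →L[𝕜] 𝕜) (z : Fin N → Lp 𝕜 p μ) :
    dt φ (asm z) = (Matrix.of fun i j => φ i (z j)).det := by
  unfold dt
  simp only [co_asm]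

lemma dt_smul (φ : Fin N → Lp 𝕜 p μ →L[𝕜] 𝕜) (c : 𝕜) (f : Lp (EE 𝕜 N) p μ) :
    dt φ (c • f) = c ^ N * dt φ f := by
  have h := det_scale φ (co f) c 1
  simp only [one_smul, one_mul] at h
  unfold dt
  rw [← h]
  congr 1
  ext i j
  simp only [Matrix.of_apply, co, compLp_smul]

lemma co_B (ξ : EE 𝕜 N) (τ : ℝ) (f : Lp (EE 𝕜 N) p μ) (j : Fin N) :
    co ((Bop ξ τ).compLp f) j = co f j + (((τ - 1 : ℝ) : 𝕜) * ξ j) •
      ∑ k, (starRingEnd 𝕜 (ξ k)) • co f k := by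
  unfold co
  rw [comp_compLp, pr_Bop, innerSL_eq]
  have h := map_add (ev (F := 𝕜) f) (pr 𝕜 j) ((((τ - 1 : ℝ) : 𝕜) * ξ j) •
    ∑ k, (starRingEnd 𝕜 (ξ k)) • pr 𝕜 k)
  rw [map_smul, map_sum] at h
  simp only [map_smul] at h
  exact h

lemma dt_B (φ : Fin N → Lp 𝕜 p μ →L[𝕜] 𝕜) {ξ : EE 𝕜 N} (hξ : ‖ξ‖ = 1) (τ : ℝ)
    (f : Lp (EE 𝕜 N) p μ) : dt φ ((Bop ξ τ).compLp f) = τ * dt φ f := by
  have e : (Matrix.of fun i j => φ i (co ((Bop ξ τ).compLp f) j))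
      = (Matrix.of fun i j => φ i (co f j)) *
        (1 + Matrix.replicateCol Unit (fun k => starRingEnd 𝕜 (ξ k)) *
          Matrix.replicateRow Unit (fun j => ((τ - 1 : ℝ) : 𝕜) * ξ j)) := by
    ext i j
    rw [Matrix.mul_add, Matrix.mul_one, Matrix.add_apply, Matrix.of_apply, co_B, map_add,
      map_smul, map_sum, Matrix.of_apply, Matrix.mul_apply]
    congr 1
    rw [smul_eq_mul, Finset.mul_sum]
    apply Finset.sum_congr rfl
    intro k _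
    rw [map_smul, smul_eq_mul, Matrix.of_apply, Matrix.mul_apply]
    simp only [Matrix.replicateCol_apply, Matrix.replicateRow_apply, Finset.univ_unique,
      Finset.sum_singleton]
    ring
  unfold dt
  rw [e, Matrix.det_mul, Matrix.det_one_add_replicateCol_mul_replicateRow]
  have h2 : (fun j => ((τ - 1 : ℝ) : 𝕜) * ξ j) ⬝ᵥ (fun k => starRingEnd 𝕜 (ξ k))
      = ((τ - 1 : ℝ) : 𝕜) := by
    unfold dotProduct
    have h3 : ∑ k, ξ k * starRingEnd 𝕜 (ξ k) = (1 : 𝕜) := by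
      have h4 : ∀ k, ξ k * starRingEnd 𝕜 (ξ k) = ((‖ξ k‖ ^ 2 : ℝ) : 𝕜) := by
        intro k
        rw [RCLike.mul_conj]
        push_cast
        rfl
      rw [Finset.sum_congr rfl fun k _ => h4 k, ← RCLike.ofReal_sum, ← EuclideanSpace.norm_sq_eq,
        hξ]
      simp
    calc ∑ i, ((τ - 1 : ℝ) : 𝕜) * ξ i * starRingEnd 𝕜 (ξ i)
        = ((τ - 1 : ℝ) : 𝕜) * ∑ k, ξ k * starRingEnd 𝕜 (ξ k) := by
          rw [Finset.mul_sum]
          exact Finset.sum_congr rfl fun k _ => by ring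
      _ = _ := by rw [h3, mul_one]
  rw [h2]
  push_cast
  ring

lemma norm_asm_le (hp : p ≠ ∞) (hN : 0 < N) {z : Fin N → Lp 𝕜 p μ} (hz : ∀ j, ‖z j‖ ≤ 1) :
    ‖asm z‖ ≤ (N : ℝ) ^ (max (1 / 2) (1 / p.toReal)) := by
  have hP := P_pos (p := p) hp
  have hNr : (0 : ℝ) < N := by exact_mod_cast hN
  set P := p.toReal with hPd
  set s := P / 2 with hs
  have hs0 : 0 < s := by positivity
  have hae : ∀ᵐ ω ∂μ, ∀ j, (asm z ω) j = z j ω := by
    rw [ae_all_iff]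
    intro j
    have h1 := (pr 𝕜 j).coeFn_compLp (asm z)
    have h2 : (pr 𝕜 j).compLp (asm z) = z j := co_asm z j
    rw [h2] at h1
    filter_upwards [h1] with ω h
    rw [h]
    rfl
  have h1 : ‖asm z‖ ^ P ≤ (N : ℝ) ^ (max s 1) := by
    rw [norm_rpow hp]
    have h2 : ∀ j, Integrable (fun ω => ‖z j ω‖ ^ P) μ := fun j => integrable_rpow hp (z j)
    have h3 : ∫ ω, ‖asm z ω‖ ^ P ∂μ ≤ ∫ ω, (N : ℝ) ^ (max s 1 - 1) * ∑ j, ‖z j ω‖ ^ P ∂μ := by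
      apply integral_mono_ae (integrable_rpow hp (asm z))
        ((integrable_finsetSum _ fun j _ => h2 j).const_mul _)
      filter_upwards [hae] with ω h
      have h4 := sum_rpow_le (fun j => ‖z j ω‖ ^ 2) (fun j => by positivity) hs0
      have h5 : ‖asm z ω‖ ^ P = (∑ j, ‖z j ω‖ ^ 2) ^ s := by
        rw [rpow_half (norm_nonneg _), EuclideanSpace.norm_sq_eq]
        congr 1
        exact Finset.sum_congr rfl fun j _ => by rw [h j]
      have h6 : ∀ j, (‖z j ω‖ ^ 2) ^ s = ‖z j ω‖ ^ P := fun j => (rpow_half (norm_nonneg _)).symm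
      rw [h5]
      simp only [h6] at h4
      exact h4
    refine h3.trans ?_
    rw [integral_const_mul, integral_finsetSum _ fun j _ => h2 j]
    have h4 : ∑ j, ∫ ω, ‖z j ω‖ ^ P ∂μ ≤ N := by
      have h5 : ∀ j, ∫ ω, ‖z j ω‖ ^ P ∂μ ≤ 1 := by
        intro j
        have := norm_rpow hp (z j)
        rw [← hPd] at this
        rw [← this]
        exact Real.rpow_le_one (norm_nonneg _) (hz j) hP.le
      calc ∑ j, ∫ ω, ‖z j ω‖ ^ P ∂μ ≤ ∑ _j : Fin N, (1 : ℝ) := Finset.sum_le_sum fun j _ => h5 j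
        _ = N := by simp
    calc (N : ℝ) ^ (max s 1 - 1) * ∑ j, ∫ ω, ‖z j ω‖ ^ P ∂μ
        ≤ (N : ℝ) ^ (max s 1 - 1) * N := mul_le_mul_of_nonneg_left h4 (by positivity)
      _ = (N : ℝ) ^ (max s 1) := by
          conv_lhs => rw [← Real.rpow_one (N : ℝ), ← Real.rpow_mul hNr.le, one_mul,
            ← Real.rpow_add hNr]
          congr 1
          ring
  have h7 := Real.rpow_le_rpow (Real.rpow_nonneg (norm_nonneg _) _) h1
    (show 0 ≤ P⁻¹ by positivity)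
  rw [Real.rpow_rpow_inv (norm_nonneg _) hP.ne', ← Real.rpow_mul hNr.le] at h7
  have h8 : max s 1 * P⁻¹ = max (1 / 2) (1 / P) := by
    have e1 : s * P⁻¹ = 1 / 2 := by rw [hs]; field_simp
    have e2 : 1 * P⁻¹ = 1 / P := by ring
    rw [max_mul_of_nonneg _ _ (by positivity : (0:ℝ) ≤ P⁻¹), e1, e2]
  rw [h8] at h7
  exact h7

/-- `∑ η_i f_i` as a component -/
lemma sum_co (η : Fin N → 𝕜) (f : Lp (EE 𝕜 N) p μ) :
    ∑ i, η i • co f i
      = (innerSL 𝕜 (WithLp.toLp 2 (fun i => starRingEnd 𝕜 (η i)) : EE 𝕜 N)).compLp f := by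
  rw [innerSL_eq]
  have h := map_sum (ev (F := 𝕜) f) (fun k => (η k) • pr 𝕜 k) Finset.univ
  simp only [map_smul] at h
  simp only [RCLike.conj_conj]
  exact h.symm

lemma admX_co (f : Lp (EE 𝕜 N) p μ) {K : ℝ} (hK : 0 < K)
    (h : ∀ ξ : EE 𝕜 N, ‖ξ‖ = 1 → ‖(innerSL 𝕜 ξ).compLp f‖ ≤ K) :
    AdmX 𝕜 (fun j => ((K⁻¹ : ℝ) : 𝕜) • co f j) := by
  intro η
  have h1 : ∑ i, η i • ((K⁻¹ : ℝ) : 𝕜) • co f i = ((K⁻¹ : ℝ) : 𝕜) • ∑ i, η i • co f i := by
    rw [Finset.smul_sum]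
    exact Finset.sum_congr rfl fun i _ => smul_comm _ _ _
  rw [h1, sum_co]
  set ζ : EE 𝕜 N := WithLp.toLp 2 (fun i => starRingEnd 𝕜 (η i)) with hζ
  have h2 : ‖ζ‖ ^ 2 = ∑ i, ‖η i‖ ^ 2 := by
    rw [EuclideanSpace.norm_sq_eq]
    exact Finset.sum_congr rfl fun i _ => by rw [hζ]; simp
  rw [← h2, norm_smul, RCLike.norm_ofReal, abs_of_nonneg (by positivity)]
  apply pow_le_pow_left₀ (by positivity)
  rw [inv_mul_le_iff₀ hK]
  by_cases h0 : ζ = 0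
  · rw [h0, map_zero]
    have h3 : (0 : EE 𝕜 N →L[𝕜] 𝕜).compLp f = 0 := map_zero (ev f)
    rw [h3, norm_zero, norm_zero, mul_zero]
  · have hn : 0 < ‖ζ‖ := norm_pos_iff.2 h0
    have h3 := h (((‖ζ‖⁻¹ : ℝ) : 𝕜) • ζ) (by
      rw [norm_smul, RCLike.norm_ofReal, abs_of_nonneg (by positivity), inv_mul_cancel₀ hn.ne'])
    have h4 : innerSL 𝕜 (((‖ζ‖⁻¹ : ℝ) : 𝕜) • ζ) = ((‖ζ‖⁻¹ : ℝ) : 𝕜) • innerSL 𝕜 ζ := by
      ext v
      simp
    rw [h4] at h3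
    have h5 : (((‖ζ‖⁻¹ : ℝ) : 𝕜) • innerSL 𝕜 ζ).compLp f
        = ((‖ζ‖⁻¹ : ℝ) : 𝕜) • (innerSL 𝕜 ζ).compLp f := map_smul (ev f) _ _
    rw [h5, norm_smul, RCLike.norm_ofReal, abs_of_nonneg (by positivity),
      inv_mul_le_iff₀ hn] at h3
    linarith

end Pool.Agent.KS6_50.HB
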