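import Mathlib

set_option autoImplicit false

/-!
Scalar inequalities for the change of density argument.
-/

namespace Pool.Agent.KS6_50.HB

lemma exp_neg_le {v : ℝ} (hv : 0 ≤ v) : Real.exp (-v) ≤ 1 - v + v ^ 2 / 2 := by
  have h1 := Real.quadratic_le_exp_of_nonneg hv
  have h2 : 0 < 1 + v + v ^ 2 / 2 := by positivity
  rw [Real.exp_neg]
  have h3 : (Real.exp v)⁻¹ ≤ (1 + v + v ^ 2 / 2)⁻¹ := inv_anti₀ h2 h1
  refine h3.trans ?_
  rw [inv_le_iff_one_le_mul₀ h2]
  nlinarith [sq_nonneg (v ^ 2)]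

lemma pow_upper {σ u s : ℝ} (hσ0 : 0 ≤ σ) (hσ1 : σ < 1) (hu0 : 0 ≤ u) (hu1 : u ≤ 1) (hs : 0 < s) :
    (1 - σ * u) ^ s ≤ 1 - s * σ * u + (s * σ) ^ 2 / 2 * u := by
  have h0 : 0 ≤ 1 - σ * u := by nlinarith
  have h1 : 1 - σ * u ≤ Real.exp (-(σ * u)) := by
    have := Real.add_one_le_exp (-(σ * u)); linarith
  have h2 : (1 - σ * u) ^ s ≤ Real.exp (-(s * σ * u)) := by
    refine (Real.rpow_le_rpow h0 h1 hs.le).trans ?_
    rw [← Real.exp_mul]
    apply le_of_eq
    congr 1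
    ring
  have h3 := exp_neg_le (v := s * σ * u) (by positivity)
  have h4 : u ^ 2 ≤ u := by nlinarith
  have h5 : (s * σ * u) ^ 2 / 2 ≤ (s * σ) ^ 2 / 2 * u := by
    have : (s * σ * u) ^ 2 / 2 = (s * σ) ^ 2 / 2 * u ^ 2 := by ring
    rw [this]
    exact mul_le_mul_of_nonneg_left h4 (by positivity)
  linarith

lemma log_lower {x : ℝ} (hx : x < 1) : -(x / (1 - x)) ≤ Real.log (1 - x) := by
  have h := Real.one_sub_inv_le_log_of_pos (show 0 < 1 - x by linarith)
  have h2 : 1 - (1 - x)⁻¹ = -(x / (1 - x)) := by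
    have : 1 - x ≠ 0 := by linarith
    field_simp
    ring
  linarith

lemma pow_lower {σ ε q : ℝ} (hσ1 : σ < 1) (hε1 : ε < 1) (hq : 0 ≤ q) :
    1 - q * (2 * (ε / (1 - ε)) + σ / (1 - σ)) ≤ (1 - ε) ^ (2 * q) * (1 - σ) ^ q := by
  rw [Real.rpow_def_of_pos (by linarith), Real.rpow_def_of_pos (by linarith), ← Real.exp_add]
  have h1 := Real.add_one_le_exp (Real.log (1 - ε) * (2 * q) + Real.log (1 - σ) * q)
  have h2 := log_lower hσ1
  have h3 := log_lower hε1
  have h4 := mul_le_mul_of_nonneg_right h2 hq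
  have h5 := mul_le_mul_of_nonneg_right h3 (show 0 ≤ 2 * q by positivity)
  nlinarith

/-- the error factor -/
noncomputable def kap (s σ : ℝ) : ℝ :=
  (2 * (σ / (1 - σ ^ 2)) + 1 / (1 - σ)) / (1 - s * σ / 2)

lemma kap_pos {s σ : ℝ} (h0 : 0 < σ) (h1 : σ < 1) (h2 : s * σ < 2) : 0 < kap s σ := by
  unfold kap
  have : σ ^ 2 < 1 := by nlinarith
  apply div_pos
  · have h3 : 0 < 1 / (1 - σ) := by apply div_pos one_pos; linarith
    have h4 : 0 ≤ σ / (1 - σ ^ 2) := div_nonneg h0.le (by linarith)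
    linarith
  · linarith

lemma kap_tendsto (s : ℝ) : Filter.Tendsto (kap s) (nhds 0) (nhds 1) := by
  have h : ContinuousAt (kap s) 0 := by
    unfold kap
    apply ContinuousAt.div
    · apply ContinuousAt.add
      · apply ContinuousAt.mul continuousAt_const
        apply ContinuousAt.div continuousAt_id (by fun_prop)
        norm_num
      · apply ContinuousAt.div continuousAt_const (by fun_prop)
        norm_num
    · fun_prop
    · norm_num
  have h2 : kap s 0 = 1 := by simp [kap]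
  have h3 := h.tendsto
  rw [h2] at h3
  exact h3

/-- from the near-maximality to the bound for the density integral -/
lemma dens_bound {A I σ s : ℝ} {N : ℕ} (hN : 0 < N) (hA : 0 ≤ A) (hs : 0 < s) (h0 : 0 < σ)
    (h1 : σ < 1) (h2 : s * σ < 2)
    (hup : A * ((1 - σ ^ 2) ^ (2 * (s / N)) * (1 - σ) ^ (s / N))
      ≤ A - s * σ * I + (s * σ) ^ 2 / 2 * I) : I ≤ A * (kap s σ / N) := by
  have hNr : (0 : ℝ) < N := by exact_mod_cast hN
  have hσ2 : σ ^ 2 < 1 := by nlinarith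
  have h3 := pow_lower (σ := σ) (ε := σ ^ 2) (q := s / N) h1 hσ2 (by positivity)
  have h4 := mul_le_mul_of_nonneg_left h3 hA
  have h5 : A * (1 - s / N * (2 * (σ ^ 2 / (1 - σ ^ 2)) + σ / (1 - σ)))
      ≤ A - s * σ * I + (s * σ) ^ 2 / 2 * I := h4.trans hup
  have h6 : s * σ * (I * (1 - s * σ / 2)) ≤
      s * σ * (A / N * (2 * (σ / (1 - σ ^ 2)) + 1 / (1 - σ))) := by
    have e1 : s * σ * (A / N * (2 * (σ / (1 - σ ^ 2)) + 1 / (1 - σ)))
        = A * (s / N * (2 * (σ ^ 2 / (1 - σ ^ 2)) + σ / (1 - σ))) := by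
      have : 1 - σ ^ 2 ≠ 0 := by linarith
      have : 1 - σ ≠ 0 := by linarith
      field_simp
    rw [e1]
    linarith
  have h7 := le_of_mul_le_mul_left h6 (by positivity)
  have h8 : 0 < 1 - s * σ / 2 := by linarith
  have h9 : I ≤ (A / N * (2 * (σ / (1 - σ ^ 2)) + 1 / (1 - σ))) / (1 - s * σ / 2) := by
    rw [le_div_iff₀ h8]; exact h7
  refine h9.trans (le_of_eq ?_)
  unfold kap
  field_simp

/-- the pointwise inequality for small exponents -/
lemma pow_small {u lam s : ℝ} (hu : 0 ≤ u) (hl : 0 < lam) (hs : 0 < s) (hs1 : s ≤ 1) :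
    u ^ s * lam ^ (1 - s) ≤ s * u + (1 - s) * lam :=
  Real.geom_mean_le_arith_mean2_weighted hs.le (by linarith) hu hl.le (by ring)

lemma sum_rpow_small {ι : Type*} (t : Finset ι) (a : ι → ℝ) (ha : ∀ i, 0 ≤ a i) {s : ℝ}
    (hs : 0 < s) (hs1 : s ≤ 1) : (∑ i ∈ t, a i) ^ s ≤ ∑ i ∈ t, a i ^ s := by
  classical
  induction t using Finset.induction_on with
  | empty => simp [Real.zero_rpow hs.ne']
  | insert i t hi ih =>
    rw [Finset.sum_insert hi, Finset.sum_insert hi]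
    refine le_trans ?_ (add_le_add_right ih _)
    have h1 := ha i
    have h2 : 0 ≤ ∑ j ∈ t, a j := Finset.sum_nonneg fun j _ => ha j
    have h3 := NNReal.rpow_add_le_add_rpow ⟨a i, h1⟩ ⟨∑ j ∈ t, a j, h2⟩ hs.le hs1
    exact_mod_cast h3

lemma sum_rpow_le {N : ℕ} (a : Fin N → ℝ) (ha : ∀ i, 0 ≤ a i) {s : ℝ} (hs : 0 < s) :
    (∑ i, a i) ^ s ≤ (N : ℝ) ^ (max s 1 - 1) * ∑ i, a i ^ s := by
  rcases le_total 1 s with h | h
  · rw [max_eq_left h]
    have := Real.rpow_sum_le_const_mul_sum_rpow Finset.univ a h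
    simpa [abs_of_nonneg (ha _)] using this
  · rw [max_eq_right h, sub_self, Real.rpow_zero, one_mul]
    exact sum_rpow_small _ a ha hs h

end Pool.Agent.KS6_50.HB
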