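import Pool.Agent.KS6_50.HB.General
import Pool.Agent.KS6_50.HB.Scalar

set_option autoImplicit false
set_option linter.unusedSectionVars false

/-!
`L_p` spaces with values in a Euclidean space.
-/

open MeasureTheory
open scoped InnerProductSpace ENNReal

namespace Pool.Agent.KS6_50.HB

open Pool.Agent.Results.MP_69de12_an.HilbertBound

section Basic

variable {Ω : Type*} [MeasurableSpace Ω] {μ : Measure Ω} {p : ℝ≥0∞} [Fact (1 ≤ p)]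

lemma p_pos : 0 < p := lt_of_lt_of_le one_pos (Fact.out : 1 ≤ p)

lemma P_pos (hp : p ≠ ∞) : 0 < p.toReal := ENNReal.toReal_pos p_pos.ne' hp

lemma norm_rpow {F : Type*} [NormedAddCommGroup F] (hp : p ≠ ∞) (f : Lp F p μ) :
    ‖f‖ ^ p.toReal = ∫ ω, ‖f ω‖ ^ p.toReal ∂μ := by
  have h0 : 0 ≤ ∫ ω, ‖f ω‖ ^ p.toReal ∂μ :=
    integral_nonneg fun ω => Real.rpow_nonneg (norm_nonneg _) _
  rw [Lp.norm_def, (Lp.memLp f).eLpNorm_eq_integral_rpow_norm p_pos.ne' hp,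
    ENNReal.toReal_ofReal (Real.rpow_nonneg h0 _), Real.rpow_inv_rpow h0 (P_pos hp).ne']

lemma integrable_rpow {F : Type*} [NormedAddCommGroup F] (hp : p ≠ ∞) (f : Lp F p μ) :
    Integrable (fun ω => ‖f ω‖ ^ p.toReal) μ :=
  (Lp.memLp f).integrable_norm_rpow p_pos.ne' hp

end Basic

section Maps

variable {𝕜 : Type*} [RCLike 𝕜] {Ω : Type*} [MeasurableSpace Ω] {μ : Measure Ω} {p : ℝ≥0∞}
  [Fact (1 ≤ p)] {E F G : Type*} [NormedAddCommGroup E] [NormedSpace 𝕜 E] [NormedAddCommGroup F]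
  [NormedSpace 𝕜 F] [NormedAddCommGroup G] [NormedSpace 𝕜 G]

/-- `L ↦ L ∘ f` -/
noncomputable def ev (f : Lp E p μ) : (E →L[𝕜] F) →ₗ[𝕜] Lp F p μ where
  toFun L := L.compLp f
  map_add' L L' := ContinuousLinearMap.add_compLp L L' f
  map_smul' c L := ContinuousLinearMap.smul_compLp c L f

lemma ev_apply (f : Lp E p μ) (L : E →L[𝕜] F) : ev f L = L.compLp f := rfl

lemma comp_compLp (L : F →L[𝕜] G) (M : E →L[𝕜] F) (f : Lp E p μ) :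
    L.compLp (M.compLp f) = (L.comp M).compLp f := by
  apply Lp.ext
  filter_upwards [L.coeFn_compLp (M.compLp f), M.coeFn_compLp f, (L.comp M).coeFn_compLp f]
    with ω h1 h2 h3
  rw [h1, h2, h3]
  rfl

lemma id_compLp (f : Lp E p μ) : (ContinuousLinearMap.id 𝕜 E).compLp f = f := by
  apply Lp.ext
  filter_upwards [(ContinuousLinearMap.id 𝕜 E).coeFn_compLp f] with ω h1
  rw [h1]
  rfl

lemma norm_compLp_le_one {L : E →L[𝕜] F} (hL : ‖L‖ ≤ 1) (f : Lp E p μ) : ‖L.compLp f‖ ≤ ‖f‖ :=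
  (ContinuousLinearMap.norm_compLp_le L f).trans (mul_le_of_le_one_left (norm_nonneg _) hL)

end Maps

section Euclid

variable {𝕜 : Type*} [RCLike 𝕜] {N : ℕ}

/-- the Euclidean space -/
abbrev EE (𝕜 : Type*) [RCLike 𝕜] (N : ℕ) : Type _ := EuclideanSpace 𝕜 (Fin N)

/-- the coordinates -/
noncomputable def pr (𝕜 : Type*) [RCLike 𝕜] {N : ℕ} (j : Fin N) : EE 𝕜 N →L[𝕜] 𝕜 :=
  EuclideanSpace.proj j

lemma pr_apply (j : Fin N) (v : EE 𝕜 N) : pr 𝕜 j v = v j := rfl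

/-- the inclusions -/
noncomputable def inc (𝕜 : Type*) [RCLike 𝕜] {N : ℕ} (j : Fin N) : 𝕜 →L[𝕜] EE 𝕜 N :=
  ContinuousLinearMap.toSpanSingleton 𝕜 (EuclideanSpace.single j (1 : 𝕜))

lemma pr_inc (j k : Fin N) (c : 𝕜) : pr 𝕜 k (inc 𝕜 j c) = if k = j then c else 0 := by
  rw [pr_apply, inc, ContinuousLinearMap.toSpanSingleton_apply]
  by_cases h : k = j
  · subst h; simp
  · simp [h]

lemma norm_pr_le (j : Fin N) : ‖pr 𝕜 j‖ ≤ 1 := by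
  apply ContinuousLinearMap.opNorm_le_bound _ zero_le_one
  intro v
  rw [one_mul, pr_apply]
  exact PiLp.norm_apply_le v j

/-- the shrinking map in the direction `ξ` -/
noncomputable def Bop (ξ : EE 𝕜 N) (τ : ℝ) : EE 𝕜 N →L[𝕜] EE 𝕜 N :=
  ContinuousLinearMap.id 𝕜 _ + ((τ - 1 : ℝ) : 𝕜) • (innerSL 𝕜 ξ).smulRight ξ

lemma Bop_apply (ξ : EE 𝕜 N) (τ : ℝ) (v : EE 𝕜 N) :
    Bop ξ τ v = v + (((τ - 1 : ℝ) : 𝕜) * ⟪ξ, v⟫_𝕜) • ξ := by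
  simp [Bop, smul_smul]

lemma norm_Bop {ξ : EE 𝕜 N} (hξ : ‖ξ‖ = 1) (τ : ℝ) (v : EE 𝕜 N) :
    ‖Bop ξ τ v‖ ^ 2 = ‖v‖ ^ 2 - (1 - τ ^ 2) * ‖⟪ξ, v⟫_𝕜‖ ^ 2 := by
  rw [Bop_apply, @norm_add_sq 𝕜, norm_smul, hξ, mul_one, norm_mul, RCLike.norm_ofReal,
    inner_smul_right, mul_pow, sq_abs]
  have h1 : RCLike.re (((τ - 1 : ℝ) : 𝕜) * ⟪ξ, v⟫_𝕜 * ⟪v, ξ⟫_𝕜) = (τ - 1) * ‖⟪ξ, v⟫_𝕜‖ ^ 2 := by
    rw [mul_assoc, RCLike.re_ofReal_mul, inner_mul_symm_re_eq_norm, norm_mul,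
      norm_inner_symm v ξ, sq]
  rw [h1]
  ring

/-- `pr j ∘ Bop` -/
lemma pr_Bop (ξ : EE 𝕜 N) (τ : ℝ) (j : Fin N) :
    (pr 𝕜 j).comp (Bop ξ τ) = pr 𝕜 j + (((τ - 1 : ℝ) : 𝕜) * ξ j) • innerSL 𝕜 ξ := by
  ext v
  rw [ContinuousLinearMap.comp_apply, Bop_apply, map_add, map_smul]
  simp only [pr_apply, add_apply, smul_apply, innerSL_apply_apply, smul_eq_mul]
  ring

lemma innerSL_eq (ξ : EE 𝕜 N) : innerSL 𝕜 ξ = ∑ k, (starRingEnd 𝕜 (ξ k)) • pr 𝕜 k := by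
  ext v
  rw [innerSL_apply_apply, sum_apply, PiLp.inner_apply]
  apply Finset.sum_congr rfl
  intro k _
  rw [smul_apply, pr_apply, smul_eq_mul, RCLike.inner_apply, mul_comm]

end Euclid

end Pool.Agent.KS6_50.HB
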