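import Pool.Agent.KS6_50.HB.Khin
import Pool.Graph.R_pool_sql_team_seeded_1acbe0a2.Y332.HN.Sharp

set_option autoImplicit false
set_option linter.unusedSectionVars false

/-!
The formal identities `ℓ_p → ℓ_q`, `p ≤ 2 ≤ q`.
-/

open scoped InnerProductSpace ENNReal

namespace Pool.Agent.KS6_50.HB

open Pool.Agent.Results.MP_69de12_an.HilbertBound Pool.Agent.Y332.HN

variable {𝕜 : Type*} [RCLike 𝕜]

/-- the Euclidean norm -/
noncomputable def nn {N : ℕ} (v : Fin N → 𝕜) : ℝ := Real.sqrt (∑ j, ‖v j‖ ^ 2)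

lemma nn_nonneg {N : ℕ} (v : Fin N → 𝕜) : 0 ≤ nn v := Real.sqrt_nonneg _

lemma nn_sq {N : ℕ} (v : Fin N → 𝕜) : nn v ^ 2 = ∑ j, ‖v j‖ ^ 2 :=
  Real.sq_sqrt (Finset.sum_nonneg fun _ _ => by positivity)

lemma pt2 {u r : ℝ} (hu : 0 ≤ u) (h1 : 1 ≤ r) (h2 : r ≤ 2) : u ^ 2 ≤ u ^ r + u ^ (2 * r) := by
  rw [← Real.rpow_two]
  have e1 : 0 ≤ u ^ r := Real.rpow_nonneg hu _
  have e2 : 0 ≤ u ^ (2 * r) := Real.rpow_nonneg hu _
  rcases le_total u 1 with h | h
  · have h3 : u ^ (2 : ℝ) ≤ u ^ r := by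
      rcases hu.eq_or_lt with h0 | h0
      · rw [← h0, Real.zero_rpow (by norm_num), Real.zero_rpow (by linarith)]
      · exact Real.rpow_le_rpow_of_exponent_ge h0 h h2
    linarith
  · have h3 : u ^ (2 : ℝ) ≤ u ^ (2 * r) :=
      Real.rpow_le_rpow_of_exponent_le h (by linarith)
    linarith

/-- the abstract estimate -/
lemma sum_sq_le {N : ℕ} (hN : 0 < N) (a : ℕ → Fin N → 𝕜) (K : ℕ) {r : ℝ} (h1 : 1 ≤ r)
    (h2 : r ≤ 2)
    (hA : ∑ k ∈ Finset.range K, nn (a k) ^ (2 * r) ≤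
      (∑ k ∈ Finset.range K, nn (a k) ^ r) ^ (2 - 2 / r))
    (hB : ∀ ε : Fin N → ℝ, (∀ j, |ε j| = 1) →
      ∑ k ∈ Finset.range K, ‖∑ j, (ε j : 𝕜) * a k j‖ ^ r ≤ (N : ℝ) ^ (r / 2)) :
    ∑ k ∈ Finset.range K, nn (a k) ^ 2 ≤ 4 * (N : ℝ) ^ (2 - 2 / r) := by
  have hNr : (0 : ℝ) < N := by exact_mod_cast hN
  have hr : 0 < r := by linarith
  set P := ∑ k ∈ Finset.range K, nn (a k) ^ r with hP
  have hP0 : 0 ≤ P := Finset.sum_nonneg fun k _ => Real.rpow_nonneg (nn_nonneg _) _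
  have hP2 : P ≤ 2 * (N : ℝ) ^ (r / 2) := by
    have e1 : 1 / 2 * P ≤ Ex N (fun ε => ∑ k ∈ Finset.range K, ‖∑ j, (ε j : 𝕜) * a k j‖ ^ r) := by
      rw [Ex_sum, hP, Finset.mul_sum]
      exact Finset.sum_le_sum fun k _ => khintchine (a k) h1 h2
    have e2 := e1.trans (Ex_mono hB)
    rw [Ex_const] at e2
    linarith
  have he0 : 0 ≤ 2 - 2 / r := by
    have : 2 / r ≤ 2 := by rw [div_le_iff₀ hr]; linarith
    linarith
  have he1 : 2 - 2 / r ≤ 1 := by
    have : 1 ≤ 2 / r := by rw [le_div_iff₀ hr]; linarith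
    linarith
  have hQ : ∑ k ∈ Finset.range K, nn (a k) ^ (2 * r) ≤ 2 * (N : ℝ) ^ (r - 1) := by
    refine hA.trans ((Real.rpow_le_rpow hP0 hP2 he0).trans ?_)
    rw [Real.mul_rpow (by norm_num) (by positivity), ← Real.rpow_mul hNr.le]
    have e3 : r / 2 * (2 - 2 / r) = r - 1 := by field_simp
    rw [e3]
    apply mul_le_mul_of_nonneg_right _ (by positivity)
    have := Real.rpow_le_rpow_of_exponent_le (show (1 : ℝ) ≤ 2 by norm_num) he1
    rwa [Real.rpow_one] at this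
  set m : ℝ := (N : ℝ) ^ (1 / 2 - 1 / r) with hm
  have hm0 : 0 < m := Real.rpow_pos_of_pos hNr _
  have hpt : ∀ k, nn (a k) ^ 2 ≤ m ^ (2 - r) * nn (a k) ^ r +
      m ^ (2 - 2 * r) * nn (a k) ^ (2 * r) := by
    intro k
    have h3 := pt2 (u := nn (a k) / m) (div_nonneg (nn_nonneg _) hm0.le) h1 h2
    rw [Real.div_rpow (nn_nonneg _) hm0.le, Real.div_rpow (nn_nonneg _) hm0.le, div_pow,
      div_le_iff₀ (by positivity)] at h3
    refine h3.trans (le_of_eq ?_)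
    rw [Real.rpow_sub hm0, Real.rpow_sub hm0, Real.rpow_two]
    ring
  calc ∑ k ∈ Finset.range K, nn (a k) ^ 2
      ≤ ∑ k ∈ Finset.range K, (m ^ (2 - r) * nn (a k) ^ r +
        m ^ (2 - 2 * r) * nn (a k) ^ (2 * r)) := Finset.sum_le_sum fun k _ => hpt k
    _ = m ^ (2 - r) * P + m ^ (2 - 2 * r) * ∑ k ∈ Finset.range K, nn (a k) ^ (2 * r) := by
        rw [Finset.sum_add_distrib, ← Finset.mul_sum, ← Finset.mul_sum]
    _ ≤ m ^ (2 - r) * (2 * (N : ℝ) ^ (r / 2)) + m ^ (2 - 2 * r) * (2 * (N : ℝ) ^ (r - 1)) :=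
        add_le_add (mul_le_mul_of_nonneg_left hP2 (by positivity))
          (mul_le_mul_of_nonneg_left hQ (by positivity))
    _ = 4 * (N : ℝ) ^ (2 - 2 / r) := by
        have e4 : m ^ (2 - r) * (N : ℝ) ^ (r / 2) = (N : ℝ) ^ (2 - 2 / r) := by
          rw [hm, ← Real.rpow_mul hNr.le, ← Real.rpow_add hNr]
          congr 1
          field_simp
          ring
        have e5 : m ^ (2 - 2 * r) * (N : ℝ) ^ (r - 1) = (N : ℝ) ^ (2 - 2 / r) := by
          rw [hm, ← Real.rpow_mul hNr.le, ← Real.rpow_add hNr]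
          congr 1
          field_simp
          ring
        calc _ = 2 * (m ^ (2 - r) * (N : ℝ) ^ (r / 2)) +
              2 * (m ^ (2 - 2 * r) * (N : ℝ) ^ (r - 1)) := by ring
          _ = _ := by rw [e4, e5]; ring

/-- the spaces `ℓ_p` -/
abbrev El (𝕜 : Type*) [RCLike 𝕜] (p : ℝ≥0∞) : Type _ := lp (fun _ : ℕ => 𝕜) p

section X

variable {p : ℝ≥0∞} [Fact (1 ≤ p)]

lemma p_pos' : 0 < p := lt_of_lt_of_le one_pos (Fact.out : 1 ≤ p)

lemma one_le_P (hp : p ≠ ∞) : 1 ≤ p.toReal := by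
  rw [← ENNReal.toReal_one]
  exact ENNReal.toReal_mono hp Fact.out

lemma sum_le_norm (hp : p ≠ ∞) (y : El 𝕜 p) (K : ℕ) :
    ∑ k ∈ Finset.range K, ‖y k‖ ^ p.toReal ≤ ‖y‖ ^ p.toReal :=
  sum_le_hasSum _ (fun _ _ => Real.rpow_nonneg (norm_nonneg _) _)
    (lp.hasSum_norm (lt_of_lt_of_le one_pos (one_le_P hp)) y)

/-- Hölder's inequality in the form used below -/
lemma holder_aux (hp : p ≠ ∞) (y : El 𝕜 p) (K : ℕ) (w : ℕ → ℝ) (hw : ∀ k, 0 ≤ w k) :
    ∑ k ∈ Finset.range K, w k ^ (p.toReal - 1) * ‖y k‖ ≤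
      (∑ k ∈ Finset.range K, w k ^ p.toReal) ^ (1 - 1 / p.toReal) * ‖y‖ := by
  have h1 := one_le_P (p := p) hp
  have hs := sum_le_norm hp y K
  set P := p.toReal with hP
  rcases h1.eq_or_lt with h | h
  · rw [← h] at hs ⊢
    simpa using hs
  · have hc : P.HolderConjugate (P.conjExponent) := Real.HolderConjugate.conjExponent h
    have h2 := Real.inner_le_Lp_mul_Lq (Finset.range K) (fun k => w k ^ (P - 1))
      (fun k => ‖y k‖) hc.symm
    refine h2.trans ?_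
    have hP1 : 0 < P - 1 := by linarith
    have e1 : 1 / P.conjExponent = 1 - 1 / P := by
      rw [Real.conjExponent]
      field_simp
    have e2 : ∀ k, |w k ^ (P - 1)| ^ P.conjExponent = w k ^ P := by
      intro k
      rw [abs_of_nonneg (Real.rpow_nonneg (hw k) _), ← Real.rpow_mul (hw k), Real.conjExponent]
      congr 1
      field_simp
    simp only [e2, abs_norm]
    rw [e1]
    apply mul_le_mul_of_nonneg_left _
      (Real.rpow_nonneg (Finset.sum_nonneg fun k _ => Real.rpow_nonneg (hw k) _) _)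
    rw [one_div, Real.rpow_inv_le_iff_of_pos
      (Finset.sum_nonneg fun k _ => Real.rpow_nonneg (norm_nonneg _) _) (norm_nonneg _)
      (by linarith)]
    exact hs

lemma hs_Xp (hp2 : p ≤ 2) {N : ℕ} (hN : 0 < N) {x : Fin N → El 𝕜 p} (hx : AdmX 𝕜 x) (K : ℕ) :
    ∑ k ∈ Finset.range K, ∑ j, ‖x j k‖ ^ 2 ≤ 4 * (N : ℝ) ^ (2 - 2 / p.toReal) := by
  have hp : p ≠ ∞ := ne_top_of_le_ne_top ENNReal.ofNat_ne_top hp2
  have h1 := one_le_P (p := p) hp
  have h2 : p.toReal ≤ 2 := by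
    have := ENNReal.toReal_mono ENNReal.ofNat_ne_top hp2
    simpa using this
  have hA0 := holder_aux (𝕜 := 𝕜) (p := p) hp
  have hS0 := sum_le_norm (𝕜 := 𝕜) (p := p) hp
  set P := p.toReal with hP
  have hNr : (0 : ℝ) < N := by exact_mod_cast hN
  have h := sum_sq_le hN (fun k j => x j k) K h1 h2 ?_ ?_
  · simpa only [nn_sq] using h
  · -- (A)
    set w : ℕ → ℝ := fun k => nn (fun j => x j k) with hw
    have hw0 : ∀ k, 0 ≤ w k := fun k => nn_nonneg _
    set t : ℕ → ℝ := fun k => w k ^ (P - 1) with ht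
    have ht0 : ∀ k, 0 ≤ t k := fun k => Real.rpow_nonneg (hw0 k) _
    let v : ℕ → EuclideanSpace 𝕜 (Fin N) := fun k => (t k : 𝕜) • WithLp.toLp 2 (fun j => x j k)
    obtain ⟨ε, hε, h⟩ := exists_signs (𝕜 := 𝕜) v K
    have hv : ∀ k, ‖v k‖ ^ 2 = w k ^ (2 * P) := by
      intro k
      have e1 : ‖(WithLp.toLp 2 (fun j => x j k) : EuclideanSpace 𝕜 (Fin N))‖ = w k := by
        rw [EuclideanSpace.norm_eq]
        rfl
      show ‖(t k : 𝕜) • (WithLp.toLp 2 (fun j => x j k) : EuclideanSpace 𝕜 (Fin N))‖ ^ 2 = _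
      rw [norm_smul, RCLike.norm_ofReal, abs_of_nonneg (ht0 k), e1]
      rcases (hw0 k).eq_or_lt with h0 | h0
      · rw [← h0, mul_zero, Real.zero_rpow (by positivity)]
        norm_num
      · have : t k * w k = w k ^ P := by
          rw [ht]
          show w k ^ (P - 1) * w k = w k ^ P
          rw [← Real.rpow_add_one h0.ne']
          congr 1
          ring
        rw [this, ← Real.rpow_natCast, ← Real.rpow_mul (hw0 k)]
        congr 1
        push_cast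
        ring
    simp only [hv] at h
    refine h.trans ?_
    set s : EuclideanSpace 𝕜 (Fin N) := ∑ k ∈ Finset.range K, (ε k : 𝕜) • v k with hs
    set y : El 𝕜 p := ∑ j, (starRingEnd 𝕜 (s j)) • x j with hy
    have hyn : ‖y‖ ≤ ‖s‖ := by
      apply le_of_sq_le_sq _ (norm_nonneg _)
      refine (hx _).trans ?_
      rw [EuclideanSpace.norm_sq_eq]
      simp
    have hsj : ∀ j, s j = ∑ k ∈ Finset.range K, (ε k : 𝕜) * ((t k : 𝕜) * x j k) := by
      intro j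
      rw [hs]
      simp [v, RCLike.real_smul_eq_coe_mul]
    have h3 : ((‖s‖ ^ 2 : ℝ) : 𝕜) = ∑ k ∈ Finset.range K, (ε k : 𝕜) * ((t k : 𝕜) * y k) := by
      have h4 : ∀ k, (y : ℕ → 𝕜) k = ∑ j, (starRingEnd 𝕜 (s j)) * x j k := by
        intro k
        rw [hy, lp.coeFn_sum, Finset.sum_apply]
        rfl
      simp only [h4, Finset.mul_sum]
      rw [Finset.sum_comm, EuclideanSpace.norm_sq_eq]
      push_cast
      apply Finset.sum_congr rfl
      intro j _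
      rw [← RCLike.conj_mul]
      conv_lhs => rw [hsj j]
      rw [← hsj j, hsj j, Finset.mul_sum, ← hsj j]
      apply Finset.sum_congr rfl
      intro k _
      ring
    have h5 : ‖s‖ ^ 2 ≤ (∑ k ∈ Finset.range K, w k ^ P) ^ (1 - 1 / P) * ‖s‖ := by
      have h6 : ‖s‖ ^ 2 = ‖((‖s‖ ^ 2 : ℝ) : 𝕜)‖ := by
        rw [RCLike.norm_ofReal, abs_of_nonneg (sq_nonneg _)]
      rw [h6, h3]
      refine (norm_sum_le _ _).trans ?_
      have h7 : ∀ k, ‖(ε k : 𝕜) * ((t k : 𝕜) * y k)‖ = w k ^ (P - 1) * ‖y k‖ := by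
        intro k
        rw [norm_mul, norm_mul, RCLike.norm_ofReal, hε, one_mul, RCLike.norm_ofReal,
          abs_of_nonneg (ht0 k)]
      simp only [h7]
      refine (hA0 y K w hw0).trans ?_
      exact mul_le_mul_of_nonneg_left hyn
        (Real.rpow_nonneg (Finset.sum_nonneg fun k _ => Real.rpow_nonneg (hw0 k) _) _)
    have hW0 : 0 ≤ ∑ k ∈ Finset.range K, w k ^ P :=
      Finset.sum_nonneg fun k _ => Real.rpow_nonneg (hw0 k) _
    have h8 : ‖s‖ ≤ (∑ k ∈ Finset.range K, w k ^ P) ^ (1 - 1 / P) := by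
      rcases (norm_nonneg s).eq_or_lt with h0 | h0
      · rw [← h0]; exact Real.rpow_nonneg hW0 _
      · rw [sq] at h5
        exact le_of_mul_le_mul_right h5 h0
    refine (pow_le_pow_left₀ (norm_nonneg _) h8 2).trans (le_of_eq ?_)
    rw [← Real.rpow_natCast, ← Real.rpow_mul hW0]
    congr 1
    push_cast
    ring
  · -- (B)
    intro ε hε
    set y : El 𝕜 p := ∑ j, (ε j : 𝕜) • x j with hy
    have hyk : ∀ k, (y : ℕ → 𝕜) k = ∑ j, (ε j : 𝕜) * x j k := by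
      intro k
      rw [hy, lp.coeFn_sum, Finset.sum_apply]
      rfl
    have hyn : ‖y‖ ^ 2 ≤ N := by
      refine (hx (fun j => (ε j : 𝕜))).trans (le_of_eq ?_)
      have : ∀ j, ‖((ε j : ℝ) : 𝕜)‖ ^ 2 = 1 := by
        intro j
        rw [RCLike.norm_ofReal, hε, one_pow]
      rw [Finset.sum_congr rfl fun j _ => this j]
      simp
    have h3 := hS0 y K
    simp only [hyk] at h3
    refine h3.trans ?_
    have h4 : ‖y‖ ^ P = (‖y‖ ^ 2) ^ (P / 2) := by
      rw [← Real.rpow_natCast, ← Real.rpow_mul (norm_nonneg _)]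
      congr 1
      push_cast
      ring
    rw [h4]
    exact Real.rpow_le_rpow (by positivity) hyn (by positivity)

end X

section Y

variable {q : ℝ≥0∞} [Fact (1 ≤ q)]

/-- the conjugate exponent (as a real number) -/
noncomputable def cj (q : ℝ≥0∞) : ℝ := (1 - 1 / q.toReal)⁻¹

lemma inv_Q (hq2 : 2 ≤ q) : 0 ≤ 1 / q.toReal ∧ 1 / q.toReal ≤ 1 / 2 := by
  refine ⟨by positivity, ?_⟩
  by_cases hq : q = ∞
  · rw [hq, ENNReal.toReal_top, div_zero]; norm_num
  · have : (2 : ℝ) ≤ q.toReal := by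
      have := ENNReal.toReal_mono hq hq2
      simpa using this
    exact one_div_le_one_div_of_le (by norm_num) this

lemma one_div_cj (q : ℝ≥0∞) : 1 / cj q = 1 - 1 / q.toReal := by
  unfold cj; rw [one_div, inv_inv]

lemma cj_bounds (hq2 : 2 ≤ q) : 1 ≤ cj q ∧ cj q ≤ 2 := by
  obtain ⟨h0, h1⟩ := inv_Q hq2
  unfold cj
  constructor
  · rw [le_inv_comm₀ one_pos (by linarith)]; linarith
  · rw [inv_le_comm₀ (by linarith) (by norm_num)]; linarith

lemma norm_fin_le (hq2 : 2 ≤ q) (K : ℕ) (c : ℕ → 𝕜) (w : ℕ → ℝ) (hw : ∀ k, 0 ≤ w k)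
    (hc : ∀ k, ‖c k‖ ≤ w k ^ (cj q - 1)) :
    ‖∑ k ∈ Finset.range K, (lp.single q k (c k) : El 𝕜 q)‖ ≤
      (∑ k ∈ Finset.range K, w k ^ cj q) ^ (1 / q.toReal) := by
  by_cases hq : q = ∞
  · subst hq
    have e : cj ∞ = 1 := by simp [cj]
    rw [e] at hc ⊢
    simp only [sub_self, Real.rpow_zero] at hc
    rw [ENNReal.toReal_top, div_zero, Real.rpow_zero]
    apply lp.norm_le_of_forall_le zero_le_one
    intro j
    rw [lp.coeFn_sum, Finset.sum_apply]
    by_cases hj : j ∈ Finset.range K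
    · rw [Finset.sum_eq_single_of_mem j hj]
      · rw [lp.single_apply_self]
        exact hc j
      · intro k _ hk
        rw [lp.single_apply_ne _ _ _ (Ne.symm hk)]
    · rw [Finset.sum_eq_zero]
      · simp
      · intro k hk
        have hjk : j ≠ k := by rintro rfl; exact hj hk
        rw [lp.single_apply_ne _ _ _ hjk]
  · have hQ2 : (2 : ℝ) ≤ q.toReal := by
      have := ENNReal.toReal_mono hq hq2
      simpa using this
    set Q := q.toReal with hQ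
    have hQ0 : 0 < Q := by linarith
    have h1 := lp.norm_sum_single (E := fun _ : ℕ => 𝕜) (p := q) hQ0 c (Finset.range K)
    have h2 : ‖∑ k ∈ Finset.range K, (lp.single q k (c k) : El 𝕜 q)‖ ^ Q ≤
        ∑ k ∈ Finset.range K, w k ^ cj q := by
      rw [hQ, h1]
      apply Finset.sum_le_sum
      intro k _
      refine (Real.rpow_le_rpow (norm_nonneg _) (hc k) (by positivity)).trans (le_of_eq ?_)
      rw [← hQ, ← Real.rpow_mul (hw k)]
      congr 1
      have h3 : cj q = Q / (Q - 1) := by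
        unfold cj
        rw [← hQ]
        have : Q - 1 ≠ 0 := by linarith
        field_simp
      rw [h3]
      have : Q - 1 ≠ 0 := by linarith
      field_simp
      ring
    rw [one_div, Real.le_rpow_inv_iff_of_pos (norm_nonneg _)
      (Finset.sum_nonneg fun k _ => Real.rpow_nonneg (hw k) _) hQ0]
    exact h2

lemma hs_Yq (hq2 : 2 ≤ q) {N : ℕ} (hN : 0 < N) {b : Fin N → El 𝕜 q →L[𝕜] 𝕜} (hb : AdmY b)
    (K : ℕ) : ∑ k ∈ Finset.range K, ∑ l, ‖b l (lp.single q k (1 : 𝕜))‖ ^ 2 ≤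
      4 * (N : ℝ) ^ (2 - 2 / cj q) := by
  obtain ⟨h1, h2⟩ := cj_bounds hq2
  have hr := one_div_cj q
  have hF := norm_fin_le (𝕜 := 𝕜) hq2 K
  obtain ⟨hi0, hi1⟩ := inv_Q hq2
  set r := cj q with hrd
  have hNr : (0 : ℝ) < N := by exact_mod_cast hN
  have hsing : ∀ k (c : 𝕜) l, b l (lp.single q k c) = c * b l (lp.single q k (1 : 𝕜)) := by
    intro k c l
    have : (lp.single q k c : El 𝕜 q) = c • lp.single q k (1 : 𝕜) := by
      rw [← lp.single_smul, smul_eq_mul, mul_one]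
    rw [this, map_smul, smul_eq_mul]
  have h := sum_sq_le hN (fun k l => b l (lp.single q k (1 : 𝕜))) K h1 h2 ?_ ?_
  · simpa only [nn_sq] using h
  · -- (A)
    set w : ℕ → ℝ := fun k => nn (fun l => b l (lp.single q k (1 : 𝕜))) with hw
    have hw0 : ∀ k, 0 ≤ w k := fun k => nn_nonneg _
    set t : ℕ → ℝ := fun k => w k ^ (r - 1) with ht
    have ht0 : ∀ k, 0 ≤ t k := fun k => Real.rpow_nonneg (hw0 k) _
    let v : ℕ → EuclideanSpace 𝕜 (Fin N) := fun k =>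
      (t k : 𝕜) • WithLp.toLp 2 (fun l => b l (lp.single q k (1 : 𝕜)))
    obtain ⟨ε, hε, h⟩ := exists_signs (𝕜 := 𝕜) v K
    have hv : ∀ k, ‖v k‖ ^ 2 = w k ^ (2 * r) := by
      intro k
      have e1 : ‖(WithLp.toLp 2 (fun l => b l (lp.single q k (1 : 𝕜))) :
          EuclideanSpace 𝕜 (Fin N))‖ = w k := by
        rw [EuclideanSpace.norm_eq]
        rfl
      show ‖(t k : 𝕜) • (WithLp.toLp 2 (fun l => b l (lp.single q k (1 : 𝕜))) :
        EuclideanSpace 𝕜 (Fin N))‖ ^ 2 = _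
      rw [norm_smul, RCLike.norm_ofReal, abs_of_nonneg (ht0 k), e1]
      rcases (hw0 k).eq_or_lt with h0 | h0
      · rw [← h0, mul_zero, Real.zero_rpow (by positivity)]
        norm_num
      · have : t k * w k = w k ^ r := by
          rw [ht]
          show w k ^ (r - 1) * w k = w k ^ r
          rw [← Real.rpow_add_one h0.ne']
          congr 1
          ring
        rw [this, ← Real.rpow_natCast, ← Real.rpow_mul (hw0 k)]
        congr 1
        push_cast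
        ring
    simp only [hv] at h
    refine h.trans ?_
    set y : El 𝕜 q := ∑ k ∈ Finset.range K, lp.single q k ((ε k : 𝕜) * (t k : 𝕜)) with hy
    have hyn : ‖y‖ ≤ (∑ k ∈ Finset.range K, w k ^ r) ^ (1 / q.toReal) := by
      apply hF _ w hw0
      intro k
      rw [norm_mul, RCLike.norm_ofReal, hε, one_mul, RCLike.norm_ofReal, abs_of_nonneg (ht0 k)]
    have hsl : ‖∑ k ∈ Finset.range K, (ε k : 𝕜) • v k‖ ^ 2 = ∑ l, ‖b l y‖ ^ 2 := by
      rw [EuclideanSpace.norm_sq_eq]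
      apply Finset.sum_congr rfl
      intro l _
      have e2 : (∑ k ∈ Finset.range K, (ε k : 𝕜) • v k) l =
          ∑ k ∈ Finset.range K, (ε k : 𝕜) * ((t k : 𝕜) * b l (lp.single q k (1 : 𝕜))) := by
        simp [v, RCLike.real_smul_eq_coe_mul]
      rw [e2]
      congr 2
      rw [hy, map_sum]
      apply Finset.sum_congr rfl
      intro k _
      rw [hsing k ((ε k : 𝕜) * (t k : 𝕜)) l, mul_assoc]
    rw [hsl]
    refine (hb y).trans ?_
    have hW0 : 0 ≤ ∑ k ∈ Finset.range K, w k ^ r :=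
      Finset.sum_nonneg fun k _ => Real.rpow_nonneg (hw0 k) _
    refine (pow_le_pow_left₀ (norm_nonneg _) hyn 2).trans (le_of_eq ?_)
    rw [← Real.rpow_natCast, ← Real.rpow_mul hW0]
    congr 1
    have : 2 / r = 2 * (1 / r) := by ring
    rw [this, hr]
    push_cast
    ring
  · -- (B)
    intro ε hε
    set β : ℕ → 𝕜 := fun k => ∑ j, (ε j : 𝕜) * b j (lp.single q k (1 : 𝕜)) with hβ
    set V := ∑ k ∈ Finset.range K, ‖β k‖ ^ r with hV
    have hV0 : 0 ≤ V := Finset.sum_nonneg fun k _ => Real.rpow_nonneg (norm_nonneg _) _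
    let c : ℕ → 𝕜 := fun k => ((‖β k‖ ^ (r - 2) : ℝ) : 𝕜) * starRingEnd 𝕜 (β k)
    have hcn : ∀ k, ‖c k‖ ≤ ‖β k‖ ^ (r - 1) := by
      intro k
      show ‖((‖β k‖ ^ (r - 2) : ℝ) : 𝕜) * starRingEnd 𝕜 (β k)‖ ≤ _
      rw [norm_mul, RCLike.norm_ofReal, abs_of_nonneg (Real.rpow_nonneg (norm_nonneg _) _),
        RCLike.norm_conj]
      rcases (norm_nonneg (β k)).eq_or_lt with h0 | h0
      · rw [← h0, mul_zero]; exact Real.rpow_nonneg le_rfl _
      · rw [← Real.rpow_add_one h0.ne']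
        apply le_of_eq
        congr 1
        ring
    have hcb : ∀ k, c k * β k = ((‖β k‖ ^ r : ℝ) : 𝕜) := by
      intro k
      show ((‖β k‖ ^ (r - 2) : ℝ) : 𝕜) * starRingEnd 𝕜 (β k) * β k = _
      rw [mul_assoc, RCLike.conj_mul, ← RCLike.ofReal_pow, ← RCLike.ofReal_mul]
      congr 1
      rcases (norm_nonneg (β k)).eq_or_lt with h0 | h0
      · rw [← h0, zero_pow two_ne_zero, mul_zero, Real.zero_rpow (by linarith)]
      · rw [← Real.rpow_natCast ‖β k‖ 2, ← Real.rpow_add h0]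
        congr 1
        push_cast
        ring
    set y : El 𝕜 q := ∑ k ∈ Finset.range K, lp.single q k (c k) with hy
    have hyn : ‖y‖ ≤ V ^ (1 / q.toReal) := hF c (fun k => ‖β k‖) (fun k => norm_nonneg _) hcn
    have hVy : ((V : ℝ) : 𝕜) = ∑ l, (ε l : 𝕜) * b l y := by
      have e1 : ((V : ℝ) : 𝕜) = ∑ k ∈ Finset.range K, c k * β k := by
        rw [hV]
        push_cast
        exact Finset.sum_congr rfl fun k _ => (hcb k).symm
      rw [e1]
      have e2 : ∀ l, b l y = ∑ k ∈ Finset.range K, c k * b l (lp.single q k (1 : 𝕜)) := by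
        intro l
        rw [hy, map_sum]
        exact Finset.sum_congr rfl fun k _ => hsing k _ l
      simp only [e2, hβ, Finset.mul_sum]
      rw [Finset.sum_comm]
      apply Finset.sum_congr rfl
      intro l _
      apply Finset.sum_congr rfl
      intro k _
      ring
    have hV1 : V ≤ Real.sqrt N * V ^ (1 / q.toReal) := by
      have e3 : V = ‖((V : ℝ) : 𝕜)‖ := by rw [RCLike.norm_ofReal, abs_of_nonneg hV0]
      have e4 : V ≤ ∑ l, ‖b l y‖ := by
        conv_lhs => rw [e3, hVy]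
        refine (norm_sum_le _ _).trans (le_of_eq ?_)
        apply Finset.sum_congr rfl
        intro l _
        rw [norm_mul, RCLike.norm_ofReal, hε, one_mul]
      have e5 : (∑ l, ‖b l y‖) ^ 2 ≤ N * ∑ l, ‖b l y‖ ^ 2 := by
        have := sq_sum_le_card_mul_sum_sq (s := Finset.univ) (f := fun l => ‖b l y‖)
        simpa using this
      have e6 : (∑ l, ‖b l y‖) ^ 2 ≤ (Real.sqrt N * ‖y‖) ^ 2 := by
        rw [mul_pow, Real.sq_sqrt hNr.le]
        exact e5.trans (mul_le_mul_of_nonneg_left (hb y) hNr.le)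
      have e7 : ∑ l, ‖b l y‖ ≤ Real.sqrt N * ‖y‖ :=
        le_of_sq_le_sq e6 (by positivity)
      exact e4.trans (e7.trans (mul_le_mul_of_nonneg_left hyn (Real.sqrt_nonneg _)))
    show V ≤ _
    rcases hV0.eq_or_lt with h0 | h0
    · rw [← h0]; positivity
    · have e8 : V ^ (1 / r) ≤ Real.sqrt N := by
        rw [hr, Real.rpow_sub h0, Real.rpow_one, div_le_iff₀ (Real.rpow_pos_of_pos h0 _)]
        exact hV1
      have e9 : V = (V ^ (1 / r)) ^ r := by
        rw [← Real.rpow_mul hV0, one_div, inv_mul_cancel₀ (by linarith), Real.rpow_one]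
      rw [e9]
      refine (Real.rpow_le_rpow (by positivity) e8 (by linarith)).trans (le_of_eq ?_)
      rw [Real.sqrt_eq_rpow, ← Real.rpow_mul hNr.le]
      congr 1
      ring

end Y

section Map

variable {p q : ℝ≥0∞} [Fact (1 ≤ p)] [Fact (1 ≤ q)]

lemma norm_le_lp (h : p ≤ q) (hp : p ≠ ∞) (f : El 𝕜 p) :
    ‖lp.linearMapOfLE 𝕜 (fun _ : ℕ => 𝕜) h f‖ ≤ ‖f‖ := by
  by_cases hq : q = ∞
  · subst hq
    apply lp.norm_le_of_forall_le (norm_nonneg _)
    intro k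
    rw [lp.coe_linearMapOfLE_apply]
    exact lp.norm_apply_le_norm (p_pos' (p := p)).ne' f k
  · have h1 := one_le_P (p := p) hp
    have h2 : p.toReal ≤ q.toReal := ENNReal.toReal_mono hq h
    apply lp.norm_le_of_forall_sum_le (by linarith) (norm_nonneg _)
    intro s
    rw [lp.coe_linearMapOfLE_apply]
    have h3 : ∀ i, ‖f i‖ ^ q.toReal ≤ ‖f‖ ^ (q.toReal - p.toReal) * ‖f i‖ ^ p.toReal := by
      intro i
      have h4 := lp.norm_apply_le_norm (p_pos' (p := p)).ne' f i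
      rcases (norm_nonneg (f i)).eq_or_lt with h0 | h0
      · rw [← h0, Real.zero_rpow (by linarith), Real.zero_rpow (by linarith), mul_zero]
      · have e : ‖f i‖ ^ q.toReal = ‖f i‖ ^ (q.toReal - p.toReal) * ‖f i‖ ^ p.toReal := by
          rw [← Real.rpow_add h0]
          congr 1
          ring
        rw [e]
        exact mul_le_mul_of_nonneg_right (Real.rpow_le_rpow h0.le h4 (by linarith)) (by positivity)
    refine (Finset.sum_le_sum fun i _ => h3 i).trans ?_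
    rw [← Finset.mul_sum]
    refine (mul_le_mul_of_nonneg_left (lp.sum_rpow_le_norm_rpow (by linarith) f s)
      (by positivity)).trans ?_
    rcases (norm_nonneg f).eq_or_lt with h0 | h0
    · rw [← h0, Real.zero_rpow (show p.toReal ≠ 0 by linarith), mul_zero]
      exact Real.rpow_nonneg le_rfl _
    · rw [← Real.rpow_add h0]
      apply le_of_eq
      congr 1
      ring

/-- the formal identity `ℓ_p → ℓ_q` -/
noncomputable def JJ (𝕜 : Type*) [RCLike 𝕜] {p q : ℝ≥0∞} [Fact (1 ≤ p)] [Fact (1 ≤ q)] (h : p ≤ q)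
    (hp : p ≠ ∞) : El 𝕜 p →L[𝕜] El 𝕜 q :=
  LinearMap.mkContinuous (lp.linearMapOfLE 𝕜 (fun _ : ℕ => 𝕜) h) 1 (fun f => by
    rw [one_mul]
    exact norm_le_lp h hp f)

lemma JJ_apply (h : p ≤ q) (hp : p ≠ ∞) (f : El 𝕜 p) (k : ℕ) : (JJ 𝕜 h hp f : ℕ → 𝕜) k = f k := rfl

lemma JJ_single (h : p ≤ q) (hp : p ≠ ∞) (k : ℕ) :
    JJ 𝕜 h hp (lp.single p k (1 : 𝕜)) = lp.single q k (1 : 𝕜) := by
  ext j
  rw [JJ_apply]
  by_cases h : j = k
  · subst h
    rw [lp.single_apply_self, lp.single_apply_self]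
  · rw [lp.single_apply_ne _ _ _ h, lp.single_apply_ne _ _ _ h]

lemma sum_JX (hp2 : p ≤ 2) (hp : p ≠ ∞) {N : ℕ} (hN : 0 < N) {x : Fin N → El 𝕜 p}
    (hx : AdmX 𝕜 x) : ∑ j, ‖JJ 𝕜 hp2 hp (x j)‖ ^ 2 ≤ 4 * (N : ℝ) ^ (2 - 2 / p.toReal) := by
  have h : HasSum (fun k => ∑ j, ‖x j k‖ ^ 2) (∑ j, ‖JJ 𝕜 hp2 hp (x j)‖ ^ 2) :=
    hasSum_sum fun j _ => hasSum_sq (JJ 𝕜 hp2 hp (x j))
  exact le_of_tendsto' h.tendsto_sum_nat fun K => hs_Xp hp2 hN hx K

lemma sum_JY (hq2 : 2 ≤ q) {N : ℕ} (hN : 0 < N) {b : Fin N → El 𝕜 q →L[𝕜] 𝕜} (hb : AdmY b)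
    {v : Fin N → Ell2 𝕜} (hv : Orthonormal 𝕜 v) :
    ∑ i, ∑ l, ‖b l (JJ 𝕜 hq2 ENNReal.ofNat_ne_top (v i))‖ ^ 2 ≤ 4 * (N : ℝ) ^ (2 - 2 / cj q) := by
  choose w hw1 hw2 using fun l => dual_sq ((b l).comp (JJ 𝕜 hq2 ENNReal.ofNat_ne_top))
  have h1 : ∀ l, ∑ i, ‖b l (JJ 𝕜 hq2 ENNReal.ofNat_ne_top (v i))‖ ^ 2 ≤ ‖w l‖ ^ 2 := by
    intro l
    have h2 : ∀ i, ‖b l (JJ 𝕜 hq2 ENNReal.ofNat_ne_top (v i))‖ ^ 2 = ‖⟪v i, w l⟫_𝕜‖ ^ 2 := by
      intro i
      have h3 : b l (JJ 𝕜 hq2 ENNReal.ofNat_ne_top (v i)) = ⟪w l, v i⟫_𝕜 := hw1 l (v i)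
      rw [h3, norm_inner_symm]
    simp only [h2]
    exact hv.sum_inner_products_le (w l)
  rw [Finset.sum_comm]
  refine (Finset.sum_le_sum fun l _ => h1 l).trans ?_
  have h : HasSum (fun k => ∑ l, ‖b l (lp.single q k (1 : 𝕜))‖ ^ 2) (∑ l, ‖w l‖ ^ 2) := by
    apply hasSum_sum
    intro l _
    have h4 := hw2 l
    simpa [JJ_single] using h4
  exact le_of_tendsto' h.tendsto_sum_nat fun K => hs_Yq hq2 hN hb K

/-- the Hilbert numbers of the formal identity -/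
lemma h_JJ (hp2 : p ≤ 2) (hq2 : 2 ≤ q) (h : p ≤ q) (hp : p ≠ ∞) (n : ℕ) :
    hilbertNumber n (JJ 𝕜 h hp) ≤ 4 * ((n : ℝ) + 1) ^ (-(1 / p.toReal - 1 / q.toReal)) := by
  apply hilbertNumber_le_of_D n _ (by positivity)
  have hN : (0 : ℝ) < ((n + 1 : ℕ) : ℝ) := by positivity
  have e1 : ∀ z : ℝ, 4 * ((n + 1 : ℕ) : ℝ) ^ z = ((n + 1 : ℕ) : ℝ) *
      (4 * ((n + 1 : ℕ) : ℝ) ^ (z - 1)) := by
    intro z
    rw [Real.rpow_sub hN, Real.rpow_one]
    field_simp
  have h3 := D_le_of_factor (N := n + 1) (JJ 𝕜 h hp) (JJ 𝕜 hp2 hp)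
    (JJ 𝕜 hq2 ENNReal.ofNat_ne_top) (fun _ => rfl)
    (s := 4 * ((n + 1 : ℕ) : ℝ) ^ (2 - 2 / p.toReal - 1))
    (t := 4 * ((n + 1 : ℕ) : ℝ) ^ (2 - 2 / cj q - 1)) (by positivity) (by positivity)
    (fun x hx => (sum_JX hp2 hp (Nat.succ_pos n) hx).trans_eq (e1 _))
    (fun b hb v hv => (sum_JY hq2 (Nat.succ_pos n) hb hv).trans_eq (e1 _))
  refine h3.trans (le_of_eq ?_)
  congr 1
  rw [Real.sqrt_eq_iff_mul_self_eq (by positivity) (by positivity)]
  have e2 : ((n : ℝ) + 1) = ((n + 1 : ℕ) : ℝ) := by push_cast; ring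
  rw [e2]
  have e3 : ∀ a b : ℝ, (4 * ((n + 1 : ℕ) : ℝ) ^ a) * (4 * ((n + 1 : ℕ) : ℝ) ^ b) =
      16 * ((n + 1 : ℕ) : ℝ) ^ (a + b) := by
    intro a b
    rw [Real.rpow_add hN]
    ring
  rw [e3, e3]
  congr 2
  have h4 := one_div_cj q
  have : 2 / cj q = 2 * (1 / cj q) := by ring
  rw [this, h4]
  ring

lemma a_JJ (h : p ≤ q) (hp : p ≠ ∞) (n : ℕ) : 1 / 2 ≤ approxNumber n (JJ 𝕜 h hp) := by
  apply half_le_approx n _ (fun i => lp.single p i (1 : 𝕜))
  · intro i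
    rw [lp.norm_single (p_pos' (p := p))]
    simp
  · intro i j hij
    have h := lp.norm_apply_le_norm (p_pos' (p := q)).ne'
      (JJ 𝕜 h hp (lp.single p i (1 : 𝕜)) - JJ 𝕜 h hp (lp.single p j (1 : 𝕜))) i
    rw [lp.coeFn_sub, Pi.sub_apply, JJ_apply, JJ_apply, lp.single_apply_self,
      lp.single_apply_ne _ _ _ hij] at h
    simpa using h

/-- the geometric means -/
lemma geom_rate {X Y : Type*} [NormedAddCommGroup X] [NormedSpace 𝕜 X] [NormedAddCommGroup Y]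
    [NormedSpace 𝕜 Y] (n : ℕ) (S : X →L[𝕜] Y) {ρ : ℝ} (h0 : 0 ≤ ρ) (h1 : ρ ≤ 1)
    (h : ∀ k, hilbertNumber k S ≤ 4 * ((k : ℝ) + 1) ^ (-ρ)) :
    ((n : ℝ) + 1) ^ ρ * geomMean n S ≤ 4 * Real.exp 1 := by
  apply le_of_pow_le_pow_left₀ (Nat.succ_ne_zero n) (by positivity)
  rw [mul_pow, geomMean_pow, mul_pow]
  have h2 : ∏ k ∈ Finset.range (n + 1), hilbertNumber k S ≤
      4 ^ (n + 1) * (∏ k ∈ Finset.range (n + 1), (1 / ((k : ℝ) + 1))) ^ ρ := by
    refine (Finset.prod_le_prod (fun k _ => hilbertNumber_nonneg k S) fun k _ => h k).trans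
      (le_of_eq ?_)
    rw [Finset.prod_mul_distrib, Finset.prod_const, Finset.card_range,
      ← Real.finsetProd_rpow _ _ (fun k _ => by positivity)]
    congr 1
    apply Finset.prod_congr rfl
    intro k _
    rw [one_div, Real.inv_rpow (by positivity), Real.rpow_neg (by positivity)]
  rw [prod_inv_le] at h2
  have h3 := pow_div_le n
  have h4 : (((n : ℝ) + 1) ^ (n + 1) * (1 / (((n + 1).factorial : ℕ) : ℝ))) ^ ρ ≤
      Real.exp 1 ^ (n + 1) := by
    refine (Real.rpow_le_rpow (by positivity) h3 h0).trans ?_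
    have h5 : (1 : ℝ) ≤ Real.exp 1 ^ (n + 1) := one_le_pow₀ (Real.one_le_exp zero_le_one)
    calc (Real.exp 1 ^ (n + 1)) ^ ρ ≤ (Real.exp 1 ^ (n + 1)) ^ (1 : ℝ) :=
          Real.rpow_le_rpow_of_exponent_le h5 h1
      _ = _ := Real.rpow_one _
  calc (((n : ℝ) + 1) ^ ρ) ^ (n + 1) * ∏ k ∈ Finset.range (n + 1), hilbertNumber k S
      ≤ (((n : ℝ) + 1) ^ ρ) ^ (n + 1) *
        (4 ^ (n + 1) * (1 / (((n + 1).factorial : ℕ) : ℝ)) ^ ρ) :=
        mul_le_mul_of_nonneg_left h2 (by positivity)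
    _ = 4 ^ (n + 1) * (((n : ℝ) + 1) ^ (n + 1) * (1 / (((n + 1).factorial : ℕ) : ℝ))) ^ ρ := by
        rw [Real.mul_rpow (by positivity) (by positivity), ← Real.rpow_natCast (((n : ℝ) + 1) ^ ρ),
          ← Real.rpow_mul (by positivity), mul_comm ρ, Real.rpow_mul (by positivity),
          Real.rpow_natCast]
        ring
    _ ≤ 4 ^ (n + 1) * Real.exp 1 ^ (n + 1) := mul_le_mul_of_nonneg_left h4 (by positivity)

end Map

end Pool.Agent.KS6_50.HB
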