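import Pool.Agent.KS6_50.HB.General

set_option autoImplicit false
set_option linter.unusedSectionVars false

/-!
Permanence: the domain condition passes to quotients, the codomain condition to subspaces.
-/

namespace Pool.Agent.KS6_50.HB

open Pool.Agent.Results.MP_69de12_an.HilbertBound

variable {𝕜 : Type*} [RCLike 𝕜] {X X' Y Y' : Type*} [NormedAddCommGroup X] [NormedSpace 𝕜 X]
  [NormedAddCommGroup X'] [NormedSpace 𝕜 X'] [NormedAddCommGroup Y] [NormedSpace 𝕜 Y]
  [NormedAddCommGroup Y'] [NormedSpace 𝕜 Y']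

/-- `π` is a metric surjection: `X'` is isometric to a quotient of `X` -/
def MetricSurj (π : X →L[𝕜] X') : Prop :=
  (∀ x, ‖π x‖ ≤ ‖x‖) ∧ ∀ (x' : X') (ε : ℝ), 0 < ε → ∃ x, π x = x' ∧ ‖x‖ ≤ ‖x'‖ + ε

theorem dom_quot {π : X →L[𝕜] X'} (hπ : MetricSurj π) {N : ℕ} {C : ℝ} (h : Dom 𝕜 X N C) :
    Dom 𝕜 X' N C := by
  intro φ B hB z hz
  have key : ∀ ε : ℝ, 0 < ε → ‖(Matrix.of fun i j => φ i (z j)).det‖ ≤
      (1 + ε) ^ N * (C ^ N * B) := by
    intro ε hε
    choose w hw1 hw2 using fun j => hπ.2 (z j) ε hε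
    have hp : 0 < 1 + ε := by linarith
    have h1 := h (fun i => (φ i).comp π) B (fun x hx => hB (fun j => π (x j)) (fun ξ => by
        have : ∑ i, ξ i • π (x i) = π (∑ i, ξ i • x i) := by
          rw [map_sum]
          exact Finset.sum_congr rfl fun i _ => (map_smul π _ _).symm
        rw [this]
        exact (pow_le_pow_left₀ (norm_nonneg _) (hπ.1 _) 2).trans (hx ξ)))
      (fun j => (((1 + ε)⁻¹ : ℝ) : 𝕜) • w j) (fun j => by
        rw [norm_smul, RCLike.norm_ofReal, abs_of_pos (by positivity), inv_mul_le_iff₀ hp, mul_one]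
        exact (hw2 j).trans (by linarith [hz j]))
    have h2 := det_scale (fun i => (φ i).comp π) w (((1 + ε)⁻¹ : ℝ) : 𝕜) 1
    simp only [one_smul, one_mul] at h2
    rw [h2, norm_mul, norm_pow, RCLike.norm_ofReal, abs_of_pos (by positivity), inv_pow,
      inv_mul_le_iff₀ (by positivity)] at h1
    simpa only [ContinuousLinearMap.comp_apply, hw1] using h1
  have t : Filter.Tendsto (fun ε : ℝ => (1 + ε) ^ N * (C ^ N * B)) (nhdsWithin (0 : ℝ) (Set.Ioi 0))
      (nhds (C ^ N * B)) := by
    have h : Filter.Tendsto (fun ε : ℝ => (1 + ε) ^ N * (C ^ N * B)) (nhds 0)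
        (nhds ((1 + 0) ^ N * (C ^ N * B))) := by
      apply Continuous.tendsto
      fun_prop
    rw [add_zero, one_pow, one_mul] at h
    exact h.mono_left nhdsWithin_le_nhds
  apply ge_of_tendsto t
  filter_upwards [self_mem_nhdsWithin] with ε hε
  exact key ε hε

theorem cod_isometry (J : Y' →ₗᵢ[𝕜] Y) {N : ℕ} {C : ℝ} (h : Cod 𝕜 Y N C) : Cod 𝕜 Y' N C := by
  intro y B hB g hg
  let e := J.equivRange
  choose G hG1 hG2 using fun i => exists_extension_norm_eq _
    ((g i).comp e.symm.toContinuousLinearEquiv.toContinuousLinearMap)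
  have hGn : ∀ i, ‖G i‖ ≤ 1 := by
    intro i
    rw [hG2]
    apply ContinuousLinearMap.opNorm_le_bound _ zero_le_one
    intro z
    have h1 := (g i).le_of_opNorm_le (hg i) (e.symm z)
    rw [e.symm.norm_map] at h1
    exact h1
  have hGJ : ∀ i y', G i (J y') = g i y' := by
    intro i y'
    have h1 := hG1 i (e y')
    have h2 : ((g i).comp e.symm.toContinuousLinearEquiv.toContinuousLinearMap) (e y')
        = g i y' := by
      show g i (e.symm (e y')) = g i y'
      rw [e.symm_apply_apply]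
    rw [h2] at h1
    exact h1
  have h1 := h (fun j => J (y j)) B (fun b hb => hB (fun i => (b i).comp J.toContinuousLinearMap)
    (fun z => (hb (J z)).trans_eq (by rw [J.norm_map]))) G hGn
  simpa only [hGJ] using h1

end Pool.Agent.KS6_50.HB
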